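import Mathlib

set_option autoImplicit false

/-!
# Elementary number theory: divisor bound and roots of quadratic congruences in intervals
-/

namespace Pool.Agent.helper47.RA

open Finset

/-- the divisor bound -/
theorem card_divisors_le (ε : ℝ) (hε : 0 < ε) :
    ∃ C : ℝ, 1 ≤ C ∧ ∀ n : ℕ, 0 < n → ((n.divisors.card : ℕ) : ℝ) ≤ C * (n : ℝ) ^ ε := by
  obtain ⟨B, hB⟩ : ∃ B : ℕ, (2 : ℝ) ^ (1 / ε) ≤ B := exists_nat_ge _
  set K : ℝ := 1 + 1 / (ε * Real.log 2) with hK
  have hlog : 0 < Real.log 2 := Real.log_pos (by norm_num)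
  have hK1 : 1 ≤ K := by rw [hK]; have : 0 ≤ 1 / (ε * Real.log 2) := by positivity
                         linarith
  have hKpow : 1 ≤ K ^ B := one_le_pow₀ hK1
  refine ⟨K ^ B, hKpow, fun n hn => ?_⟩
  rw [Nat.card_divisors hn.ne']
  push_cast
  have hfac : (n : ℝ) ^ ε = ∏ p ∈ n.primeFactors, ((p : ℝ) ^ ε) ^ (n.factorization p) := by
    conv_lhs => rw [← Nat.prod_factorization_pow_eq_self hn.ne']
    rw [Finsupp.prod, Nat.support_factorization]
    push_cast
    rw [← Real.finsetProd_rpow _ _ (fun i _ => by positivity)]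
    refine Finset.prod_congr rfl fun p _ => ?_
    rw [← Real.rpow_natCast, ← Real.rpow_natCast, ← Real.rpow_mul (by positivity),
      ← Real.rpow_mul (by positivity), mul_comm]
  rw [hfac]
  have key : ∀ p ∈ n.primeFactors, ((n.factorization p : ℝ) + 1) ≤
      (if p < B then K else 1) * ((p : ℝ) ^ ε) ^ (n.factorization p) := by
    intro p hp
    have hpp := Nat.prime_of_mem_primeFactors hp
    have hp2 : (2 : ℝ) ≤ p := by exact_mod_cast hpp.two_le
    generalize n.factorization p = v
    split_ifs with h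
    · have h1 : (2 : ℝ) ^ ε ≤ (p : ℝ) ^ ε := Real.rpow_le_rpow (by norm_num) hp2 hε.le
      have h2 : 1 + (v : ℝ) * (ε * Real.log 2) ≤ ((2 : ℝ) ^ ε) ^ v := by
        have : ((2 : ℝ) ^ ε) ^ v = Real.exp ((v : ℝ) * (ε * Real.log 2)) := by
          rw [Real.rpow_def_of_pos (by norm_num : (0:ℝ) < 2), ← Real.exp_nat_mul]
          ring_nf
        rw [this]
        linarith [Real.add_one_le_exp ((v : ℝ) * (ε * Real.log 2))]
      have h3 : ((2 : ℝ) ^ ε) ^ v ≤ ((p : ℝ) ^ ε) ^ v :=
        pow_le_pow_left₀ (by positivity) h1 v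
      calc (v : ℝ) + 1 ≤ K * (1 + (v : ℝ) * (ε * Real.log 2)) := by
            rw [hK]
            have hel : 0 < ε * Real.log 2 := by positivity
            have : (1 + 1 / (ε * Real.log 2)) * (1 + (v : ℝ) * (ε * Real.log 2)) =
              1 + (v : ℝ) * (ε * Real.log 2) + 1 / (ε * Real.log 2) + v := by
              field_simp
              ring
            rw [this]
            have : 0 ≤ (v : ℝ) * (ε * Real.log 2) := by positivity
            have : 0 ≤ 1 / (ε * Real.log 2) := by positivity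
            linarith
        _ ≤ K * ((p : ℝ) ^ ε) ^ v := by
            refine mul_le_mul_of_nonneg_left (h2.trans h3) (by linarith)
    · rw [one_mul]
      push Not at h
      have h1 : (2 : ℝ) ≤ (p : ℝ) ^ ε := by
        have : ((2 : ℝ) ^ (1 / ε)) ^ ε ≤ (p : ℝ) ^ ε :=
          Real.rpow_le_rpow (by positivity) (hB.trans (by exact_mod_cast h)) hε.le
        rwa [← Real.rpow_mul (by norm_num), one_div_mul_cancel hε.ne', Real.rpow_one] at this
      have h2 : ((v : ℝ) + 1) ≤ 2 ^ v := by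
        have : v + 1 ≤ 2 ^ v := Nat.lt_two_pow_self
        exact_mod_cast this
      exact h2.trans (pow_le_pow_left₀ (by norm_num) h1 v)
  calc ∏ p ∈ n.primeFactors, ((n.factorization p : ℝ) + 1)
      ≤ ∏ p ∈ n.primeFactors, ((if p < B then K else 1) * ((p : ℝ) ^ ε) ^ (n.factorization p)) :=
        Finset.prod_le_prod (fun _ _ => by positivity) key
    _ = (∏ p ∈ n.primeFactors, (if p < B then K else 1)) *
          ∏ p ∈ n.primeFactors, ((p : ℝ) ^ ε) ^ (n.factorization p) := Finset.prod_mul_distrib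
    _ ≤ K ^ B * ∏ p ∈ n.primeFactors, ((p : ℝ) ^ ε) ^ (n.factorization p) := by
        refine mul_le_mul_of_nonneg_right ?_ (Finset.prod_nonneg fun _ _ => by positivity)
        rw [Finset.prod_ite, Finset.prod_const_one, mul_one, Finset.prod_const]
        refine pow_le_pow_right₀ hK1 ?_
        calc (n.primeFactors.filter (· < B)).card ≤ (Finset.range B).card :=
              Finset.card_le_card fun p hp => by
                rw [Finset.mem_filter] at hp; exact Finset.mem_range.2 hp.2
          _ = B := Finset.card_range B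

/-- pairwise congruent integers in an interval -/
lemma card_congr_le (l : ℕ) (hl : 0 < l) (u : ℤ) (L : ℕ) (S : Finset ℤ)
    (hS : ∀ z ∈ S, u < z ∧ z ≤ u + L) (hc : ∀ z ∈ S, ∀ z' ∈ S, (l : ℤ) ∣ z - z') :
    S.card ≤ L / l + 1 := by
  have hl' : (0 : ℤ) < l := by exact_mod_cast hl
  have : S.card ≤ (Finset.range (L / l + 1)).card := by
    refine Finset.card_le_card_of_injOn (fun z => ((z - u - 1) / l).toNat) ?_ ?_
    · intro z hz
      obtain ⟨h1, h2⟩ := hS z hz
      rw [Finset.coe_range, Set.mem_Iio]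
      have h3 : 0 ≤ (z - u - 1) / (l : ℤ) := Int.ediv_nonneg (by omega) hl'.le
      have h4 : (z - u - 1) / (l : ℤ) ≤ (L : ℤ) / l := Int.ediv_le_ediv hl' (by omega)
      have h5 : (((z - u - 1) / (l : ℤ)).toNat : ℤ) ≤ ((L / l : ℕ) : ℤ) := by
        rw [Int.toNat_of_nonneg h3]; push_cast; exact h4
      have : ((z - u - 1) / (l : ℤ)).toNat ≤ L / l := by exact_mod_cast h5
      show ((z - u - 1) / (l : ℤ)).toNat < L / l + 1
      omega
    · intro z hz z' hz' h
      obtain ⟨h1, h2⟩ := hS z hz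
      obtain ⟨h1', h2'⟩ := hS z' hz'
      have h3 : 0 ≤ (z - u - 1) / (l : ℤ) := Int.ediv_nonneg (by omega) hl'.le
      have h3' : 0 ≤ (z' - u - 1) / (l : ℤ) := Int.ediv_nonneg (by omega) hl'.le
      have h4 : (z - u - 1) / (l : ℤ) = (z' - u - 1) / (l : ℤ) := by
        have h5 : ((z - u - 1) / (l : ℤ)).toNat = ((z' - u - 1) / (l : ℤ)).toNat := h
        have := congrArg (fun n : ℕ => (n : ℤ)) h5
        simp only [Int.toNat_of_nonneg h3, Int.toNat_of_nonneg h3'] at this
        exact this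
      have h6 : (z - u - 1) % (l : ℤ) = (z' - u - 1) % (l : ℤ) := by
        refine Int.ModEq.eq ?_
        have h7 : z ≡ z' [ZMOD l] := (Int.modEq_iff_dvd.2 (hc z' hz' z hz))
        exact (h7.sub_right u).sub_right 1
      have h8 := Int.emod_add_mul_ediv (z - u - 1) l
      have h9 := Int.emod_add_mul_ediv (z' - u - 1) l
      rw [h4, h6] at h8
      omega
  rwa [Finset.card_range] at this

/-- roots of a quadratic congruence in an interval -/
theorem card_roots_le (M : ℕ) (hM : 0 < M) (H : ℕ) (a : ℤ) (u : ℤ) (L : ℕ) (S : Finset ℤ)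
    (hS : ∀ z ∈ S, u < z ∧ z ≤ u + L) (hroot : ∀ z ∈ S, (M : ℤ) ∣ z ^ 2 - a)
    (hH : ∀ z ∈ S, ∀ h : ℕ, h ^ 2 ∣ M → (h : ℤ) ∣ 2 * z → h ≤ H) :
    (S.card : ℝ) ≤ M.divisors.card * ((L : ℝ) * H / M + 1) := by
  classical
  rcases S.eq_empty_or_nonempty with rfl | ⟨z0, hz0⟩
  · simp; positivity
  have hMR : (0 : ℝ) < M := by exact_mod_cast hM
  let φ : ℤ → ℕ := fun z => Int.gcd (z - z0) M
  have hφ : ∀ z ∈ S, φ z ∈ M.divisors := by
    intro z _
    rw [Nat.mem_divisors]
    exact ⟨by exact_mod_cast Int.gcd_dvd_right (z - z0) M, hM.ne'⟩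
  have hcard : S.card = ∑ d ∈ M.divisors, (S.filter fun z => φ z = d).card :=
    Finset.card_eq_sum_card_fiberwise hφ
  rw [hcard]
  push_cast
  have key : ∀ d ∈ M.divisors, (((S.filter fun z => φ z = d).card : ℕ) : ℝ) ≤
      (L : ℝ) * H / M + 1 := by
    intro d hd
    rw [Nat.mem_divisors] at hd
    obtain ⟨e, he⟩ := hd.1
    have hd0 : 0 < d := Nat.pos_of_ne_zero fun h => by
      rw [h, zero_mul] at he; omega
    have he0 : 0 < e := Nat.pos_of_ne_zero fun h => by
      rw [h, mul_zero] at he; omega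
    rcases (S.filter fun z => φ z = d).eq_empty_or_nonempty with h0 | ⟨z1, hz1⟩
    · rw [h0]; simp; positivity
    -- divisibility for elements of the fiber
    have hdiv : ∀ z ∈ S.filter (fun z => φ z = d), (d : ℤ) ∣ z - z0 ∧ (e : ℤ) ∣ z + z0 := by
      intro z hz
      rw [Finset.mem_filter] at hz
      have hg : Int.gcd (z - z0) M = d := hz.2
      have h1 : (d : ℤ) ∣ z - z0 := by rw [← hg]; exact Int.gcd_dvd_left _ _
      refine ⟨h1, ?_⟩
      obtain ⟨k, hk⟩ := h1
      have h2 : (M : ℤ) ∣ (z - z0) * (z + z0) := by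
        have h3 := dvd_sub (hroot z hz.1) (hroot z0 hz0)
        have : z ^ 2 - a - (z0 ^ 2 - a) = (z - z0) * (z + z0) := by ring
        rwa [this] at h3
      have h4 : IsCoprime (e : ℤ) k := by
        have h5 : Int.gcd (d * k) (d * e) = d := by
          rw [← hk]
          have : ((d : ℤ) * e) = (M : ℤ) := by rw [he]; push_cast; ring
          rw [this]; exact hg
        rw [Int.gcd_mul_left, Int.natAbs_natCast] at h5
        have h6 : Int.gcd k e = 1 := by
          have : d * Int.gcd k e = d * 1 := by rw [mul_one]; exact h5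
          exact Nat.eq_of_mul_eq_mul_left hd0 this
        rw [Int.isCoprime_iff_gcd_eq_one, Int.gcd_comm]
        exact h6
      have h7 : (e : ℤ) ∣ k * (z + z0) := by
        obtain ⟨c, hc⟩ := h2
        refine ⟨c, ?_⟩
        have h8 : (d : ℤ) * (k * (z + z0)) = d * (e * c) := by
          rw [← mul_assoc, ← hk, hc, he]; push_cast; ring
        exact mul_left_cancel₀ (by exact_mod_cast hd0.ne') h8
      exact h4.dvd_of_dvd_mul_left h7
    have hh : Nat.gcd d e ≤ H := by
      have hz1' := Finset.mem_filter.1 hz1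
      obtain ⟨h1, h2⟩ := hdiv z1 hz1
      refine hH z1 hz1'.1 _ ?_ ?_
      · rw [he, sq]; exact mul_dvd_mul (Nat.gcd_dvd_left _ _) (Nat.gcd_dvd_right _ _)
      · have h3 : ((Nat.gcd d e : ℕ) : ℤ) ∣ z1 - z0 :=
          (Int.natCast_dvd_natCast.2 (Nat.gcd_dvd_left d e)).trans h1
        have h4 : ((Nat.gcd d e : ℕ) : ℤ) ∣ z1 + z0 :=
          (Int.natCast_dvd_natCast.2 (Nat.gcd_dvd_right d e)).trans h2
        have := dvd_add h3 h4
        have h5 : z1 - z0 + (z1 + z0) = 2 * z1 := by ring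
        rwa [h5] at this
    have hl0 : 0 < Nat.lcm d e := Nat.lcm_pos hd0 he0
    have h1 := card_congr_le (Nat.lcm d e) hl0 u L (S.filter fun z => φ z = d)
      (fun z hz => hS z (Finset.mem_filter.1 hz).1)
      (fun z hz z' hz' => by
        obtain ⟨h1, h2⟩ := hdiv z hz
        obtain ⟨h1', h2'⟩ := hdiv z' hz'
        have h3 : (d : ℤ) ∣ z - z' := by
          have := dvd_sub h1 h1'
          have h5 : z - z0 - (z' - z0) = z - z' := by ring
          rwa [h5] at this
        have h4 : (e : ℤ) ∣ z - z' := by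
          have := dvd_sub h2 h2'
          have h5 : z + z0 - (z' + z0) = z - z' := by ring
          rwa [h5] at this
        have h5 : ((Nat.lcm d e : ℕ) : ℤ) = ((Int.lcm d e : ℕ) : ℤ) := by
          simp [Int.lcm]
        rw [h5, Int.coe_lcm]
        exact lcm_dvd h3 h4)
    have hgl : Nat.gcd d e * Nat.lcm d e = M := by rw [Nat.gcd_mul_lcm, he]
    have h2 : ((L / Nat.lcm d e : ℕ) : ℝ) ≤ (L : ℝ) * H / M := by
      refine (Nat.cast_div_le).trans ?_
      rw [div_le_div_iff₀ (by exact_mod_cast hl0) hMR]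
      have h3 : (M : ℝ) ≤ H * (Nat.lcm d e : ℕ) := by
        have : M ≤ H * Nat.lcm d e := by
          calc M = Nat.gcd d e * Nat.lcm d e := hgl.symm
            _ ≤ H * Nat.lcm d e := Nat.mul_le_mul_right _ hh
        exact_mod_cast this
      calc (L : ℝ) * M ≤ L * (H * (Nat.lcm d e : ℕ)) :=
            mul_le_mul_of_nonneg_left h3 (by positivity)
        _ = L * H * (Nat.lcm d e : ℕ) := by ring
    calc (((S.filter fun z => φ z = d).card : ℕ) : ℝ) ≤ ((L / Nat.lcm d e + 1 : ℕ) : ℝ) := by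
          exact_mod_cast h1
      _ = ((L / Nat.lcm d e : ℕ) : ℝ) + 1 := by push_cast; ring
      _ ≤ _ := by linarith
  calc ∑ d ∈ M.divisors, (((S.filter fun z => φ z = d).card : ℕ) : ℝ)
      ≤ ∑ _d ∈ M.divisors, ((L : ℝ) * H / M + 1) := Finset.sum_le_sum key
    _ = M.divisors.card * ((L : ℝ) * H / M + 1) := by
        rw [Finset.sum_const, nsmul_eq_mul]

end Pool.Agent.helper47.RA
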