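import Pool.Agent.helper47.RA.Field
import Pool.Agent.helper12.PE.Primes

set_option autoImplicit false

/-!
# The sum over a dyadic block
-/

namespace Pool.Agent.helper47.RA

open NumberField Finset

/-- Chebyshev lower bound for the number of primes in `(Z, 4 Z]` -/
lemma card_primes_ge : ∃ Z₀ : ℕ, 2 ≤ Z₀ ∧ ∀ Z : ℕ, Z₀ ≤ Z →
    (Z : ℝ) ≤ 4 * Real.log (4 * Z) * ((((Finset.Ioc Z (4 * Z)).filter Nat.Prime).card : ℕ) : ℝ) := by
  obtain ⟨X, hX⟩ := Pool.Agent.helper12.PE.theta_four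
  refine ⟨max X 2, le_max_right _ _, fun Z hZ => ?_⟩
  have hZX : X ≤ Z := (le_max_left _ _).trans hZ
  have hZ2 : 2 ≤ Z := (le_max_right _ _).trans hZ
  have hZR : (2 : ℝ) ≤ Z := by exact_mod_cast hZ2
  have hlog : 0 < Real.log (4 * Z) := Real.log_pos (by linarith)
  have h1 := Pool.Agent.helper12.PE.log_block (x := Z) (by omega) (hX Z hZX)
    (Real.log (4 * Z)) (by push_cast; exact le_refl _) hlog
  have h2 : ∑ p ∈ (Finset.Ioc Z (4 * Z)).filter Nat.Prime, (1 : ℝ) / p ≤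
      ∑ _p ∈ (Finset.Ioc Z (4 * Z)).filter Nat.Prime, (1 : ℝ) / Z := by
    refine Finset.sum_le_sum fun p hp => ?_
    rw [Finset.mem_filter, Finset.mem_Ioc] at hp
    refine one_div_le_one_div_of_le (by linarith) ?_
    exact_mod_cast hp.1.1.le
  rw [Finset.sum_const, nsmul_eq_mul] at h2
  have h3 := h1.trans h2
  rw [div_le_iff₀ (by positivity)] at h3
  have h4 : (Z : ℝ) * 1 ≤ Z * ((((Finset.Ioc Z (4 * Z)).filter Nat.Prime).card : ℝ) * (1 / Z) *
      (4 * Real.log (4 * Z))) := mul_le_mul_of_nonneg_left h3 (by linarith)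
  have h5 : (Z : ℝ) * ((((Finset.Ioc Z (4 * Z)).filter Nat.Prime).card : ℝ) * (1 / Z) *
      (4 * Real.log (4 * Z))) =
      4 * Real.log (4 * Z) * ((((Finset.Ioc Z (4 * Z)).filter Nat.Prime).card : ℕ) : ℝ) := by
    field_simp
  rw [h5, mul_one] at h4
  exact h4

lemma off_le (p : ℕ) (P : Finset ℕ) (D : ℤ) [DecidablePred fun ij : ℕ × ℕ =>
      ij.1 ≠ ij.2 ∧ Sol ((ij.1 * ij.2) ^ p) D] :
    off p P D ≤ ((P ×ˢ P).filter (fun ij : ℕ × ℕ => ij.1 ≠ ij.2 ∧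
      Sol ((ij.1 * ij.2) ^ p) D)).card := by
  classical
  rw [off, ← Fintype.card_coe, ← Nat.card_eq_fintype_card]
  refine Nat.card_le_card_of_injective (fun ij => ⟨((ij.1.1 : ℕ), (ij.1.2 : ℕ)), ?_⟩) ?_
  · rw [Finset.mem_filter, Finset.mem_product]
    exact ⟨⟨ij.1.1.2, ij.1.2.2⟩, ij.2⟩
  · rintro ⟨⟨i, j⟩, h⟩ ⟨⟨i', j'⟩, h'⟩ he
    simp only [Subtype.mk.injEq, Prod.mk.injEq] at he
    have e1 : i = i' := Subtype.ext he.1
    have e2 : j = j' := Subtype.ext he.2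
    subst e1 e2
    rfl

/-- the number of collisions on average -/
theorem sum_off_le (ε : ℝ) (hε : 0 < ε) :
    ∃ C : ℝ, 1 ≤ C ∧ ∀ p X Z : ℕ, 1 ≤ X → 1 ≤ Z → ∀ P : Finset ℕ,
      (∀ q ∈ P, Z ≤ q ∧ q ≤ 4 * Z) →
      ∑ D ∈ Finset.Ioc (X : ℤ) (2 * X), (off p P D : ℝ) ≤
        (P.card : ℝ) ^ 2 * (C * ((4 * Z : ℝ) ^ (2 * p)) ^ ε * ((4 * Z : ℝ) ^ p / √(X : ℝ)) *
          ((X : ℝ) / (Z : ℝ) ^ p + 9)) := by
  classical
  obtain ⟨C, hC, hsol⟩ := card_sol_le ε hε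
  refine ⟨C, hC, fun p X Z hX hZ P hP => ?_⟩
  have hXR : (0 : ℝ) < X := by exact_mod_cast hX
  have hZR : (0 : ℝ) < Z := by exact_mod_cast hZ
  have h1 : ∑ D ∈ Finset.Ioc (X : ℤ) (2 * X), (off p P D : ℝ) ≤
      ∑ D ∈ Finset.Ioc (X : ℤ) (2 * X), ∑ ij ∈ P ×ˢ P,
        (if ij.1 ≠ ij.2 ∧ Sol ((ij.1 * ij.2) ^ p) D then (1 : ℝ) else 0) := by
    refine Finset.sum_le_sum fun D _ => ?_
    have h2 := off_le p P D
    rw [← Nat.cast_le (α := ℝ), Finset.card_filter] at h2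
    push_cast at h2
    exact h2
  rw [Finset.sum_comm] at h1
  refine h1.trans ?_
  have h2 : ∀ ij ∈ P ×ˢ P, ∑ D ∈ Finset.Ioc (X : ℤ) (2 * X),
      (if ij.1 ≠ ij.2 ∧ Sol ((ij.1 * ij.2) ^ p) D then (1 : ℝ) else 0) ≤
      C * ((4 * Z : ℝ) ^ (2 * p)) ^ ε * ((4 * Z : ℝ) ^ p / √(X : ℝ)) *
          ((X : ℝ) / (Z : ℝ) ^ p + 9) := by
    intro ij hij
    rw [Finset.mem_product] at hij
    obtain ⟨a1, a2⟩ := hP _ hij.1
    obtain ⟨b1, b2⟩ := hP _ hij.2
    have e1 : ∑ D ∈ Finset.Ioc (X : ℤ) (2 * X),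
      (if ij.1 ≠ ij.2 ∧ Sol ((ij.1 * ij.2) ^ p) D then (1 : ℝ) else 0) =
      (((Finset.Ioc (X : ℤ) (2 * X)).filter (fun D => ij.1 ≠ ij.2 ∧
        Sol ((ij.1 * ij.2) ^ p) D)).card : ℝ) := by
      rw [Finset.card_filter]; push_cast; rfl
    rw [e1]
    have hlow : (Z ^ p) ^ 2 ≤ (ij.1 * ij.2) ^ p := by
      rw [← pow_mul, mul_comm p 2, pow_mul]
      exact Nat.pow_le_pow_left (by rw [sq]; exact Nat.mul_le_mul a1 b1) p
    have hup : (((ij.1 * ij.2) ^ p : ℕ) : ℝ) ≤ (4 * Z : ℝ) ^ (2 * p) := by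
      have : (ij.1 * ij.2) ^ p ≤ (4 * Z) ^ (2 * p) := by
        rw [pow_mul]
        exact Nat.pow_le_pow_left (by rw [sq]; exact Nat.mul_le_mul a2 b2) p
      exact_mod_cast this
    have h3 := hsol X ((ij.1 * ij.2) ^ p) (Z ^ p) hX (pow_pos hZ p) hlow
      ((Finset.Ioc (X : ℤ) (2 * X)).filter (fun D => ij.1 ≠ ij.2 ∧ Sol ((ij.1 * ij.2) ^ p) D))
      (fun D hD => by
        rw [Finset.mem_filter, Finset.mem_Ioc] at hD
        exact ⟨hD.1.1, hD.1.2, hD.2.2⟩)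
    refine h3.trans ?_
    have h4 : √((((ij.1 * ij.2) ^ p : ℕ) : ℝ) / X) ≤ (4 * Z : ℝ) ^ p / √(X : ℝ) := by
      rw [Real.sqrt_div' _ hXR.le]
      refine div_le_div_of_nonneg_right ?_ (Real.sqrt_nonneg _)
      rw [Real.sqrt_le_left (by positivity)]
      refine hup.trans (le_of_eq ?_)
      rw [← pow_mul, mul_comm p 2]
    have h5 : (((ij.1 * ij.2) ^ p : ℕ) : ℝ) ^ ε ≤ ((4 * Z : ℝ) ^ (2 * p)) ^ ε :=
      Real.rpow_le_rpow (by positivity) hup hε.le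
    have h6 : ((Z ^ p : ℕ) : ℝ) = (Z : ℝ) ^ p := by push_cast; rfl
    rw [h6]
    refine mul_le_mul_of_nonneg_right ?_ (by positivity)
    refine mul_le_mul ?_ h4 (Real.sqrt_nonneg _) (by positivity)
    exact mul_le_mul_of_nonneg_left h5 (by linarith)
  refine (Finset.sum_le_sum h2).trans (le_of_eq ?_)
  rw [Finset.sum_const, Finset.card_product, nsmul_eq_mul]
  push_cast
  ring

/-- few primes of `P` divide `D` -/
lemma card_ram_lt (p Z X : ℕ) (P : Finset ℕ) (hP : ∀ q ∈ P, q.Prime ∧ Z ≤ q) (hZ : 1 ≤ Z)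
    (hZp : 2 * X < Z ^ p) (D : ℤ) (hD : 0 < D) (hDX : D ≤ 2 * X) :
    (P.filter (fun q : ℕ => (q : ℤ) ∣ D)).card < p := by
  by_contra hcon
  push Not at hcon
  have h1 : ∏ q ∈ P.filter (fun q : ℕ => (q : ℤ) ∣ D), q ∣ D.toNat := by
    refine Finset.prod_primes_dvd _ (fun q hq => ?_) (fun q hq => ?_)
    · rw [Finset.mem_filter] at hq
      exact (hP q hq.1).1.prime
    · rw [Finset.mem_filter] at hq
      have := hq.2
      rw [← Int.toNat_of_nonneg hD.le] at this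
      exact_mod_cast this
  have h2 := Nat.le_of_dvd (by omega) h1
  have h3 : Z ^ (P.filter (fun q : ℕ => (q : ℤ) ∣ D)).card ≤
      ∏ q ∈ P.filter (fun q : ℕ => (q : ℤ) ∣ D), q := by
    refine Finset.pow_card_le_prod _ _ _ fun q hq => ?_
    rw [Finset.mem_filter] at hq
    exact (hP q hq.1).2
  have h4 : Z ^ p ≤ Z ^ (P.filter (fun q : ℕ => (q : ℤ) ∣ D)).card :=
    Nat.pow_le_pow_right hZ hcon
  omega

/-- the hypothesis on the counting function -/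
def IsTors (p : ℕ) (F : ℤ → ℝ) : Prop :=
  ∀ D, IsFund D → 0 < D → ∃ (K : Type) (_ : Field K) (_ : NumberField K) (R : RQ K),
    R.D = D ∧ F D = (Nat.card {x : ClassGroup (𝓞 K) // x ^ p = 1} : ℝ)

open Classical in
/-- the block sum in terms of the parameter `Z` -/
theorem block_Z (ε : ℝ) (hε : 0 < ε) :
    ∃ C : ℝ, 1 ≤ C ∧ ∀ p : ℕ, Odd p → ∀ F : ℤ → ℝ, IsTors p F → ∀ X : ℕ, 1 ≤ X →
      (∑ D ∈ (Finset.Ioc (X : ℤ) (2 * X)).filter IsFund, F D ≤
        C * (X : ℝ) ^ (1 / 2 + ε) * X) ∧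
      ∀ Z : ℕ, 2 ≤ Z → 2 * X < Z ^ p → 4 * p ≤ ((Finset.Ioc Z (4 * Z)).filter Nat.Prime).card →
      ∑ D ∈ (Finset.Ioc (X : ℤ) (2 * X)).filter IsFund, F D ≤
        C * (X : ℝ) ^ (1 / 2 + ε) *
          (20 * X / ((Finset.Ioc Z (4 * Z)).filter Nat.Prime).card + 256 * (Z : ℝ) ^ 2 +
            16 * (C * ((4 * Z : ℝ) ^ (2 * p)) ^ ε * ((4 * Z : ℝ) ^ p / √(X : ℝ)) *
          ((X : ℝ) / (Z : ℝ) ^ p + 9))) := by
  obtain ⟨C₁, hC₁, hbd⟩ := nonexc_bound ε hε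
  obtain ⟨C₂, hC₂, hoff⟩ := sum_off_le ε hε
  refine ⟨max C₁ C₂, hC₁.trans (le_max_left _ _), ?_⟩
  intro p hp F hF X hX
  set C := max C₁ C₂ with hC
  have hXR : (1 : ℝ) ≤ X := by exact_mod_cast hX
  have hXpos : (0 : ℝ) < X := by linarith
  have hC0 : 0 < C := by have := le_max_left C₁ C₂; linarith
  set U : ℝ := C * (X : ℝ) ^ (1 / 2 + ε) with hU
  have hU0 : 0 ≤ U := by positivity
  have hUle : C₁ * (X : ℝ) ^ (1 / 2 + ε) ≤ U :=
    mul_le_mul_of_nonneg_right (le_max_left _ _) (by positivity)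
  have htriv : ∀ D ∈ (Finset.Ioc (X : ℤ) (2 * X)).filter IsFund, F D ≤ U := by
    intro D hD
    rw [Finset.mem_filter, Finset.mem_Ioc] at hD
    obtain ⟨K, _, _, R, hRD, hFD⟩ := hF D hD.2 (by omega)
    rw [hFD]
    exact (hbd K R X hX (by rw [hRD]; exact hD.1.2) p hp).1.trans hUle
  have hcardB : (((Finset.Ioc (X : ℤ) (2 * X)).card : ℕ) : ℝ) = X := by
    rw [Int.card_Ioc]
    have : (2 * (X : ℤ) - X).toNat = X := by omega
    rw [this]
  constructor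
  · calc ∑ D ∈ (Finset.Ioc (X : ℤ) (2 * X)).filter IsFund, F D
        ≤ ∑ _D ∈ (Finset.Ioc (X : ℤ) (2 * X)).filter IsFund, U := Finset.sum_le_sum htriv
      _ = (((Finset.Ioc (X : ℤ) (2 * X)).filter IsFund).card : ℝ) * U := by
          rw [Finset.sum_const, nsmul_eq_mul]
      _ ≤ X * U := by
          refine mul_le_mul_of_nonneg_right ?_ hU0
          rw [← hcardB]
          exact_mod_cast Finset.card_filter_le _ _
      _ = U * X := mul_comm _ _
  intro Z hZ hZp hπ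
  set P := (Finset.Ioc Z (4 * Z)).filter Nat.Prime with hPdef
  have hP : ∀ q ∈ P, q.Prime ∧ Z < q ∧ q ≤ 4 * Z := by
    intro q hq
    rw [hPdef, Finset.mem_filter, Finset.mem_Ioc] at hq
    exact ⟨hq.2, hq.1.1, hq.1.2⟩
  have hpi : (0 : ℝ) < P.card := by
    have : 0 < P.card := by
      have := hp.pos
      omega
    exact_mod_cast this
  -- pointwise bound
  have hpt : ∀ D ∈ (Finset.Ioc (X : ℤ) (2 * X)).filter IsFund, F D ≤
      U * ((if D ∈ Exc P X then 1 else 0) + (4 / P.card + 16 * off p P D / P.card ^ 2)) := by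
    intro D hD
    have hD' := hD
    rw [Finset.mem_filter, Finset.mem_Ioc] at hD
    have hnn : (0 : ℝ) ≤ 4 / P.card + 16 * off p P D / P.card ^ 2 := by positivity
    split_ifs with h
    · refine (htriv D hD').trans ?_
      nlinarith
    · obtain ⟨K, _, _, R, hRD, hFD⟩ := hF D hD.2 (by omega)
      have hlarge : P.card < 4 * (P.filter (fun q => jacobiSym R.D q = 1)).card := by
        rw [hRD]
        by_contra hcon
        push Not at hcon
        apply h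
        rw [Exc, Finset.mem_filter, Finset.mem_Ioc]
        refine ⟨hD.1, ?_, ?_⟩
        · convert hcon
        · have h1 := card_ram_lt p Z X P (fun q hq => ⟨(hP q hq).1, (hP q hq).2.1.le⟩)
            (by omega) hZp D (by omega) hD.1.2
          have h2 : (P.filter (fun q : ℕ => (q : ℤ) ∣ D)).card < p := by convert h1
          omega
      have h1 := (hbd K R X hX (by rw [hRD]; exact hD.1.2) p hp).2 P
        (fun q hq => ⟨(hP q hq).1, by have := (hP q hq).2.1; omega⟩) (by convert hlarge)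
      rw [hFD]
      rw [hRD] at h1
      refine h1.trans ?_
      rw [zero_add]
      exact mul_le_mul_of_nonneg_right hUle hnn
  have hnn2 : ∀ D : ℤ, (0 : ℝ) ≤ U * ((if D ∈ Exc P X then 1 else 0) +
      (4 / P.card + 16 * off p P D / P.card ^ 2)) := by
    intro D
    split_ifs <;> positivity
  have hexc : (((Exc P X).card : ℕ) : ℝ) ≤ 16 * X / P.card + 256 * (Z : ℝ) ^ 2 := by
    have h1 := card_exc_le P X Z (fun q hq => ⟨(hP q hq).1, by
      have := (hP q hq).2.1; omega, (hP q hq).2.2⟩)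
    have h2 : (((Exc P X).card : ℕ) : ℝ) * (P.card : ℝ) ^ 2 ≤
        16 * ((P.card : ℝ) * X + (P.card : ℝ) ^ 2 * (4 * Z) ^ 2) := by exact_mod_cast h1
    have h3 : 16 * ((P.card : ℝ) * X + (P.card : ℝ) ^ 2 * (4 * Z) ^ 2) =
        (16 * X / P.card + 256 * (Z : ℝ) ^ 2) * (P.card : ℝ) ^ 2 := by
      field_simp
      ring
    rw [h3] at h2
    exact le_of_mul_le_mul_right h2 (by positivity)
  have hoffs := hoff p X Z hX (by omega) P (fun q hq => ⟨(hP q hq).2.1.le, (hP q hq).2.2⟩)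
  have hsumExc : ∑ D ∈ Finset.Ioc (X : ℤ) (2 * X), (if D ∈ Exc P X then (1 : ℝ) else 0) ≤
      ((Exc P X).card : ℝ) := by
    rw [← Finset.sum_filter, Finset.sum_const, nsmul_eq_mul, mul_one]
    have : ((Finset.Ioc (X : ℤ) (2 * X)).filter (fun D => D ∈ Exc P X)).card ≤ (Exc P X).card :=
      Finset.card_le_card fun D hD => (Finset.mem_filter.1 hD).2
    exact_mod_cast this
  set V : ℝ := C * ((4 * Z : ℝ) ^ (2 * p)) ^ ε * ((4 * Z : ℝ) ^ p / √(X : ℝ)) *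
          ((X : ℝ) / (Z : ℝ) ^ p + 9) with hV
  have hVle : C₂ * ((4 * Z : ℝ) ^ (2 * p)) ^ ε * ((4 * Z : ℝ) ^ p / √(X : ℝ)) *
          ((X : ℝ) / (Z : ℝ) ^ p + 9) ≤ V := by
    refine mul_le_mul_of_nonneg_right ?_ (by positivity)
    refine mul_le_mul_of_nonneg_right ?_ (by positivity)
    exact mul_le_mul_of_nonneg_right (le_max_right _ _) (by positivity)
  calc ∑ D ∈ (Finset.Ioc (X : ℤ) (2 * X)).filter IsFund, F D
      ≤ ∑ D ∈ (Finset.Ioc (X : ℤ) (2 * X)).filter IsFund,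
        U * ((if D ∈ Exc P X then 1 else 0) + (4 / P.card + 16 * off p P D / P.card ^ 2)) :=
        Finset.sum_le_sum hpt
    _ ≤ ∑ D ∈ Finset.Ioc (X : ℤ) (2 * X),
        U * ((if D ∈ Exc P X then 1 else 0) + (4 / P.card + 16 * off p P D / P.card ^ 2)) :=
        Finset.sum_le_sum_of_subset_of_nonneg (Finset.filter_subset _ _) fun D _ _ => hnn2 D
    _ = U * (∑ D ∈ Finset.Ioc (X : ℤ) (2 * X), (if D ∈ Exc P X then (1 : ℝ) else 0) +
        (X * (4 / P.card) + 16 / (P.card : ℝ) ^ 2 *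
          ∑ D ∈ Finset.Ioc (X : ℤ) (2 * X), (off p P D : ℝ))) := by
        rw [← Finset.mul_sum, Finset.sum_add_distrib, Finset.sum_add_distrib, Finset.sum_const,
          nsmul_eq_mul, hcardB]
        congr 2
        congr 1
        rw [Finset.mul_sum]
        refine Finset.sum_congr rfl fun D _ => ?_
        ring
    _ ≤ U * ((16 * X / P.card + 256 * (Z : ℝ) ^ 2) + (X * (4 / P.card) +
        16 / (P.card : ℝ) ^ 2 * ((P.card : ℝ) ^ 2 * V))) := by
        refine mul_le_mul_of_nonneg_left ?_ hU0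
        refine add_le_add (hsumExc.trans hexc) (add_le_add le_rfl ?_)
        refine mul_le_mul_of_nonneg_left ?_ (by positivity)
        refine hoffs.trans ?_
        exact mul_le_mul_of_nonneg_left hVle (by positivity)
    _ = U * (20 * X / P.card + 256 * (Z : ℝ) ^ 2 + 16 * V) := by
        field_simp
        ring

end Pool.Agent.helper47.RA
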