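import Pool.Agent.helper47.RA.Mink

set_option autoImplicit false

/-!
# The class group inequality
-/

namespace Pool.Agent.helper47.RA

open NumberField nonZeroDivisors

variable {K : Type} [Field K] [NumberField K]

namespace RQ

variable (R : RQ K)

/-- collisions between two ideals -/
def Coll (p : ℕ) (I J : Ideal (𝓞 K)) : Prop :=
  ∃ β₁ β₂ : 𝓞 K, β₁ ≠ 0 ∧ β₂ ≠ 0 ∧ Ideal.span {β₁} * J ^ p = Ideal.span {β₂} * I ^ p ∧
    0 < R.σ₁ β₁ * R.σ₁ β₂ ∧ 0 < R.σ₂ β₁ * R.σ₂ β₂ ∧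
    |R.σ₁ β₁| * |R.σ₂ β₂| ≤ 2 * (|R.σ₁ β₂| * |R.σ₂ β₁|) ∧
    |R.σ₁ β₂| * |R.σ₂ β₁| ≤ 2 * (|R.σ₁ β₁| * |R.σ₂ β₂|)

end RQ

lemma sq_card_le {ι α : Type} [Fintype ι] [DecidableEq α] (c : ι → α) :
    (Fintype.card ι) ^ 2 ≤ (Finset.univ.image c).card *
      ((Finset.univ : Finset (ι × ι)).filter (fun ij => c ij.1 = c ij.2)).card := by
  classical
  have h1 : Fintype.card ι = ∑ a ∈ Finset.univ.image c,
      ((Finset.univ : Finset ι).filter (fun i => c i = a)).card := by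
    rw [← Finset.card_univ]
    exact Finset.card_eq_sum_card_fiberwise fun i _ => Finset.mem_image_of_mem c (Finset.mem_univ i)
  have h2 : ((Finset.univ : Finset (ι × ι)).filter (fun ij => c ij.1 = c ij.2)).card =
      ∑ a ∈ Finset.univ.image c, ((Finset.univ : Finset ι).filter (fun i => c i = a)).card ^ 2 := by
    rw [Finset.card_eq_sum_card_fiberwise (f := fun ij : ι × ι => c ij.1)
      (t := Finset.univ.image c) (fun i _ => Finset.mem_image_of_mem c (Finset.mem_univ i.1))]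
    refine Finset.sum_congr rfl fun a _ => ?_
    rw [sq, ← Finset.card_product]
    congr 1
    ext ij
    simp only [Finset.mem_filter, Finset.mem_univ, true_and, Finset.mem_product]
    constructor
    · rintro ⟨h3, h4⟩
      exact ⟨h4, h3 ▸ h4⟩
    · rintro ⟨h3, h4⟩
      exact ⟨h3.trans h4.symm, h3⟩
  rw [h1, h2]
  exact sq_sum_le_card_mul_sum_sq

lemma card_ker_eq (G : Type) [CommGroup G] [Finite G] (p : ℕ) :
    Nat.card {x : G // x ^ p = 1} = Nat.card (G ⧸ (powMonoidHom p : G →* G).range) := by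
  have h1 : Nat.card {x : G // x ^ p = 1} = Nat.card (powMonoidHom p : G →* G).ker := by
    refine Nat.card_congr (Equiv.subtypeEquivRight fun x => ?_)
    rw [MonoidHom.mem_ker]
    rfl
  have h2 := Subgroup.card_mul_index (powMonoidHom p : G →* G).ker
  have h3 := Subgroup.card_mul_index (powMonoidHom p : G →* G).range
  rw [Subgroup.index_ker] at h2
  rw [h1]
  have h4 : 0 < Nat.card (powMonoidHom p : G →* G).range := Nat.card_pos
  have h5 : (powMonoidHom p : G →* G).range.index =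
    Nat.card (G ⧸ (powMonoidHom p : G →* G).range) := rfl
  rw [← h5]
  have h6 : Nat.card (powMonoidHom p : G →* G).range * Nat.card (powMonoidHom p : G →* G).ker =
      Nat.card (powMonoidHom p : G →* G).range * (powMonoidHom p : G →* G).range.index := by
    rw [h3, ← h2, mul_comm]
  exact Nat.eq_of_mul_eq_mul_left h4 h6

lemma log_ratio {r r' : ℝ} (hr' : 0 < r') (h : Int.log 2 r = Int.log 2 r') :
    r ≤ 2 * r' := by
  have h1 := Int.lt_zpow_succ_log_self (b := 2) (by norm_num) r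
  have h2 := Int.zpow_log_le_self (b := 2) (by norm_num) hr'
  rw [h] at h1
  have h3 : (((2 : ℕ) : ℝ)) ^ (Int.log 2 r' + 1) = 2 * (((2 : ℕ) : ℝ)) ^ (Int.log 2 r') := by
    rw [zpow_add₀ (by norm_num), zpow_one]
    push_cast
    ring
  rw [h3] at h1
  linarith

theorem card_torsion_le (R : RQ K) (ι : Type) [Fintype ι] (q : ι → Ideal (𝓞 K))
    (hq : ∀ i, 0 < Ideal.absNorm (q i)) (p : ℕ) (B L : ℕ)
    (hB : 4 * √(R.D : ℝ) ≤ B) (hL : 4 * √(R.D : ℝ) ≤ 2 ^ L)
    (hfin : {I : Ideal (𝓞 K) | 0 < Ideal.absNorm I ∧ Ideal.absNorm I ≤ B}.Finite) :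
    Nat.card {x : ClassGroup (𝓞 K) // x ^ p = 1} * (Fintype.card ι) ^ 2 ≤
      (4 * (2 * L + 1) * {I : Ideal (𝓞 K) | 0 < Ideal.absNorm I ∧ Ideal.absNorm I ≤ B}.ncard) *
      Nat.card {ij : ι × ι // R.Coll p (q ij.1) (q ij.2)} := by
  classical
  set S := {I : Ideal (𝓞 K) | 0 < Ideal.absNorm I ∧ Ideal.absNorm I ≤ B} with hS
  rw [card_ker_eq]
  set H := (powMonoidHom p : ClassGroup (𝓞 K) →* ClassGroup (𝓞 K)).range with hH
  have := Fintype.ofFinite (ClassGroup (𝓞 K) ⧸ H)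
  rw [Nat.card_eq_fintype_card]
  -- representatives
  have hrep : ∀ κ : ClassGroup (𝓞 K) ⧸ H, ∃ I : (Ideal (𝓞 K))⁰, ClassGroup.mk0 I = κ.out :=
    fun κ => ClassGroup.mk0_surjective κ.out
  choose rep hrep using hrep
  have hrepN : ∀ κ, 0 < Ideal.absNorm (rep κ : Ideal (𝓞 K)) := fun κ => by
    rw [Nat.pos_iff_ne_zero, Ne, Ideal.absNorm_eq_zero_iff]
    exact nonZeroDivisors.coe_ne_zero (rep κ)
  have hex : ∀ κ i, ∃ (β : 𝓞 K) (J : Ideal (𝓞 K)), β ≠ 0 ∧
      Ideal.span {β} = ((rep κ : Ideal (𝓞 K)) * q i ^ p) * J ∧ 0 < Ideal.absNorm J ∧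
      ((Ideal.absNorm J : ℕ) : ℝ) ≤ 4 * √(R.D : ℝ) ∧
      R.σ₁ β ≠ 0 ∧ R.σ₂ β ≠ 0 ∧
      |R.σ₁ β| / |R.σ₂ β| ≤ 4 * √(R.D : ℝ) ∧ (4 * √(R.D : ℝ))⁻¹ ≤ |R.σ₁ β| / |R.σ₂ β| := by
    intro κ i
    refine R.exists_short' _ ?_
    rw [map_mul, map_pow]
    exact Nat.mul_pos (hrepN κ) (pow_pos (hq i) p)
  choose β J h1 h2 h3 h4 h5 h6 h7 h8 using hex
  let c : (ClassGroup (𝓞 K) ⧸ H) → ι → Ideal (𝓞 K) × SignType × SignType × ℤ := fun κ i =>
    (J κ i, SignType.sign (R.σ₁ (β κ i)), SignType.sign (R.σ₂ (β κ i)),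
      Int.log 2 (|R.σ₁ (β κ i)| / |R.σ₂ (β κ i)|))
  let Cells : Finset (Ideal (𝓞 K) × SignType × SignType × ℤ) :=
    hfin.toFinset ×ˢ ({1, -1} : Finset SignType) ×ˢ ({1, -1} : Finset SignType) ×ˢ
      Finset.Icc (-(L : ℤ)) L
  have hsD : 0 < √(R.D : ℝ) := R.sqrt_pos
  have hsign : ∀ x : ℝ, x ≠ 0 → SignType.sign x ∈ ({1, -1} : Finset SignType) := by
    intro x hx
    rcases lt_or_gt_of_ne hx with h | h
    · rw [sign_neg h]; simp
    · rw [sign_pos h]; simp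
  have hcell : ∀ κ i, c κ i ∈ Cells := by
    intro κ i
    rw [Finset.mem_product, Finset.mem_product, Finset.mem_product]
    refine ⟨?_, hsign _ (h5 κ i), hsign _ (h6 κ i), ?_⟩
    · rw [Set.Finite.mem_toFinset]
      refine ⟨h3 κ i, ?_⟩
      have := (h4 κ i).trans hB
      exact_mod_cast this
    · have hr : 0 < |R.σ₁ (β κ i)| / |R.σ₂ (β κ i)| :=
        div_pos (abs_pos.2 (h5 κ i)) (abs_pos.2 (h6 κ i))
      rw [Finset.mem_Icc]
      constructor
      · show -(L : ℤ) ≤ Int.log 2 (|R.σ₁ (β κ i)| / |R.σ₂ (β κ i)|)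
        rw [← Int.zpow_le_iff_le_log (by norm_num) hr]
        refine le_trans ?_ (h8 κ i)
        rw [zpow_neg, zpow_natCast]
        push_cast
        exact inv_anti₀ (by positivity) hL
      · show Int.log 2 (|R.σ₁ (β κ i)| / |R.σ₂ (β κ i)|) ≤ L
        have h9 := Int.zpow_log_le_self (b := 2) (by norm_num) hr
        have h10 := h9.trans ((h7 κ i).trans hL)
        have h11 : ((2 : ℕ) : ℝ) ^ Int.log 2 (|R.σ₁ (β κ i)| / |R.σ₂ (β κ i)|) ≤
            ((2 : ℕ) : ℝ) ^ (L : ℤ) := by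
          rw [zpow_natCast]
          push_cast
          push_cast at h10
          exact h10
        rwa [zpow_le_zpow_iff_right₀ (by norm_num)] at h11
  have hcardCells : Cells.card = 4 * (2 * L + 1) * S.ncard := by
    rw [Finset.card_product, Finset.card_product, Finset.card_product, Int.card_Icc,
      ← Set.ncard_eq_toFinset_card S hfin]
    have e1 : ({1, -1} : Finset SignType).card = 2 := by decide
    have e2 : ((L : ℤ) + 1 - -(L : ℤ)).toNat = 2 * L + 1 := by omega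
    rw [e1, e2]
    ring
  -- different cosets, different cells
  have hcos : ∀ κ κ' i i', c κ i = c κ' i' → κ = κ' := by
    intro κ κ' i i' h
    have hJ : J κ i = J κ' i' := congrArg Prod.fst h
    have hcl : ∀ κ i, ∃ x : ClassGroup (𝓞 K), ∀ hne : J κ i ∈ (Ideal (𝓞 K))⁰,
        κ.out * x ^ p * ClassGroup.mk0 ⟨J κ i, hne⟩ = 1 := by
      intro κ i
      have hqi : q i ∈ (Ideal (𝓞 K))⁰ := by
        rw [mem_nonZeroDivisors_iff_ne_zero]
        intro h0
        have := hq i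
        rw [h0] at this
        simp at this
      refine ⟨ClassGroup.mk0 ⟨q i, hqi⟩, fun hne => ?_⟩
      rw [← hrep κ, ← map_pow, ← map_mul, ← map_mul]
      have hsp : Ideal.span {β κ i} ∈ (Ideal (𝓞 K))⁰ := by
        rw [mem_nonZeroDivisors_iff_ne_zero]
        intro h0
        rw [Ideal.zero_eq_bot] at h0
        exact h1 κ i (Ideal.span_singleton_eq_bot.1 h0)
      have e1 : (rep κ * ⟨q i, hqi⟩ ^ p * ⟨J κ i, hne⟩ : (Ideal (𝓞 K))⁰) =
          ⟨Ideal.span {β κ i}, hsp⟩ := by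
        apply Subtype.ext
        exact (h2 κ i).symm
      rw [e1, ClassGroup.mk0_eq_one_iff]
      exact ⟨β κ i, rfl⟩
    obtain ⟨x, hx⟩ := hcl κ i
    obtain ⟨x', hx'⟩ := hcl κ' i'
    have hne : J κ i ∈ (Ideal (𝓞 K))⁰ := by
      rw [mem_nonZeroDivisors_iff_ne_zero]
      intro h0
      have := h3 κ i
      rw [h0] at this
      simp at this
    have hne' : J κ' i' ∈ (Ideal (𝓞 K))⁰ := hJ ▸ hne
    have e1 := hx hne
    have e2 := hx' hne'
    have e3 : (⟨J κ i, hne⟩ : (Ideal (𝓞 K))⁰) = ⟨J κ' i', hne'⟩ := Subtype.ext hJ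
    rw [← e3] at e2
    have e4 : κ.out * x ^ p = κ'.out * x' ^ p := mul_right_cancel (e1.trans e2.symm)
    have e5 : (κ.out : ClassGroup (𝓞 K) ⧸ H) = (κ'.out : ClassGroup (𝓞 K) ⧸ H) := by
      rw [QuotientGroup.eq]
      refine MonoidHom.mem_range.2 ⟨x * x'⁻¹, ?_⟩
      show (x * x'⁻¹) ^ p = _
      rw [mul_pow, inv_pow]
      rw [eq_comm, inv_mul_eq_iff_eq_mul, ← mul_assoc, eq_mul_inv_iff_mul_eq]
      exact e4.symm
    rwa [QuotientGroup.out_eq', QuotientGroup.out_eq'] at e5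
  -- collisions
  have hcoll : ∀ κ i j, c κ i = c κ j → R.Coll p (q i) (q j) := by
    intro κ i j h
    have hJ : J κ i = J κ j := congrArg Prod.fst h
    have hs1 : SignType.sign (R.σ₁ (β κ i)) = SignType.sign (R.σ₁ (β κ j)) :=
      congrArg (fun z => z.2.1) h
    have hs2 : SignType.sign (R.σ₂ (β κ i)) = SignType.sign (R.σ₂ (β κ j)) :=
      congrArg (fun z => z.2.2.1) h
    have hl : Int.log 2 (|R.σ₁ (β κ i)| / |R.σ₂ (β κ i)|) =
      Int.log 2 (|R.σ₁ (β κ j)| / |R.σ₂ (β κ j)|) := congrArg (fun z => z.2.2.2) h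
    have hmul : ∀ x y : ℝ, x ≠ 0 → y ≠ 0 → SignType.sign x = SignType.sign y → 0 < x * y := by
      intro x y hx hy hxy
      rcases lt_or_gt_of_ne hx with h | h
      · rw [sign_neg h, eq_comm, sign_eq_neg_one_iff] at hxy
        exact mul_pos_of_neg_of_neg h hxy
      · rw [sign_pos h, eq_comm, sign_eq_one_iff] at hxy
        exact mul_pos h hxy
    have p1 : 0 < |R.σ₁ (β κ i)| := abs_pos.2 (h5 κ i)
    have p2 : 0 < |R.σ₂ (β κ i)| := abs_pos.2 (h6 κ i)
    have p3 : 0 < |R.σ₁ (β κ j)| := abs_pos.2 (h5 κ j)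
    have p4 : 0 < |R.σ₂ (β κ j)| := abs_pos.2 (h6 κ j)
    refine ⟨β κ i, β κ j, h1 κ i, h1 κ j, ?_, hmul _ _ (h5 κ i) (h5 κ j) hs1,
      hmul _ _ (h6 κ i) (h6 κ j) hs2, ?_, ?_⟩
    · rw [h2 κ i, h2 κ j, hJ]
      ring
    · have := log_ratio (div_pos p3 p4) hl
      rw [← mul_div_assoc, div_le_div_iff₀ p2 p4] at this
      linarith
    · have := log_ratio (div_pos p1 p2) hl.symm
      rw [← mul_div_assoc, div_le_div_iff₀ p4 p2] at this
      linarith
  -- Cauchy-Schwarz for each coset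
  have hCS : ∀ κ, (Fintype.card ι) ^ 2 ≤ (Finset.univ.image (c κ)).card *
      Nat.card {ij : ι × ι // R.Coll p (q ij.1) (q ij.2)} := by
    intro κ
    refine (sq_card_le (c κ)).trans (Nat.mul_le_mul_left _ ?_)
    rw [Nat.card_eq_fintype_card, Fintype.card_subtype]
    refine Finset.card_le_card fun ij hij => ?_
    rw [Finset.mem_filter] at hij ⊢
    exact ⟨Finset.mem_univ _, hcoll κ _ _ hij.2⟩
  have hsum : ∑ κ : ClassGroup (𝓞 K) ⧸ H, (Finset.univ.image (c κ)).card ≤ Cells.card := by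
    rw [← Finset.card_biUnion]
    · refine Finset.card_le_card fun x hx => ?_
      rw [Finset.mem_biUnion] at hx
      obtain ⟨κ, _, hx⟩ := hx
      rw [Finset.mem_image] at hx
      obtain ⟨i, _, rfl⟩ := hx
      exact hcell κ i
    · intro κ _ κ' _ hne
      rw [Function.onFun, Finset.disjoint_left]
      intro x hx hx'
      rw [Finset.mem_image] at hx hx'
      obtain ⟨i, _, rfl⟩ := hx
      obtain ⟨i', _, h⟩ := hx'
      exact hne (hcos κ κ' i i' h.symm)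
  calc Fintype.card (ClassGroup (𝓞 K) ⧸ H) * (Fintype.card ι) ^ 2
      = ∑ _κ : ClassGroup (𝓞 K) ⧸ H, (Fintype.card ι) ^ 2 := by
        rw [Finset.sum_const, Finset.card_univ, smul_eq_mul]
    _ ≤ ∑ κ : ClassGroup (𝓞 K) ⧸ H, (Finset.univ.image (c κ)).card *
          Nat.card {ij : ι × ι // R.Coll p (q ij.1) (q ij.2)} := Finset.sum_le_sum fun κ _ => hCS κ
    _ = (∑ κ : ClassGroup (𝓞 K) ⧸ H, (Finset.univ.image (c κ)).card) *
          Nat.card {ij : ι × ι // R.Coll p (q ij.1) (q ij.2)} := by rw [Finset.sum_mul]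
    _ ≤ Cells.card * Nat.card {ij : ι × ι // R.Coll p (q ij.1) (q ij.2)} :=
        Nat.mul_le_mul_right _ hsum
    _ = _ := by rw [hcardCells]

end Pool.Agent.helper47.RA
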