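import Pool.Agent.helper47.RA.Cells

set_option autoImplicit false

/-!
# Collisions give solutions of a Pell type equation
-/

namespace Pool.Agent.helper47.RA

open NumberField

variable {K : Type} [Field K] [NumberField K]

namespace RQ

variable (R : RQ K)

/-- the square root of the discriminant -/
def δ : 𝓞 K := 2 * R.ω - R.t

lemma ht2 : R.t ^ 2 = R.t := by rcases R.ht with h | h <;> rw [h] <;> norm_num

lemma δ_sq : R.δ * R.δ = (R.D : 𝓞 K) := by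
  have h1 := R.hω
  have h2 : ((R.t ^ 2 : ℤ) : 𝓞 K) = (R.t : 𝓞 K) := by rw [R.ht2]
  have h3 : (R.D : 𝓞 K) = (R.t : 𝓞 K) + 4 * R.k := by
    have := congrArg (fun z : ℤ => (z : 𝓞 K)) R.hk
    push_cast at this
    exact this
  rw [h3, δ]
  push_cast at h2
  linear_combination 4 * h1 + h2

/-- the ideal above `q` -/
def qI (q : ℕ) (r : ℤ) : Ideal (𝓞 K) := Ideal.span {(q : 𝓞 K), (r : 𝓞 K) - R.δ}

/-- the conjugate ideal -/
def qI' (q : ℕ) (r : ℤ) : Ideal (𝓞 K) := Ideal.span {(q : 𝓞 K), (r : 𝓞 K) + R.δ}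

variable {R}

lemma cop_aux {q : ℕ} (hq : q.Prime) (hq2 : q ≠ 2) {r : ℤ} (hr : (q : ℤ) ∣ r ^ 2 - R.D)
    (hqD : ¬ (q : ℤ) ∣ R.D) : IsCoprime (q : ℤ) (2 * r) := by
  have hp : Prime (q : ℤ) := Nat.prime_iff_prime_int.1 hq
  rw [Prime.coprime_iff_not_dvd hp]
  intro h
  rcases hp.dvd_or_dvd h with h1 | h1
  · have h2 : q ∣ 2 := by exact_mod_cast h1
    exact hq2 ((Nat.prime_dvd_prime_iff_eq hq Nat.prime_two).1 h2)
  · apply hqD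
    have h2 : (q : ℤ) ∣ r ^ 2 := dvd_pow h1 (by norm_num)
    have h3 := dvd_sub h2 hr
    have h4 : r ^ 2 - (r ^ 2 - R.D) = R.D := by ring
    rwa [h4] at h3

lemma mul_qI {q : ℕ} (hq : q.Prime) (hq2 : q ≠ 2) {r : ℤ} (hr : (q : ℤ) ∣ r ^ 2 - R.D)
    (hqD : ¬ (q : ℤ) ∣ R.D) : R.qI q r * R.qI' q r = Ideal.span {(q : 𝓞 K)} := by
  obtain ⟨u, v, huv⟩ := cop_aux hq hq2 hr hqD
  obtain ⟨m, hm⟩ := hr
  have hm' : (r : 𝓞 K) ^ 2 - R.D = q * m := by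
    have := congrArg (fun z : ℤ => (z : 𝓞 K)) hm
    push_cast at this
    exact this
  have huv' : (u : 𝓞 K) * q + v * (2 * r) = 1 := by
    have := congrArg (fun z : ℤ => (z : 𝓞 K)) huv
    push_cast at this
    exact this
  have hδ := R.δ_sq
  apply le_antisymm
  · rw [qI, qI', Ideal.span_mul_span', Ideal.span_le]
    rintro z hz
    rw [Set.mem_mul] at hz
    obtain ⟨a, ha, b, hb, rfl⟩ := hz
    rw [SetLike.mem_coe, Ideal.mem_span_singleton]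
    rcases ha with rfl | rfl
    · exact dvd_mul_right _ _
    · rcases hb with rfl | rfl
      · exact dvd_mul_left _ _
      · refine ⟨m, ?_⟩
        linear_combination hm' - hδ
  · rw [Ideal.span_singleton_le_iff_mem]
    have e1 : (q : 𝓞 K) ∈ R.qI q r := Ideal.subset_span (by simp)
    have e2 : (q : 𝓞 K) ∈ R.qI' q r := Ideal.subset_span (by simp)
    have e3 : (r : 𝓞 K) - R.δ ∈ R.qI q r := Ideal.subset_span (by simp)
    have e4 : (r : 𝓞 K) + R.δ ∈ R.qI' q r := Ideal.subset_span (by simp)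
    have e5 : (q : 𝓞 K) = u * (q * q) + v * (q * (r + R.δ) + (r - R.δ) * q) := by
      linear_combination -(q : 𝓞 K) * huv'
    have e6 : (u : 𝓞 K) * (q * q) + v * (q * (r + R.δ) + (r - R.δ) * q) ∈
        R.qI q r * R.qI' q r :=
      Ideal.add_mem _ (Ideal.mul_mem_left _ _ (Ideal.mul_mem_mul e1 e2))
        (Ideal.mul_mem_left _ _ (Ideal.add_mem _ (Ideal.mul_mem_mul e1 e4)
          (Ideal.mul_mem_mul e3 e2)))
    rwa [← e5] at e6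

lemma coprime_qI {q : ℕ} (hq : q.Prime) (hq2 : q ≠ 2) {r : ℤ} (hr : (q : ℤ) ∣ r ^ 2 - R.D)
    (hqD : ¬ (q : ℤ) ∣ R.D) : IsCoprime (R.qI q r) (R.qI' q r) := by
  obtain ⟨u, v, huv⟩ := cop_aux hq hq2 hr hqD
  have huv' : (u : 𝓞 K) * q + v * (2 * r) = 1 := by
    have := congrArg (fun z : ℤ => (z : 𝓞 K)) huv
    push_cast at this
    exact this
  rw [Ideal.isCoprime_iff_exists]
  have e1 : (q : 𝓞 K) ∈ R.qI q r := Ideal.subset_span (by simp)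
  have e3 : (r : 𝓞 K) - R.δ ∈ R.qI q r := Ideal.subset_span (by simp)
  have e4 : (r : 𝓞 K) + R.δ ∈ R.qI' q r := Ideal.subset_span (by simp)
  refine ⟨u * q + v * (r - R.δ), Ideal.add_mem _ (Ideal.mul_mem_left _ _ e1)
    (Ideal.mul_mem_left _ _ e3), v * (r + R.δ), Ideal.mul_mem_left _ _ e4, ?_⟩
  linear_combination huv'

/-- divisibility by an integer in terms of coordinates -/
lemma dvd_coords {n x y : ℤ} (h : (n : 𝓞 K) ∣ (x : 𝓞 K) + y * R.ω) : n ∣ x ∧ n ∣ y := by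
  obtain ⟨w, hw⟩ := h
  obtain ⟨a, b, rfl⟩ := R.hspan w
  have h1 : (((x - n * a : ℤ)) : 𝓞 K) + ((y - n * b : ℤ) : 𝓞 K) * R.ω = 0 := by
    push_cast
    linear_combination hw
  have h2 := lin_indep R.hD R.ht R.hk R.hω h1
  exact ⟨⟨a, by linarith [h2.1]⟩, ⟨b, by linarith [h2.2]⟩⟩

lemma qI_ne_top {q : ℕ} (hq : q.Prime) (hq2 : q ≠ 2) {r : ℤ} (hr : (q : ℤ) ∣ r ^ 2 - R.D)
    (hqD : ¬ (q : ℤ) ∣ R.D) : R.qI q r ≠ ⊤ := by
  intro h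
  have h1 := mul_qI hq hq2 hr hqD
  rw [h, Ideal.top_mul] at h1
  have e4 : (r : 𝓞 K) + R.δ ∈ R.qI' q r := Ideal.subset_span (by simp)
  rw [h1, Ideal.mem_span_singleton] at e4
  have e5 : (((q : ℤ)) : 𝓞 K) ∣ ((r - R.t : ℤ) : 𝓞 K) + ((2 : ℤ) : 𝓞 K) * R.ω := by
    have : ((r - R.t : ℤ) : 𝓞 K) + ((2 : ℤ) : 𝓞 K) * R.ω = r + R.δ := by
      rw [δ]; push_cast; ring
    rw [this]
    exact_mod_cast e4
  have e6 : q ∣ 2 := by exact_mod_cast (dvd_coords e5).2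
  exact hq2 ((Nat.prime_dvd_prime_iff_eq hq Nat.prime_two).1 e6)

lemma qI'_ne_top {q : ℕ} (hq : q.Prime) (hq2 : q ≠ 2) {r : ℤ} (hr : (q : ℤ) ∣ r ^ 2 - R.D)
    (hqD : ¬ (q : ℤ) ∣ R.D) : R.qI' q r ≠ ⊤ := by
  intro h
  have h1 := mul_qI hq hq2 hr hqD
  rw [h, Ideal.mul_top] at h1
  have e4 : (r : 𝓞 K) - R.δ ∈ R.qI q r := Ideal.subset_span (by simp)
  rw [h1, Ideal.mem_span_singleton] at e4
  have e5 : (((q : ℤ)) : 𝓞 K) ∣ ((r + R.t : ℤ) : 𝓞 K) + ((-2 : ℤ) : 𝓞 K) * R.ω := by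
    have : ((r + R.t : ℤ) : 𝓞 K) + ((-2 : ℤ) : 𝓞 K) * R.ω = r - R.δ := by
      rw [δ]; push_cast; ring
    rw [this]
    exact_mod_cast e4
  have e6 : q ∣ 2 := by
    have := (dvd_coords e5).2
    rw [dvd_neg] at this
    exact_mod_cast this
  exact hq2 ((Nat.prime_dvd_prime_iff_eq hq Nat.prime_two).1 e6)

lemma absNorm_qI {q : ℕ} (hq : q.Prime) (hq2 : q ≠ 2) {r : ℤ} (hr : (q : ℤ) ∣ r ^ 2 - R.D)
    (hqD : ¬ (q : ℤ) ∣ R.D) :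
    Ideal.absNorm (R.qI q r) = q ∧ Ideal.absNorm (R.qI' q r) = q := by
  have h1 := congrArg Ideal.absNorm (mul_qI hq hq2 hr hqD)
  rw [map_mul] at h1
  have h2 : Ideal.absNorm (Ideal.span {(q : 𝓞 K)}) = q ^ 2 := by
    have := R.absNorm_span (q : 𝓞 K)
    simp only [map_natCast, Nat.abs_cast] at this
    rw [← sq] at this
    exact_mod_cast this
  rw [h2] at h1
  refine (Nat.Prime.mul_eq_prime_sq_iff hq ?_ ?_).1 h1
  · rw [Ne, Ideal.absNorm_eq_one_iff]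
    exact qI_ne_top hq hq2 hr hqD
  · rw [Ne, Ideal.absNorm_eq_one_iff]
    exact qI'_ne_top hq hq2 hr hqD

/-- an odd prime power argument -/
lemma not_sq_of_odd {q₁ q₂ p : ℕ} (h1 : q₁.Prime) (h2 : q₂.Prime) (hne : q₁ ≠ q₂) (hp : Odd p)
    (x : ℕ) : x ^ 2 ≠ (q₁ * q₂) ^ p := by
  intro h
  have e1 := congrArg (fun n : ℕ => n.factorization q₁) h
  simp only [Nat.factorization_pow, Nat.factorization_mul h1.ne_zero h2.ne_zero,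
    Finsupp.smul_apply, Finsupp.add_apply, h1.factorization_self, smul_eq_mul] at e1
  rw [Nat.factorization_eq_zero_of_not_dvd
    (fun h3 => hne ((Nat.prime_dvd_prime_iff_eq h1 h2).1 h3))] at e1
  obtain ⟨j, hj⟩ := hp
  omega

variable (R) in
/-- collisions give solutions of `x² = D y² + 4 (q₁ q₂)^p` -/
theorem coll_eq {q₁ q₂ : ℕ} (hq₁ : q₁.Prime) (hq₁2 : q₁ ≠ 2) {r₁ : ℤ}
    (hr₁ : (q₁ : ℤ) ∣ r₁ ^ 2 - R.D) (hqD₁ : ¬ (q₁ : ℤ) ∣ R.D)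
    (hq₂ : q₂.Prime) (hq₂2 : q₂ ≠ 2) {r₂ : ℤ}
    (hr₂ : (q₂ : ℤ) ∣ r₂ ^ 2 - R.D) (hqD₂ : ¬ (q₂ : ℤ) ∣ R.D) (hne : q₁ ≠ q₂)
    {p : ℕ} (hp : Odd p) (h : R.Coll p (R.qI q₁ r₁) (R.qI q₂ r₂)) :
    ∃ (x : ℤ) (y : ℕ), 0 < x ∧ 0 < y ∧ x ^ 2 = R.D * y ^ 2 + 4 * (((q₁ * q₂) ^ p : ℕ) : ℤ) ∧
      R.D * y ^ 2 ≤ (((q₁ * q₂) ^ p : ℕ) : ℤ) ∧
      ∀ h : ℕ, h ^ 2 ∣ y ^ 2 → (h : ℤ) ∣ 2 * x → h ≤ 4 := by
  obtain ⟨β₁, β₂, hβ₁, hβ₂, hmul, hs1, hs2, hr1, hr2⟩ := h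
  set A : ℕ := (q₁ * q₂) ^ p with hA
  have hspan2 : Ideal.span {β₂} ≠ ⊥ := by
    rw [Ne, Ideal.span_singleton_eq_bot]; exact hβ₂
  -- the element
  have hmul2 : Ideal.span {β₁ * (q₂ : 𝓞 K) ^ p} =
      Ideal.span {β₂} * (R.qI q₁ r₁ ^ p * R.qI' q₂ r₂ ^ p) := by
    calc Ideal.span {β₁ * (q₂ : 𝓞 K) ^ p}
        = Ideal.span {β₁} * Ideal.span {(q₂ : 𝓞 K)} ^ p := by
          rw [Ideal.span_singleton_pow, Ideal.span_singleton_mul_span_singleton]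
      _ = Ideal.span {β₁} * (R.qI q₂ r₂ * R.qI' q₂ r₂) ^ p := by
          rw [mul_qI hq₂ hq₂2 hr₂ hqD₂]
      _ = (Ideal.span {β₁} * R.qI q₂ r₂ ^ p) * R.qI' q₂ r₂ ^ p := by rw [mul_pow, mul_assoc]
      _ = _ := by rw [hmul, mul_assoc]
  have hdv : β₂ ∣ β₁ * (q₂ : 𝓞 K) ^ p := by
    have h1 : Ideal.span {β₂} ∣ Ideal.span {β₁ * (q₂ : 𝓞 K) ^ p} := Dvd.intro _ hmul2.symm
    rw [Ideal.dvd_span_singleton, Ideal.mem_span_singleton] at h1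
    exact h1
  obtain ⟨α, hα⟩ := hdv
  have hαI : Ideal.span {α} = R.qI q₁ r₁ ^ p * R.qI' q₂ r₂ ^ p := by
    rw [hα, ← Ideal.span_singleton_mul_span_singleton] at hmul2
    exact mul_left_cancel₀ hspan2 hmul2
  have hnα : |R.σ₁ α| * |R.σ₂ α| = (A : ℝ) := by
    rw [← R.absNorm_span, hαI, map_mul, map_pow, map_pow, (absNorm_qI hq₁ hq₁2 hr₁ hqD₁).1,
      (absNorm_qI hq₂ hq₂2 hr₂ hqD₂).2, ← mul_pow]
  have hq2R : (0 : ℝ) < (q₂ : ℝ) ^ p := by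
    have : (0 : ℝ) < q₂ := by exact_mod_cast hq₂.pos
    positivity
  -- signs
  have e1 : R.σ₁ β₁ * (q₂ : ℝ) ^ p = R.σ₁ β₂ * R.σ₁ α := by
    have := congrArg (fun z : 𝓞 K => R.σ₁ z) hα
    simpa using this
  have e2 : R.σ₂ β₁ * (q₂ : ℝ) ^ p = R.σ₂ β₂ * R.σ₂ α := by
    have := congrArg (fun z : 𝓞 K => R.σ₂ z) hα
    simpa using this
  have s1 : 0 < R.σ₁ α := by
    have h1 : 0 < R.σ₁ β₂ ^ 2 * R.σ₁ α := by
      have : R.σ₁ β₂ ^ 2 * R.σ₁ α = R.σ₁ β₁ * R.σ₁ β₂ * (q₂ : ℝ) ^ p := by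
        linear_combination (-R.σ₁ β₂) * e1
      rw [this]
      positivity
    rw [← mul_zero] at h1
    exact lt_of_mul_lt_mul_left h1 (sq_nonneg _)
  have s2 : 0 < R.σ₂ α := by
    have h1 : 0 < R.σ₂ β₂ ^ 2 * R.σ₂ α := by
      have : R.σ₂ β₂ ^ 2 * R.σ₂ α = R.σ₂ β₁ * R.σ₂ β₂ * (q₂ : ℝ) ^ p := by
        linear_combination (-R.σ₂ β₂) * e2
      rw [this]
      positivity
    rw [← mul_zero] at h1
    exact lt_of_mul_lt_mul_left h1 (sq_nonneg _)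
  rw [abs_of_pos s1, abs_of_pos s2] at hnα
  -- ratio
  have n1 : R.σ₁ β₁ ≠ 0 := fun h0 => by rw [h0] at hs1; simp at hs1
  have n2 : R.σ₁ β₂ ≠ 0 := fun h0 => by rw [h0] at hs1; simp at hs1
  have n3 : R.σ₂ β₁ ≠ 0 := fun h0 => by rw [h0] at hs2; simp at hs2
  have n4 : R.σ₂ β₂ ≠ 0 := fun h0 => by rw [h0] at hs2; simp at hs2
  have a1 : |R.σ₁ β₁| * (q₂ : ℝ) ^ p = |R.σ₁ β₂| * R.σ₁ α := by
    have := congrArg abs e1
    rwa [abs_mul, abs_mul, abs_of_pos hq2R, abs_of_pos s1] at this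
  have a2 : |R.σ₂ β₁| * (q₂ : ℝ) ^ p = |R.σ₂ β₂| * R.σ₂ α := by
    have := congrArg abs e2
    rwa [abs_mul, abs_mul, abs_of_pos hq2R, abs_of_pos s2] at this
  have b2 : 0 < |R.σ₁ β₂| := abs_pos.2 n2
  have b4 : 0 < |R.σ₂ β₂| := abs_pos.2 n4
  have r1 : R.σ₁ α ≤ 2 * R.σ₂ α := by
    have h1 : (|R.σ₁ β₂| * |R.σ₂ β₂|) * R.σ₁ α ≤ (|R.σ₁ β₂| * |R.σ₂ β₂|) * (2 * R.σ₂ α) := by
      calc (|R.σ₁ β₂| * |R.σ₂ β₂|) * R.σ₁ α = (|R.σ₁ β₁| * |R.σ₂ β₂|) * (q₂ : ℝ) ^ p := by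
            linear_combination (-|R.σ₂ β₂|) * a1
        _ ≤ (2 * (|R.σ₁ β₂| * |R.σ₂ β₁|)) * (q₂ : ℝ) ^ p :=
            mul_le_mul_of_nonneg_right hr1 hq2R.le
        _ = _ := by linear_combination (2 * |R.σ₁ β₂|) * a2
    exact le_of_mul_le_mul_left h1 (mul_pos b2 b4)
  have r2 : R.σ₂ α ≤ 2 * R.σ₁ α := by
    have h1 : (|R.σ₁ β₂| * |R.σ₂ β₂|) * R.σ₂ α ≤ (|R.σ₁ β₂| * |R.σ₂ β₂|) * (2 * R.σ₁ α) := by
      calc (|R.σ₁ β₂| * |R.σ₂ β₂|) * R.σ₂ α = (|R.σ₁ β₂| * |R.σ₂ β₁|) * (q₂ : ℝ) ^ p := by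
            linear_combination (-|R.σ₁ β₂|) * a2
        _ ≤ (2 * (|R.σ₁ β₁| * |R.σ₂ β₂|)) * (q₂ : ℝ) ^ p :=
            mul_le_mul_of_nonneg_right hr2 hq2R.le
        _ = _ := by linear_combination (2 * |R.σ₂ β₂|) * a1
    exact le_of_mul_le_mul_left h1 (mul_pos b2 b4)
  -- coordinates
  obtain ⟨x', y', hxy⟩ := R.hspan α
  set s := √(R.D : ℝ) with hs
  have hs0 : 0 < s := R.sqrt_pos
  have hss : s ^ 2 = R.D := Real.sq_sqrt (by exact_mod_cast R.hpos.le)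
  have c1 : 2 * R.σ₁ α = ((2 * x' + R.t * y' : ℤ) : ℝ) + y' * s := by
    rw [hxy]
    simp only [map_add, map_mul, map_intCast]
    rw [R.h₁]
    push_cast
    ring
  have c2 : 2 * R.σ₂ α = ((2 * x' + R.t * y' : ℤ) : ℝ) - y' * s := by
    rw [hxy]
    simp only [map_add, map_mul, map_intCast]
    rw [R.h₂]
    push_cast
    ring
  set x : ℤ := 2 * x' + R.t * y' with hx
  have hxpos : (0 : ℝ) < x := by linarith
  have hxposZ : 0 < x := by exact_mod_cast hxpos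
  have heqR : (x : ℝ) ^ 2 = R.D * (y' : ℝ) ^ 2 + 4 * A := by
    rw [← hnα, ← hss]
    have h1 : 4 * (R.σ₁ α * R.σ₂ α) = (2 * R.σ₁ α) * (2 * R.σ₂ α) := by ring
    rw [h1, c1, c2]
    ring
  have heq : x ^ 2 = R.D * y' ^ 2 + 4 * (A : ℤ) := by exact_mod_cast heqR
  have hleR : (R.D : ℝ) * (y' : ℝ) ^ 2 ≤ A := by
    rw [← hnα, ← hss]
    have h1 : (y' : ℝ) * s = R.σ₁ α - R.σ₂ α := by linarith
    have h2 : s ^ 2 * (y' : ℝ) ^ 2 = (R.σ₁ α - R.σ₂ α) ^ 2 := by rw [← h1]; ring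
    rw [h2]
    nlinarith [mul_nonneg (sub_nonneg.2 r1) (sub_nonneg.2 r2)]
  have hle : R.D * y' ^ 2 ≤ (A : ℤ) := by exact_mod_cast hleR
  have hy0 : y' ≠ 0 := by
    intro h0
    rw [h0] at heq hx
    have h1 : x = 2 * x' := by rw [hx]; ring
    rw [h1] at heq
    have h2 : x'.natAbs ^ 2 = A := by
      have h3 : x' ^ 2 = (A : ℤ) := by linarith
      have h4 : ((x'.natAbs ^ 2 : ℕ) : ℤ) = (A : ℤ) := by
        push_cast; rw [sq_abs]; exact h3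
      exact_mod_cast h4
    exact not_sq_of_odd hq₁ hq₂ hne hp _ h2
  have hysq : ((y'.natAbs : ℕ) : ℤ) ^ 2 = y' ^ 2 := by rw [Int.natCast_natAbs, sq_abs]
  refine ⟨x, y'.natAbs, hxposZ, Int.natAbs_pos.2 hy0, by rw [hysq]; exact heq,
    by rw [hysq]; exact hle, ?_⟩
  -- common divisors
  have hoddA : Odd A := by
    rw [hA]
    exact Odd.pow ((hq₁.odd_of_ne_two hq₁2).mul (hq₂.odd_of_ne_two hq₂2))
  have hodd : ∀ ℓ : ℕ, ℓ.Prime → Odd ℓ → (ℓ : ℤ) ∣ x → (ℓ : ℤ) ∣ y' → False := by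
    intro ℓ hℓ hℓo hℓx hℓy
    have hp' : Prime (ℓ : ℤ) := Nat.prime_iff_prime_int.1 hℓ
    have hℓ2 : ¬ (ℓ : ℤ) ∣ 2 := by
      intro h1
      have h2 : ℓ ∣ 2 := by exact_mod_cast h1
      have := (Nat.prime_dvd_prime_iff_eq hℓ Nat.prime_two).1 h2
      rw [this] at hℓo
      exact absurd hℓo (by decide)
    have hℓx' : (ℓ : ℤ) ∣ x' := by
      have h1 : (ℓ : ℤ) ∣ 2 * x' := by
        have h2 := dvd_sub hℓx (hℓy.mul_left R.t)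
        have h3 : x - R.t * y' = 2 * x' := by rw [hx]; ring
        rwa [h3] at h2
      exact (hp'.dvd_or_dvd h1).resolve_left hℓ2
    have hℓα : Ideal.span {(ℓ : 𝓞 K)} ∣ Ideal.span {α} := by
      rw [Ideal.dvd_span_singleton, Ideal.mem_span_singleton, hxy]
      obtain ⟨a, ha⟩ := hℓx'
      obtain ⟨b, hb⟩ := hℓy
      refine ⟨a + b * R.ω, ?_⟩
      rw [ha, hb]
      push_cast
      ring
    rw [hαI] at hℓα
    have hℓA : ℓ ∣ (q₁ * q₂) ^ p := by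
      have h1 : (ℓ : ℤ) ∣ 4 * (A : ℤ) := by
        have h2 := dvd_sub (hℓx.pow (n := 2) (by norm_num)) ((hℓy.pow (n := 2) (by norm_num)).mul_left R.D)
        have h3 : x ^ 2 - R.D * y' ^ 2 = 4 * (A : ℤ) := by rw [heq]; ring
        rwa [h3] at h2
      rcases hp'.dvd_or_dvd h1 with h2 | h2
      · exfalso
        have h3 : (ℓ : ℤ) ∣ 2 * 2 := by norm_num; exact h2
        rcases hp'.dvd_or_dvd h3 with h4 | h4 <;> exact hℓ2 h4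
      · exact_mod_cast h2
    have hℓq : ℓ = q₁ ∨ ℓ = q₂ := by
      have h1 := hℓ.dvd_of_dvd_pow hℓA
      rcases (hℓ.dvd_mul).1 h1 with h2 | h2
      · left; exact (Nat.prime_dvd_prime_iff_eq hℓ hq₁).1 h2
      · right; exact (Nat.prime_dvd_prime_iff_eq hℓ hq₂).1 h2
    have hcop12 : ∀ I J : Ideal (𝓞 K), (q₁ : 𝓞 K) ∈ I → (q₂ : 𝓞 K) ∈ J → IsCoprime I J := by
      intro I J hI hJ
      have h1 : IsCoprime (q₁ : ℤ) (q₂ : ℤ) := by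
        rw [Nat.isCoprime_iff_coprime]
        exact (Nat.coprime_primes hq₁ hq₂).2 hne
      obtain ⟨u, v, huv⟩ := h1
      have huv' : (u : 𝓞 K) * q₁ + v * q₂ = 1 := by
        have := congrArg (fun z : ℤ => (z : 𝓞 K)) huv
        push_cast at this
        exact this
      rw [Ideal.isCoprime_iff_exists]
      exact ⟨_, Ideal.mul_mem_left _ (u : 𝓞 K) hI, _, Ideal.mul_mem_left _ (v : 𝓞 K) hJ, huv'⟩
    have m1 : (q₁ : 𝓞 K) ∈ R.qI q₁ r₁ := Ideal.subset_span (by simp)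
    have m1' : (q₁ : 𝓞 K) ∈ R.qI' q₁ r₁ := Ideal.subset_span (by simp)
    have m2 : (q₂ : 𝓞 K) ∈ R.qI q₂ r₂ := Ideal.subset_span (by simp)
    have m2' : (q₂ : 𝓞 K) ∈ R.qI' q₂ r₂ := Ideal.subset_span (by simp)
    rcases hℓq with rfl | rfl
    · have h1 : R.qI' ℓ r₁ ∣ R.qI ℓ r₁ ^ p * R.qI' q₂ r₂ ^ p := by
        refine dvd_trans ?_ hℓα
        rw [← mul_qI hq₁ hq₁2 hr₁ hqD₁]
        exact dvd_mul_left _ _
      have h2 : IsCoprime (R.qI' ℓ r₁) (R.qI ℓ r₁ ^ p * R.qI' q₂ r₂ ^ p) :=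
        (((coprime_qI hq₁ hq₁2 hr₁ hqD₁).symm).pow_right).mul_right
          ((hcop12 _ _ m1' m2').pow_right)
      have h3 := h2.isUnit_of_dvd' dvd_rfl h1
      rw [Ideal.isUnit_iff] at h3
      exact qI'_ne_top hq₁ hq₁2 hr₁ hqD₁ h3
    · have h1 : R.qI ℓ r₂ ∣ R.qI q₁ r₁ ^ p * R.qI' ℓ r₂ ^ p := by
        refine dvd_trans ?_ hℓα
        rw [← mul_qI hq₂ hq₂2 hr₂ hqD₂]
        exact dvd_mul_right _ _
      have h2 : IsCoprime (R.qI ℓ r₂) (R.qI q₁ r₁ ^ p * R.qI' ℓ r₂ ^ p) :=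
        ((hcop12 _ _ m1 m2).symm.pow_right).mul_right
          ((coprime_qI hq₂ hq₂2 hr₂ hqD₂).pow_right)
      have h3 := h2.isUnit_of_dvd' dvd_rfl h1
      rw [Ideal.isUnit_iff] at h3
      exact qI_ne_top hq₂ hq₂2 hr₂ hqD₂ h3
  have h4 : ¬ ((4 : ℤ) ∣ x ∧ (4 : ℤ) ∣ y') := by
    rintro ⟨⟨a, ha⟩, ⟨b, hb⟩⟩
    rw [ha, hb] at heq
    have h5 : (A : ℤ) = 4 * (a ^ 2 - R.D * b ^ 2) := by linarith
    obtain ⟨j, hj⟩ := hoddA
    omega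
  set g : ℕ := Int.gcd x y' with hg
  have hgx : (g : ℤ) ∣ x := Int.gcd_dvd_left _ _
  have hgy : (g : ℤ) ∣ y' := Int.gcd_dvd_right _ _
  have hg2 : g ∣ 2 := by
    rcases Nat.eq_two_pow_or_exists_odd_prime_and_dvd g with ⟨e, he⟩ | ⟨ℓ, hℓ, hℓg, hℓo⟩
    · have he1 : e ≤ 1 := by
        by_contra hcon
        push Not at hcon
        have h5 : 4 ∣ g := by
          rw [he]
          exact (show (4 : ℕ) = 2 ^ 2 by norm_num) ▸ pow_dvd_pow 2 hcon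
        have h6 : (4 : ℤ) ∣ (g : ℤ) := by exact_mod_cast h5
        exact h4 ⟨h6.trans hgx, h6.trans hgy⟩
      rw [he]
      calc 2 ^ e ∣ 2 ^ 1 := pow_dvd_pow 2 he1
        _ = 2 := pow_one 2
    · exfalso
      have h5 : (ℓ : ℤ) ∣ (g : ℤ) := by exact_mod_cast hℓg
      exact hodd ℓ hℓ hℓo (h5.trans hgx) (h5.trans hgy)
  intro h hh hhx
  have h5 : h ∣ y'.natAbs := (Nat.pow_dvd_pow_iff (by norm_num)).1 hh
  have h6 : (h : ℤ) ∣ y' := Int.natCast_dvd.2 h5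
  have h7 : h ∣ 2 * g := by
    have h8 : (h : ℤ) ∣ ((Int.gcd (2 * x) (2 * y') : ℕ) : ℤ) :=
      Int.dvd_coe_gcd hhx (h6.mul_left 2)
    rw [Int.gcd_mul_left] at h8
    exact_mod_cast h8
  have h8 : h ∣ 4 := h7.trans (by
    calc 2 * g ∣ 2 * 2 := mul_dvd_mul_left 2 hg2
      _ = 4 := by norm_num)
  exact Nat.le_of_dvd (by norm_num) h8

end RQ

end Pool.Agent.helper47.RA
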