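import Pool.Agent.helper47.RA.Num

set_option autoImplicit false

/-!
# Counting the discriminants with a solution of `x² = D y² + 4 A`
-/

namespace Pool.Agent.helper47.RA

open Finset

/-- the Pell type condition -/
def Sol (A : ℕ) (D : ℤ) : Prop :=
  ∃ (x : ℤ) (y : ℕ), 0 < x ∧ 0 < y ∧ x ^ 2 = D * y ^ 2 + 4 * (A : ℤ) ∧ D * y ^ 2 ≤ (A : ℤ) ∧
      ∀ h : ℕ, h ^ 2 ∣ y ^ 2 → (h : ℤ) ∣ 2 * x → h ≤ 4

theorem card_sol_le (ε : ℝ) (hε : 0 < ε) :
    ∃ C : ℝ, 1 ≤ C ∧ ∀ X A W : ℕ, 0 < X → 0 < W → W ^ 2 ≤ A → ∀ T : Finset ℤ,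
      (∀ D ∈ T, (X : ℤ) < D ∧ D ≤ 2 * X ∧ Sol A D) →
      (T.card : ℝ) ≤ C * (A : ℝ) ^ ε * √((A : ℝ) / X) * ((X : ℝ) / W + 9) := by
  classical
  obtain ⟨C, hC, hdiv⟩ := card_divisors_le ε hε
  refine ⟨C, hC, fun X A W hX hW hWA T hT => ?_⟩
  have hXR : (0 : ℝ) < X := by exact_mod_cast hX
  have hWR : (0 : ℝ) < W := by exact_mod_cast hW
  have hA0 : 0 < A := lt_of_lt_of_le (pow_pos hW 2) hWA
  have hA1 : (1 : ℝ) ≤ A := by exact_mod_cast hA0
  set Y : ℕ := ⌊√((A : ℝ) / X)⌋₊ with hY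
  let u : ℕ → ℤ := fun y => ((Nat.sqrt (4 * A + X * y ^ 2) : ℕ) : ℤ)
  let L : ℕ → ℕ := fun y => (X * y ^ 2) / (4 * W) + 2
  let F : ℕ → Finset ℤ := fun y => (Finset.Ioc (u y) (u y + L y)).filter
    (fun x => ((y ^ 2 : ℕ) : ℤ) ∣ x ^ 2 - 4 * A ∧ ∀ h : ℕ, h ^ 2 ∣ y ^ 2 → (h : ℤ) ∣ 2 * x → h ≤ 4)
  have hsub : T ⊆ ((Finset.Icc 1 Y).sigma F).image
      (fun s : (Σ _ : ℕ, ℤ) => (s.2 ^ 2 - 4 * A) / ((s.1 : ℤ) ^ 2)) := by
    intro D hD
    obtain ⟨hD1, hD2, x, y, hx, hy, heq, hle, hh⟩ := hT D hD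
    rw [Finset.mem_image]
    have hyZ : (0 : ℤ) < (y : ℤ) ^ 2 := by positivity
    refine ⟨⟨y, x⟩, ?_, ?_⟩
    · rw [Finset.mem_sigma, Finset.mem_Icc, Finset.mem_filter, Finset.mem_Ioc]
      have hXy : (X : ℤ) * y ^ 2 < D * y ^ 2 := mul_lt_mul_of_pos_right hD1 hyZ
      have hXy2 : D * y ^ 2 ≤ 2 * X * y ^ 2 := mul_le_mul_of_nonneg_right hD2 hyZ.le
      refine ⟨⟨hy, ?_⟩, ⟨?_, ?_⟩, ?_, hh⟩
      · show y ≤ Y
        rw [hY]
        refine Nat.le_floor ?_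
        refine Real.le_sqrt_of_sq_le ?_
        rw [le_div_iff₀ hXR]
        have h1 : (X : ℤ) * y ^ 2 ≤ A := by linarith
        have h2 : (X : ℝ) * (y : ℝ) ^ 2 ≤ A := by exact_mod_cast h1
        linarith
      · show ((Nat.sqrt (4 * A + X * y ^ 2) : ℕ) : ℤ) < x
        have h1 : ((Nat.sqrt (4 * A + X * y ^ 2) : ℕ) : ℤ) ^ 2 ≤ 4 * A + X * y ^ 2 := by
          exact_mod_cast Nat.sqrt_le' (4 * A + X * y ^ 2)
        have h2 : ((Nat.sqrt (4 * A + X * y ^ 2) : ℕ) : ℤ) ^ 2 < x ^ 2 := by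
          rw [heq]; linarith
        exact lt_of_pow_lt_pow_left₀ 2 hx.le h2
      · show x ≤ ((Nat.sqrt (4 * A + X * y ^ 2) : ℕ) : ℤ) + (((X * y ^ 2) / (4 * W) + 2 : ℕ) : ℤ)
        set v : ℕ := Nat.sqrt (4 * A + X * y ^ 2) with hv
        set m : ℕ := (X * y ^ 2) / (4 * W) + 1 with hm
        have h1 : 4 * A + X * y ^ 2 < (v + 1) ^ 2 := by
          have := Nat.lt_succ_sqrt' (4 * A + X * y ^ 2)
          exact this
        have h2 : 2 * W < v + 1 := by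
          have : (2 * W) ^ 2 < (v + 1) ^ 2 := by nlinarith [Nat.zero_le (X * y ^ 2)]
          exact lt_of_pow_lt_pow_left₀ 2 (by omega) this
        have h3 : X * y ^ 2 ≤ 4 * W * m := by
          rw [hm]
          have := Nat.lt_mul_div_succ (X * y ^ 2) (show 0 < 4 * W by omega)
          exact this.le
        have h3' : (X : ℤ) * y ^ 2 ≤ 4 * W * m := by exact_mod_cast h3
        have h2' : 2 * (W : ℤ) ≤ v + 1 := by exact_mod_cast h2.le
        have h1' : 4 * (A : ℤ) + X * y ^ 2 < (v + 1) ^ 2 := by exact_mod_cast h1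
        by_contra hcon
        push Not at hcon
        have h4 : (v : ℤ) + 1 + m < x := by
          have : (((X * y ^ 2) / (4 * W) + 2 : ℕ) : ℤ) = m + 1 := by rw [hm]; push_cast; ring
          rw [this] at hcon
          linarith
        have h5 : ((v : ℤ) + 1 + m) ^ 2 < x ^ 2 := by
          refine pow_lt_pow_left₀ h4 (by positivity) (by norm_num)
        have h6 : 2 * (W : ℤ) * m ≤ (v + 1) * m :=
          mul_le_mul_of_nonneg_right h2' (by positivity)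
        nlinarith [sq_nonneg (m : ℤ)]
      · refine ⟨D, ?_⟩
        push_cast
        linarith
    · show (x ^ 2 - 4 * A) / ((y : ℤ) ^ 2) = D
      rw [heq, add_sub_cancel_right]
      exact Int.mul_ediv_cancel _ hyZ.ne'
  have hcard : (T.card : ℝ) ≤ ∑ y ∈ Finset.Icc 1 Y, ((F y).card : ℝ) := by
    have h1 := (Finset.card_le_card hsub).trans Finset.card_image_le
    rw [Finset.card_sigma] at h1
    exact_mod_cast h1
  refine hcard.trans ?_
  have hYle : (Y : ℝ) ≤ √((A : ℝ) / X) := Nat.floor_le (Real.sqrt_nonneg _)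
  have key : ∀ y ∈ Finset.Icc 1 Y, ((F y).card : ℝ) ≤ C * (A : ℝ) ^ ε * ((X : ℝ) / W + 9) := by
    intro y hy
    rw [Finset.mem_Icc] at hy
    have hy0 : 0 < y := hy.1
    have hyR : (0 : ℝ) < y := by exact_mod_cast hy0
    have hy1 : (1 : ℝ) ≤ y := by exact_mod_cast hy0
    have h1 := card_roots_le (y ^ 2) (by positivity) 4 (4 * A) (u y) (L y) (F y)
      (fun z hz => Finset.mem_Ioc.1 (Finset.mem_filter.1 hz).1)
      (fun z hz => (Finset.mem_filter.1 hz).2.1)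
      (fun z hz => (Finset.mem_filter.1 hz).2.2)
    have h2 := hdiv (y ^ 2) (by positivity)
    have hyA : ((y ^ 2 : ℕ) : ℝ) ≤ A := by
      have h3 : (y : ℝ) ≤ √((A : ℝ) / X) := by
        have : (y : ℝ) ≤ Y := by exact_mod_cast hy.2
        linarith
      have h4 : (y : ℝ) ^ 2 ≤ (A : ℝ) / X := by
        have := pow_le_pow_left₀ hyR.le h3 2
        rwa [Real.sq_sqrt (by positivity)] at this
      push_cast
      refine h4.trans (div_le_self (by linarith) ?_)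
      exact_mod_cast hX
    have h3 : ((y ^ 2 : ℕ) : ℝ) ^ ε ≤ (A : ℝ) ^ ε :=
      Real.rpow_le_rpow (by positivity) hyA hε.le
    have h4 : ((L y : ℕ) : ℝ) * (4 : ℕ) / ((y ^ 2 : ℕ) : ℝ) + 1 ≤ (X : ℝ) / W + 9 := by
      have h5 : ((L y : ℕ) : ℝ) ≤ (X : ℝ) * y ^ 2 / (4 * W) + 2 := by
        show (((X * y ^ 2) / (4 * W) + 2 : ℕ) : ℝ) ≤ _
        push_cast
        have := Nat.cast_div_le (α := ℝ) (m := X * y ^ 2) (n := 4 * W)
        push_cast at this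
        linarith
      have h6 : ((L y : ℕ) : ℝ) * (4 : ℕ) / ((y ^ 2 : ℕ) : ℝ) ≤
          ((X : ℝ) * y ^ 2 / (4 * W) + 2) * 4 / (y : ℝ) ^ 2 := by
        push_cast
        refine div_le_div_of_nonneg_right ?_ (by positivity)
        exact mul_le_mul_of_nonneg_right h5 (by norm_num)
      have h7 : ((X : ℝ) * y ^ 2 / (4 * W) + 2) * 4 / (y : ℝ) ^ 2 = X / W + 8 / (y : ℝ) ^ 2 := by
        field_simp
        ring
      have h8 : 8 / (y : ℝ) ^ 2 ≤ 8 := div_le_self (by norm_num) (one_le_pow₀ hy1)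
      rw [h7] at h6
      linarith
    calc ((F y).card : ℝ) ≤ ((y ^ 2).divisors.card : ℕ) *
          (((L y : ℕ) : ℝ) * (4 : ℕ) / ((y ^ 2 : ℕ) : ℝ) + 1) := h1
      _ ≤ (C * (A : ℝ) ^ ε) * ((X : ℝ) / W + 9) := by
          refine mul_le_mul (h2.trans (mul_le_mul_of_nonneg_left h3 (by linarith))) h4
            (by positivity) (by positivity)
  calc ∑ y ∈ Finset.Icc 1 Y, ((F y).card : ℝ) ≤
      ∑ _y ∈ Finset.Icc 1 Y, C * (A : ℝ) ^ ε * ((X : ℝ) / W + 9) := Finset.sum_le_sum key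
    _ = (Y : ℝ) * (C * (A : ℝ) ^ ε * ((X : ℝ) / W + 9)) := by
        rw [Finset.sum_const, nsmul_eq_mul, Nat.card_Icc, Nat.add_sub_cancel]
    _ ≤ √((A : ℝ) / X) * (C * (A : ℝ) ^ ε * ((X : ℝ) / W + 9)) := by
        refine mul_le_mul_of_nonneg_right hYle (by positivity)
    _ = _ := by ring

end Pool.Agent.helper47.RA
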