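import Mathlib

set_option autoImplicit false

/-!
# Second moment of `∑ (D / q)` and the exceptional discriminants
-/

namespace Pool.Agent.helper47.RA

open Finset

/-- a complete sum over an interval of length `N` -/
lemma sum_complete (N : ℕ) [NeZero N] (G : ZMod N → ℤ) (a : ℤ) :
    ∑ d ∈ Finset.Ioc a (a + N), G (d : ZMod N) = ∑ z : ZMod N, G z := by
  classical
  have hinj : Set.InjOn (fun d : ℤ => (d : ZMod N)) (Finset.Ioc a (a + N) : Finset ℤ) := by
    intro d hd d' hd' h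
    rw [Finset.mem_coe, Finset.mem_Ioc] at hd hd'
    have h1 : (N : ℤ) ∣ d' - d := (ZMod.intCast_eq_intCast_iff_dvd_sub d d' N).1 h
    obtain ⟨c, hc⟩ := h1
    have hN : (0 : ℤ) < N := by exact_mod_cast Nat.pos_of_ne_zero (NeZero.ne N)
    have hc0 : c = 0 := by
      by_contra hc0
      rcases lt_or_gt_of_ne hc0 with h2 | h2
      · have : (N : ℤ) * c ≤ -N := by nlinarith
        omega
      · have : (N : ℤ) ≤ N * c := by nlinarith
        omega
    rw [hc0, mul_zero] at hc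
    omega
  have himg : (Finset.Ioc a (a + N)).image (fun d : ℤ => (d : ZMod N)) = Finset.univ := by
    apply Finset.eq_univ_of_card
    rw [Finset.card_image_of_injOn hinj, ZMod.card, Int.card_Ioc]
    omega
  rw [← himg, Finset.sum_image hinj]

/-- incomplete sums -/
lemma abs_sum_le (N : ℕ) [NeZero N] (G : ZMod N → ℤ) (hG : ∑ z : ZMod N, G z = 0)
    (hb : ∀ z, |G z| ≤ 1) (L : ℕ) (a : ℤ) :
    |∑ d ∈ Finset.Ioc a (a + L), G (d : ZMod N)| ≤ N := by
  have hN : 0 < N := Nat.pos_of_ne_zero (NeZero.ne N)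
  induction L using Nat.strong_induction_on generalizing a with
  | _ L ih =>
    rcases lt_or_ge L N with h | h
    · refine (Finset.abs_sum_le_sum_abs _ _).trans ?_
      refine (Finset.sum_le_sum fun d _ => hb _).trans ?_
      rw [Finset.sum_const, Int.card_Ioc, nsmul_eq_mul, mul_one]
      omega
    · have hsplit : Finset.Ioc a (a + L) = Finset.Ioc a (a + N) ∪ Finset.Ioc (a + N) (a + L) := by
        rw [Finset.Ioc_union_Ioc_eq_Ioc] <;> omega
      have hdisj : Disjoint (Finset.Ioc a (a + N)) (Finset.Ioc (a + (N : ℤ)) (a + L)) := by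
        rw [Finset.disjoint_left]
        intro x hx hx'
        rw [Finset.mem_Ioc] at hx hx'
        omega
      rw [hsplit, Finset.sum_union hdisj, sum_complete, hG, zero_add]
      have h1 : a + (L : ℤ) = (a + N) + ((L - N : ℕ) : ℤ) := by omega
      rw [h1]
      exact ih (L - N) (by omega) (a + N)

lemma abs_quadraticChar_le (q : ℕ) [Fact q.Prime] (z : ZMod q) :
    |quadraticChar (ZMod q) z| ≤ 1 := by
  by_cases h : z = 0
  · rw [h, MulChar.map_zero]; norm_num
  · rcases quadraticChar_dichotomy h with h1 | h1 <;> rw [h1] <;> norm_num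

/-- orthogonality -/
lemma abs_sum_jacobi_le {q q' : ℕ} (hq : q.Prime) (hq' : q'.Prime) (h2 : q ≠ 2)
    (hne : q ≠ q') (a : ℤ) (L : ℕ) :
    |∑ d ∈ Finset.Ioc a (a + L), jacobiSym d q * jacobiSym d q'| ≤ (q : ℤ) * q' := by
  classical
  have : Fact q.Prime := ⟨hq⟩
  have : Fact q'.Prime := ⟨hq'⟩
  have hcop : Nat.Coprime q q' := (Nat.coprime_primes hq hq').2 hne
  let e : ZMod (q * q') ≃+* ZMod q × ZMod q' := ZMod.chineseRemainder hcop
  let G : ZMod (q * q') → ℤ := fun z =>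
    quadraticChar (ZMod q) (e z).1 * quadraticChar (ZMod q') (e z).2
  have hG : ∑ z : ZMod (q * q'), G z = 0 := by
    have h1 : ∑ z : ZMod (q * q'), G z =
        ∑ w : ZMod q × ZMod q', quadraticChar (ZMod q) w.1 * quadraticChar (ZMod q') w.2 :=
      Equiv.sum_comp e.toEquiv (fun w : ZMod q × ZMod q' =>
        quadraticChar (ZMod q) w.1 * quadraticChar (ZMod q') w.2)
    rw [h1, Fintype.sum_prod_type]
    simp_rw [← Finset.mul_sum]
    rw [← Finset.sum_mul, quadraticChar_sum_zero (by rw [ZMod.ringChar_zmod_n]; exact h2),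
      zero_mul]
  have hb : ∀ z, |G z| ≤ 1 := by
    intro z
    show |_ * _| ≤ 1
    rw [abs_mul]
    have h1 := abs_quadraticChar_le q (e z).1
    have h2 := abs_quadraticChar_le q' (e z).2
    have h3 := abs_nonneg (quadraticChar (ZMod q) (e z).1)
    have h4 := abs_nonneg (quadraticChar (ZMod q') (e z).2)
    nlinarith
  have hval : ∀ d : ℤ, jacobiSym d q * jacobiSym d q' = G (d : ZMod (q * q')) := by
    intro d
    show _ = quadraticChar (ZMod q) (e (d : ZMod (q * q'))).1 *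
      quadraticChar (ZMod q') (e (d : ZMod (q * q'))).2
    rw [map_intCast]
    rw [← jacobiSym.legendreSym.to_jacobiSym, ← jacobiSym.legendreSym.to_jacobiSym]
    rfl
  have h1 := abs_sum_le (q * q') G hG hb L a
  simp_rw [hval]
  push_cast at h1
  exact h1

/-- the set of exceptional integers -/
noncomputable def Exc (P : Finset ℕ) (X : ℕ) : Finset ℤ :=
  (Finset.Ioc (X : ℤ) (2 * X)).filter
    (fun D => 4 * (P.filter (fun q : ℕ => jacobiSym D q = 1)).card ≤ P.card ∧
      4 * (P.filter (fun q : ℕ => (q : ℤ) ∣ D)).card ≤ P.card)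

lemma jacobi_zero_iff {q : ℕ} (hq : q.Prime) (D : ℤ) : jacobiSym D q = 0 ↔ (q : ℤ) ∣ D := by
  have : Fact q.Prime := ⟨hq⟩
  rw [← jacobiSym.legendreSym.to_jacobiSym, legendreSym.eq_zero_iff,
    ZMod.intCast_zmod_eq_zero_iff_dvd]

theorem card_exc_le (P : Finset ℕ) (X Z : ℕ) (hP : ∀ q ∈ P, q.Prime ∧ q ≠ 2 ∧ q ≤ 4 * Z) :
    (((Exc P X).card : ℕ) : ℤ) * (P.card : ℤ) ^ 2 ≤
      16 * ((P.card : ℤ) * X + (P.card : ℤ) ^ 2 * (4 * Z) ^ 2) := by
  classical
  let S : ℤ → ℤ := fun D => ∑ q ∈ P, jacobiSym D q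
  -- for exceptional integers the sum is large
  have h1 : ∀ D ∈ Exc P X, (P.card : ℤ) ^ 2 ≤ 16 * S D ^ 2 := by
    intro D hD
    rw [Exc, Finset.mem_filter] at hD
    obtain ⟨_, hs, hr⟩ := hD
    have h2 : S D = 2 * ((P.filter (fun q => jacobiSym D q = 1)).card : ℤ) +
        ((P.filter (fun q : ℕ => (q : ℤ) ∣ D)).card : ℤ) - P.card := by
      have e1 : ((P.filter (fun q => jacobiSym D q = 1)).card : ℤ) =
          ∑ q ∈ P, if jacobiSym D q = 1 then (1 : ℤ) else 0 := by
        rw [Finset.card_filter]; push_cast; rfl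
      have e2 : ((P.filter (fun q : ℕ => (q : ℤ) ∣ D)).card : ℤ) =
          ∑ q ∈ P, if (q : ℤ) ∣ D then (1 : ℤ) else 0 := by
        rw [Finset.card_filter]; push_cast; rfl
      have e3 : (P.card : ℤ) = ∑ _q ∈ P, (1 : ℤ) := by simp
      rw [e1, e2, e3, Finset.mul_sum, ← Finset.sum_add_distrib, ← Finset.sum_sub_distrib]
      refine Finset.sum_congr rfl fun q hq => ?_
      have hqp := (hP q hq).1
      have : Fact q.Prime := ⟨hqp⟩
      have h0 : jacobiSym D q = 0 ↔ (q : ℤ) ∣ D := jacobi_zero_iff hqp D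
      rcases jacobiSym.trichotomy D q with h | h | h
      · have h' := h0.1 h
        rw [h, if_neg (by norm_num), if_pos h']; norm_num
      · have h' : ¬ (q : ℤ) ∣ D := fun h3 => by rw [h0.2 h3] at h; norm_num at h
        rw [h, if_pos rfl, if_neg h']; norm_num
      · have h' : ¬ (q : ℤ) ∣ D := fun h3 => by rw [h0.2 h3] at h; norm_num at h
        rw [h, if_neg (by norm_num), if_neg h']; norm_num
    have h3 : 4 * S D ≤ -(P.card : ℤ) := by
      rw [h2]
      have hs' : 4 * ((P.filter (fun q => jacobiSym D q = 1)).card : ℤ) ≤ P.card := by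
        exact_mod_cast hs
      have hr' : 4 * ((P.filter (fun q : ℕ => (q : ℤ) ∣ D)).card : ℤ) ≤ P.card := by
        exact_mod_cast hr
      linarith
    have h4 : (0 : ℤ) ≤ P.card := by positivity
    nlinarith
  -- the second moment
  have h2 : ∑ D ∈ Finset.Ioc (X : ℤ) (2 * X), S D ^ 2 ≤
      (P.card : ℤ) * X + (P.card : ℤ) ^ 2 * (4 * Z) ^ 2 := by
    have e1 : ∀ D, S D ^ 2 = ∑ q ∈ P, ∑ q' ∈ P, jacobiSym D q * jacobiSym D q' := by
      intro D
      rw [sq, Finset.sum_mul_sum]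
    simp_rw [e1]
    rw [Finset.sum_comm]
    simp_rw [Finset.sum_comm (s := Finset.Ioc (X : ℤ) (2 * X)) (t := P)]
    have e2 : ∀ q ∈ P, ∀ q' ∈ P, ∑ D ∈ Finset.Ioc (X : ℤ) (2 * X), jacobiSym D q * jacobiSym D q' ≤
        (if q = q' then (X : ℤ) else 0) + (4 * Z) ^ 2 := by
      intro q hq q' hq'
      obtain ⟨p1, p2, p3⟩ := hP q hq
      obtain ⟨p1', p2', p3'⟩ := hP q' hq'
      split_ifs with h
      · have : ∑ D ∈ Finset.Ioc (X : ℤ) (2 * X), jacobiSym D q * jacobiSym D q' ≤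
            ∑ _D ∈ Finset.Ioc (X : ℤ) (2 * X), (1 : ℤ) := by
          refine Finset.sum_le_sum fun D _ => ?_
          rw [← h]
          rcases jacobiSym.trichotomy D q with h | h | h <;> rw [h] <;> norm_num
        refine this.trans ?_
        rw [Finset.sum_const, Int.card_Ioc, nsmul_eq_mul, mul_one]
        have : (((2 * X - X : ℤ)).toNat : ℤ) = X := by
          rw [Int.toNat_of_nonneg] <;> omega
        rw [this]
        nlinarith [sq_nonneg (4 * (Z : ℤ))]
      · have h3 := abs_sum_jacobi_le p1 p1' p2 h (X : ℤ) X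
        have h4 : (X : ℤ) + (X : ℕ) = 2 * X := by ring
        rw [h4] at h3
        refine (le_abs_self _).trans (h3.trans ?_)
        rw [zero_add, sq]
        have h5 : (q : ℤ) ≤ 4 * Z := by exact_mod_cast p3
        have h6 : (q' : ℤ) ≤ 4 * Z := by exact_mod_cast p3'
        exact mul_le_mul h5 h6 (by positivity) (by positivity)
    calc ∑ q ∈ P, ∑ q' ∈ P, ∑ D ∈ Finset.Ioc (X : ℤ) (2 * X), jacobiSym D q * jacobiSym D q'
        ≤ ∑ q ∈ P, ∑ q' ∈ P, ((if q = q' then (X : ℤ) else 0) + (4 * Z) ^ 2) :=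
          Finset.sum_le_sum fun q hq => Finset.sum_le_sum fun q' hq' => e2 q hq q' hq'
      _ = ∑ q ∈ P, ((X : ℤ) + P.card * (4 * Z) ^ 2) := by
          refine Finset.sum_congr rfl fun q hq => ?_
          rw [Finset.sum_add_distrib, Finset.sum_ite_eq, if_pos hq, Finset.sum_const,
            nsmul_eq_mul]
      _ = _ := by
          rw [Finset.sum_const, nsmul_eq_mul]
          ring
  calc (((Exc P X).card : ℕ) : ℤ) * (P.card : ℤ) ^ 2 = ∑ _D ∈ Exc P X, (P.card : ℤ) ^ 2 := by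
        rw [Finset.sum_const, nsmul_eq_mul]
    _ ≤ ∑ D ∈ Exc P X, 16 * S D ^ 2 := Finset.sum_le_sum h1
    _ ≤ ∑ D ∈ Finset.Ioc (X : ℤ) (2 * X), 16 * S D ^ 2 := by
        refine Finset.sum_le_sum_of_subset_of_nonneg (Finset.filter_subset _ _) ?_
        intro D _ _
        positivity
    _ = 16 * ∑ D ∈ Finset.Ioc (X : ℤ) (2 * X), S D ^ 2 := by rw [Finset.mul_sum]
    _ ≤ _ := by linarith

/-- a split prime gives a root -/
lemma exists_root {q : ℕ} (hq : q.Prime) {D : ℤ} (h : jacobiSym D q = 1) :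
    ¬ (q : ℤ) ∣ D ∧ ∃ r : ℤ, (q : ℤ) ∣ r ^ 2 - D := by
  have : Fact q.Prime := ⟨hq⟩
  have h1 : ¬ (q : ℤ) ∣ D := by
    intro h3
    have h0 : jacobiSym D q = 0 := (jacobi_zero_iff hq D).2 h3
    rw [h0] at h
    norm_num at h
  refine ⟨h1, ?_⟩
  have h2 := ZMod.isSquare_of_jacobiSym_eq_one h
  obtain ⟨z, hz⟩ := h2
  obtain ⟨r, rfl⟩ := ZMod.intCast_surjective z
  refine ⟨r, ?_⟩
  rw [← ZMod.intCast_zmod_eq_zero_iff_dvd _ q]
  push_cast
  rw [hz]
  ring

end Pool.Agent.helper47.RA
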