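import Pool.Agent.helper47.RA.Coll
import Pool.Agent.helper47.RA.Count
import Pool.Agent.helper47.RA.Exc

set_option autoImplicit false

/-!
# Bounds for one field
-/

namespace Pool.Agent.helper47.RA

open NumberField

/-- the class group inequality with an explicit power of the discriminant -/
theorem cell_bound (ε : ℝ) (hε : 0 < ε) :
    ∃ C : ℝ, 1 ≤ C ∧ ∀ (K : Type) [Field K] [NumberField K] (R : RQ K) (X : ℕ), 1 ≤ X →
      R.D ≤ 2 * X → ∀ (ι : Type) [Fintype ι] (q : ι → Ideal (𝓞 K)),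
      (∀ i, 0 < Ideal.absNorm (q i)) → ∀ p : ℕ,
      (Nat.card {x : ClassGroup (𝓞 K) // x ^ p = 1} : ℝ) * (Fintype.card ι : ℝ) ^ 2 ≤
        C * (X : ℝ) ^ (1 / 2 + ε) *
          (Nat.card {ij : ι × ι // R.Coll p (q ij.1) (q ij.2)} : ℝ) := by
  obtain ⟨C, hC, hid⟩ := card_ideals_le ε hε
  have hl2 : 0 < Real.log 2 := Real.log_pos (by norm_num)
  -- the constant for the number of dyadic cells
  set C' : ℝ := 4 * (3 + 2 / (ε * Real.log 2)) with hC'
  have hC'1 : 1 ≤ C' := by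
    have : 0 ≤ 2 / (ε * Real.log 2) := by positivity
    rw [hC']; linarith
  refine ⟨C' * C * 7 ^ (1 + ε + ε), ?_, ?_⟩
  · have h7 : (1 : ℝ) ≤ 7 ^ (1 + ε + ε) := Real.one_le_rpow (by norm_num) (by linarith)
    have : 1 ≤ C' * C := by nlinarith
    nlinarith
  intro K _ _ R X hX hRX ι _ q hq p
  have hXR : (1 : ℝ) ≤ X := by exact_mod_cast hX
  set B : ℕ := ⌈4 * √(R.D : ℝ)⌉₊ with hB
  have hB1 : 4 * √(R.D : ℝ) ≤ B := Nat.le_ceil _
  have hBpos : 1 ≤ B := by
    have : (0 : ℝ) < B := lt_of_lt_of_le (by have := R.sqrt_pos; linarith) hB1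
    exact_mod_cast this
  have hBR : (1 : ℝ) ≤ B := by exact_mod_cast hBpos
  have hB2 : (B : ℝ) ≤ 7 * (X : ℝ) ^ (1 / 2 : ℝ) := by
    have h1 : (B : ℝ) < 4 * √(R.D : ℝ) + 1 :=
      Nat.ceil_lt_add_one (by have := R.sqrt_pos; linarith)
    rw [← Real.sqrt_eq_rpow]
    have h2 : √(R.D : ℝ) ≤ √(2 * (X : ℝ)) := Real.sqrt_le_sqrt (by exact_mod_cast hRX)
    rw [Real.sqrt_mul (by norm_num)] at h2
    have h3 : √(2 : ℝ) ≤ 3 / 2 := by
      rw [Real.sqrt_le_left (by norm_num)]; norm_num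
    have h4 : (1 : ℝ) ≤ √(X : ℝ) := by rw [Real.one_le_sqrt]; exact hXR
    nlinarith
  set L : ℕ := Nat.clog 2 B with hL
  have hL1 : 4 * √(R.D : ℝ) ≤ 2 ^ L := by
    refine hB1.trans ?_
    exact_mod_cast Nat.le_pow_clog (by norm_num) B
  have hL2 : ((2 * L + 1 : ℕ) : ℝ) ≤ (3 + 2 / (ε * Real.log 2)) * (B : ℝ) ^ ε := by
    have h1 : (2 : ℝ) ^ L ≤ 2 * B := by
      rcases Nat.eq_zero_or_pos L with h0 | h0
      · rw [h0, pow_zero]; linarith
      · have h2 : 2 ^ (L - 1) < B := by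
          have h3 : 1 < B := by
            by_contra hcon
            have : B = 1 := by omega
            rw [hL, this, Nat.clog_one_right] at h0
            omega
          have := Nat.pow_pred_clog_lt_self (b := 2) (by norm_num) h3
          rwa [Nat.pred_eq_sub_one] at this
        have h3 : 2 ^ L ≤ 2 * B := by
          have : 2 ^ L = 2 * 2 ^ (L - 1) := by
            rw [← pow_succ']; congr 1; omega
          omega
        exact_mod_cast h3
    have h2 : (L : ℝ) * Real.log 2 ≤ Real.log 2 + Real.log B := by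
      have h3 := Real.log_le_log (by positivity) h1
      rw [Real.log_pow, Real.log_mul (by norm_num) (by positivity)] at h3
      exact h3
    have h3 : Real.log B ≤ (B : ℝ) ^ ε / ε := Real.log_le_rpow_div (by positivity) hε
    have h4 : (1 : ℝ) ≤ (B : ℝ) ^ ε := Real.one_le_rpow hBR hε.le
    have h5 : (L : ℝ) ≤ 1 + (B : ℝ) ^ ε / ε / Real.log 2 := by
      have : (L : ℝ) * Real.log 2 ≤ (1 + (B : ℝ) ^ ε / ε / Real.log 2) * Real.log 2 := by
        rw [add_mul, one_mul, div_mul_cancel₀ _ hl2.ne']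
        linarith
      exact le_of_mul_le_mul_right this hl2
    push_cast
    have h6 : (B : ℝ) ^ ε / ε / Real.log 2 = 1 / (ε * Real.log 2) * (B : ℝ) ^ ε := by
      field_simp
    rw [h6] at h5
    have h7 : (3 + 2 / (ε * Real.log 2)) * (B : ℝ) ^ ε =
        3 * (B : ℝ) ^ ε + 2 * (1 / (ε * Real.log 2) * (B : ℝ) ^ ε) := by ring
    rw [h7]
    linarith
  obtain ⟨hfin, hcard⟩ := hid K R.ω R.t R.k R.D R.hD R.ht R.hk R.hω R.hspan B hBpos
  have hmain := card_torsion_le R ι q hq p B L hB1 hL1 hfin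
  have hmain' : (Nat.card {x : ClassGroup (𝓞 K) // x ^ p = 1} : ℝ) * (Fintype.card ι : ℝ) ^ 2 ≤
      (4 * ((2 * L + 1 : ℕ) : ℝ) *
        ({I : Ideal (𝓞 K) | 0 < Ideal.absNorm I ∧ Ideal.absNorm I ≤ B}.ncard : ℝ)) *
      (Nat.card {ij : ι × ι // R.Coll p (q ij.1) (q ij.2)} : ℝ) := by
    exact_mod_cast hmain
  refine hmain'.trans (mul_le_mul_of_nonneg_right ?_ (Nat.cast_nonneg _))
  calc 4 * ((2 * L + 1 : ℕ) : ℝ) *
        ({I : Ideal (𝓞 K) | 0 < Ideal.absNorm I ∧ Ideal.absNorm I ≤ B}.ncard : ℝ)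
      ≤ 4 * ((3 + 2 / (ε * Real.log 2)) * (B : ℝ) ^ ε) * (C * (B : ℝ) ^ (1 + ε)) := by
        refine mul_le_mul (mul_le_mul_of_nonneg_left hL2 (by norm_num)) hcard
          (Nat.cast_nonneg _) (by positivity)
    _ = C' * C * (B : ℝ) ^ (1 + ε + ε) := by
        rw [Real.rpow_add (by positivity) (1 + ε) ε, hC']
        ring
    _ ≤ C' * C * (7 * (X : ℝ) ^ (1 / 2 : ℝ)) ^ (1 + ε + ε) := by
        refine mul_le_mul_of_nonneg_left ?_ (by positivity)
        exact Real.rpow_le_rpow (by positivity) hB2 (by linarith)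
    _ = C' * C * 7 ^ (1 + ε + ε) * (X : ℝ) ^ (1 / 2 + ε) := by
        rw [Real.mul_rpow (by norm_num) (by positivity), ← Real.rpow_mul (by positivity)]
        have : 1 / 2 * (1 + ε + ε) = 1 / 2 + ε := by ring
        rw [this]
        ring

/-- the number of off-diagonal collisions of the primes of `P` for the discriminant `D` -/
noncomputable def off (p : ℕ) (P : Finset ℕ) (D : ℤ) : ℕ :=
  Nat.card {ij : P × P // (ij.1 : ℕ) ≠ ij.2 ∧ Sol (((ij.1 : ℕ) * (ij.2 : ℕ)) ^ p) D}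

/-- collisions of the split primes -/
theorem card_coll_le {K : Type} [Field K] [NumberField K] (R : RQ K) (P : Finset ℕ)
    (hP : ∀ q ∈ P, q.Prime ∧ q ≠ 2) (p : ℕ) (hp : Odd p) :
    ∃ q : {q : P // jacobiSym R.D q = 1} → Ideal (𝓞 K), (∀ i, 0 < Ideal.absNorm (q i)) ∧
      Nat.card {ij : {q : P // jacobiSym R.D q = 1} × {q : P // jacobiSym R.D q = 1} //
        R.Coll p (q ij.1) (q ij.2)} ≤
      Nat.card {q : P // jacobiSym R.D q = 1} + off p P R.D := by
  classical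
  have hroot : ∀ q : {q : P // jacobiSym R.D q = 1}, ∃ r : ℤ, ((q : ℕ) : ℤ) ∣ r ^ 2 - R.D :=
    fun q => (exists_root (hP _ q.1.2).1 q.2).2
  choose r hr using hroot
  have hD : ∀ q : {q : P // jacobiSym R.D q = 1}, ¬ ((q : ℕ) : ℤ) ∣ R.D :=
    fun q => (exists_root (hP _ q.1.2).1 q.2).1
  refine ⟨fun q => R.qI (q : ℕ) (r q), fun q => ?_, ?_⟩
  · rw [(RQ.absNorm_qI (hP _ q.1.2).1 (hP _ q.1.2).2 (hr q) (hD q)).1]
    exact (hP _ q.1.2).1.pos
  · have h1 : Nat.card {ij : {q : P // jacobiSym R.D q = 1} × {q : P // jacobiSym R.D q = 1} //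
        R.Coll p (R.qI (ij.1 : ℕ) (r ij.1)) (R.qI (ij.2 : ℕ) (r ij.2))} ≤
        Nat.card ({q : P // jacobiSym R.D q = 1} ⊕
          {ij : P × P // (ij.1 : ℕ) ≠ ij.2 ∧ Sol (((ij.1 : ℕ) * (ij.2 : ℕ)) ^ p) R.D}) := by
      refine Nat.card_le_card_of_injective (fun ij =>
        if h : (ij.1.1 : ℕ) = (ij.1.2 : ℕ) then Sum.inl ij.1.1 else
          Sum.inr ⟨(ij.1.1.1, ij.1.2.1), h, ?_⟩) ?_
      · obtain ⟨⟨i, j⟩, hij⟩ := ij
        obtain ⟨x, y, h1, h2, h3, h4, h5⟩ := R.coll_eq (hP _ i.1.2).1 (hP _ i.1.2).2 (hr i) (hD i)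
          (hP _ j.1.2).1 (hP _ j.1.2).2 (hr j) (hD j) h hp hij
        exact ⟨x, y, h1, h2, h3, h4, h5⟩
      · rintro ⟨⟨i, j⟩, hij⟩ ⟨⟨i', j'⟩, hij'⟩ h
        simp only at h
        by_cases e1 : (i : ℕ) = (j : ℕ)
        · by_cases e2 : (i' : ℕ) = (j' : ℕ)
          · rw [dif_pos e1, dif_pos e2, Sum.inl.injEq] at h
            have hj : i = j := Subtype.ext (Subtype.ext e1)
            have hj' : i' = j' := Subtype.ext (Subtype.ext e2)
            subst hj hj' h
            rfl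
          · rw [dif_pos e1, dif_neg e2] at h
            exact absurd h (by simp)
        · by_cases e2 : (i' : ℕ) = (j' : ℕ)
          · rw [dif_neg e1, dif_pos e2] at h
            exact absurd h (by simp)
          · rw [dif_neg e1, dif_neg e2, Sum.inr.injEq, Subtype.mk.injEq, Prod.mk.injEq] at h
            have hi : i = i' := Subtype.ext h.1
            have hj : j = j' := Subtype.ext h.2
            subst hi hj
            rfl
    rw [Nat.card_sum] at h1
    exact h1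

/-- bound for a field with many split primes -/
theorem nonexc_bound (ε : ℝ) (hε : 0 < ε) :
    ∃ C : ℝ, 1 ≤ C ∧ ∀ (K : Type) [Field K] [NumberField K] (R : RQ K) (X : ℕ), 1 ≤ X →
      R.D ≤ 2 * X → ∀ p : ℕ, Odd p →
      ((Nat.card {x : ClassGroup (𝓞 K) // x ^ p = 1} : ℝ) ≤ C * (X : ℝ) ^ (1 / 2 + ε)) ∧
      ∀ P : Finset ℕ, (∀ q ∈ P, q.Prime ∧ q ≠ 2) →
      P.card < 4 * (P.filter (fun q => jacobiSym R.D q = 1)).card →
      (Nat.card {x : ClassGroup (𝓞 K) // x ^ p = 1} : ℝ) ≤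
        C * (X : ℝ) ^ (1 / 2 + ε) * (4 / P.card + 16 * off p P R.D / P.card ^ 2) := by
  classical
  obtain ⟨C, hC, hcell⟩ := cell_bound ε hε
  refine ⟨C, hC, ?_⟩
  intro K _ _ R X hX hRX p hp
  have hXR : (0 : ℝ) < X := by exact_mod_cast hX
  constructor
  · have h1 := hcell K R X hX hRX Unit (fun _ => ⊤) (fun _ => by simp) p
    have h2 : (Nat.card {ij : Unit × Unit // R.Coll p ((fun _ => ⊤ : Unit → Ideal (𝓞 K)) ij.1)
        ((fun _ => ⊤ : Unit → Ideal (𝓞 K)) ij.2)} : ℝ) ≤ 1 := by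
      have : Nat.card {ij : Unit × Unit // R.Coll p ((fun _ => ⊤ : Unit → Ideal (𝓞 K)) ij.1)
        ((fun _ => ⊤ : Unit → Ideal (𝓞 K)) ij.2)} ≤ 1 :=
        Finite.card_le_one_iff_subsingleton.2 inferInstance
      exact_mod_cast this
    simp only [Fintype.card_unit, Nat.cast_one, one_pow, mul_one] at h1
    calc (Nat.card {x : ClassGroup (𝓞 K) // x ^ p = 1} : ℝ) ≤ _ := h1
      _ ≤ C * (X : ℝ) ^ (1 / 2 + ε) * 1 := mul_le_mul_of_nonneg_left h2 (by positivity)
      _ = _ := mul_one _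
  · intro P hP hlarge
    obtain ⟨q, hq, hcoll⟩ := card_coll_le R P hP p hp
    have h1 := hcell K R X hX hRX {q : P // jacobiSym R.D q = 1} q hq p
    have hι : Fintype.card {q : P // jacobiSym R.D q = 1} =
        (P.filter (fun q => jacobiSym R.D q = 1)).card := by
      rw [Fintype.card_subtype, Finset.univ_eq_attach,
        Finset.filter_attach (fun q : ℕ => jacobiSym R.D q = 1) P, Finset.card_map,
        Finset.card_attach]
    set S := (P.filter (fun q => jacobiSym R.D q = 1)).card with hS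
    rw [Nat.card_eq_fintype_card (α := {q : P // jacobiSym R.D q = 1}), hι] at hcoll
    rw [hι] at h1
    have hSpos : 0 < S := by omega
    have hSR : (0 : ℝ) < S := by exact_mod_cast hSpos
    have hPS : (P.card : ℝ) < 4 * S := by exact_mod_cast hlarge
    have hPpos : (0 : ℝ) < P.card := by
      have : S ≤ P.card := Finset.card_filter_le _ _
      have : 0 < P.card := by omega
      exact_mod_cast this
    have hcollR : (Nat.card {ij : {q : P // jacobiSym R.D q = 1} × {q : P // jacobiSym R.D q = 1} //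
        R.Coll p (q ij.1) (q ij.2)} : ℝ) ≤ S + off p P R.D := by exact_mod_cast hcoll
    have h2 : (Nat.card {x : ClassGroup (𝓞 K) // x ^ p = 1} : ℝ) * (S : ℝ) ^ 2 ≤
        C * (X : ℝ) ^ (1 / 2 + ε) * (S + off p P R.D) :=
      h1.trans (mul_le_mul_of_nonneg_left hcollR (by positivity))
    have h3 : (Nat.card {x : ClassGroup (𝓞 K) // x ^ p = 1} : ℝ) ≤
        C * (X : ℝ) ^ (1 / 2 + ε) * (1 / S + off p P R.D / (S : ℝ) ^ 2) := by
      have h4 : C * (X : ℝ) ^ (1 / 2 + ε) * (S + off p P R.D) =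
          (C * (X : ℝ) ^ (1 / 2 + ε) * (1 / S + off p P R.D / (S : ℝ) ^ 2)) * (S : ℝ) ^ 2 := by
        field_simp
      rw [h4] at h2
      exact le_of_mul_le_mul_right h2 (by positivity)
    refine h3.trans (mul_le_mul_of_nonneg_left ?_ (by positivity))
    refine add_le_add ?_ ?_
    · rw [div_le_div_iff₀ hSR hPpos]; linarith
    · rw [div_le_div_iff₀ (by positivity) (by positivity)]
      have h5 : (P.card : ℝ) ^ 2 ≤ 16 * (S : ℝ) ^ 2 := by nlinarith
      have h6 : (0 : ℝ) ≤ off p P R.D := Nat.cast_nonneg _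
      nlinarith

end Pool.Agent.helper47.RA
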