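import Mathlib

set_option autoImplicit false

/-!
# The quadratic field of a fundamental discriminant
-/

namespace Pool.Agent.helper47.RA

open NumberField

/-- fundamental discriminants: discriminants of quadratic fields -/
def IsFund (D : ℤ) : Prop :=
  (D % 4 = 1 ∧ D ≠ 1 ∧ Squarefree D) ∨
    (∃ m : ℤ, D = 4 * m ∧ (m % 4 = 2 ∨ m % 4 = 3) ∧ Squarefree m)

/-- the square divisors of a fundamental discriminant -/
lemma IsFund.sq_dvd {D : ℤ} (hD : IsFund D) {b : ℤ} (hb : b ^ 2 ∣ D) :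
    IsUnit b ∨ (∃ m, D = 4 * m ∧ (m % 4 = 2 ∨ m % 4 = 3) ∧ (b = 2 ∨ b = -2)) := by
  rcases hD with ⟨_, _, h⟩ | ⟨m, rfl, hm, h⟩
  · left
    rw [sq] at hb
    exact h b hb
  · by_cases h2 : (2 : ℤ) ∣ b
    · right
      obtain ⟨c, rfl⟩ := h2
      have h3 : c ^ 2 ∣ m := by
        have : (2 * c) ^ 2 = 4 * c ^ 2 := by ring
        rw [this] at hb
        exact (mul_dvd_mul_iff_left (by norm_num)).1 hb
      rw [sq] at h3
      have h4 := h c h3
      rw [Int.isUnit_iff] at h4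
      refine ⟨m, rfl, hm, ?_⟩
      rcases h4 with rfl | rfl
      · left; norm_num
      · right; norm_num
    · left
      have h3 : IsCoprime (b ^ 2) 4 := by
        have : IsCoprime b 2 := by
          rw [isCoprime_comm, Prime.coprime_iff_not_dvd Int.prime_two]
          exact h2
        have h4 := (this.pow_left (m := 2)).pow_right (n := 2)
        norm_num at h4
        exact h4
      have h4 : b ^ 2 ∣ m := h3.dvd_of_dvd_mul_left hb
      rw [sq] at h4
      exact h b h4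

lemma IsFund.not_sq {D : ℤ} (hD : IsFund D) (r : ℚ) : r ^ 2 ≠ D := by
  intro h
  -- `r` is an integer
  have h1 : IsIntegral ℤ r := by
    refine ⟨Polynomial.X ^ 2 - Polynomial.C D, Polynomial.monic_X_pow_sub_C _ (by norm_num), ?_⟩
    rw [Polynomial.eval₂_sub, Polynomial.eval₂_pow, Polynomial.eval₂_X, Polynomial.eval₂_C, h]
    simp
  obtain ⟨b, hb⟩ := (IsIntegrallyClosed.isIntegral_iff (R := ℤ) (K := ℚ)).1 h1
  have h2 : (b : ℚ) = r := by simpa using hb
  rw [← h2] at h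
  have h3 : b ^ 2 = D := by exact_mod_cast h
  rcases hD.sq_dvd (b := b) (by rw [h3]) with h4 | ⟨m, hm, hm2, h4⟩
  · rw [Int.isUnit_iff] at h4
    have h5 : D = 1 := by rcases h4 with rfl | rfl <;> simpa using h3.symm
    rcases hD with ⟨_, h6, _⟩ | ⟨m, h6, _⟩
    · exact h6 h5
    · omega
  · have h5 : D = 4 := by rcases h4 with rfl | rfl <;> simpa using h3.symm
    omega

section Alg

variable {k t : ℤ}

open QuadraticAlgebra

lemma fact_of {D : ℤ} (hD : IsFund D) (ht : t ^ 2 = t) (hk : D = t + 4 * k) :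
    Fact (∀ r : ℚ, r ^ 2 ≠ (k : ℚ) + (t : ℚ) * r) := ⟨fun r hr => by
  refine hD.not_sq (2 * r - t) ?_
  have h1 : (t : ℚ) ^ 2 = t := by exact_mod_cast ht
  rw [hk]
  push_cast
  linear_combination 4 * hr + h1⟩

variable [hF : Fact (∀ r : ℚ, r ^ 2 ≠ (k : ℚ) + (t : ℚ) * r)]

instance : CharZero (QuadraticAlgebra ℚ (k : ℚ) (t : ℚ)) := algebraRat.charZero _

instance : NumberField (QuadraticAlgebra ℚ (k : ℚ) (t : ℚ)) where
  to_finiteDimensional := inferInstance

lemma trace_eq (z : QuadraticAlgebra ℚ (k : ℚ) (t : ℚ)) :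
    Algebra.trace ℚ _ z = 2 * z.re + t * z.im := by
  rw [Algebra.trace_eq_matrix_trace (QuadraticAlgebra.basis (k : ℚ) (t : ℚ)),
    Matrix.trace_fin_two, Algebra.leftMulMatrix_eq_repr_mul, Algebra.leftMulMatrix_eq_repr_mul]
  have h0 : QuadraticAlgebra.basis (k : ℚ) (t : ℚ) 0 = ⟨1, 0⟩ := by
    apply (QuadraticAlgebra.basis (k : ℚ) (t : ℚ)).repr.injective
    ext i
    rw [Module.Basis.repr_self, QuadraticAlgebra.basis_repr_apply]
    fin_cases i <;> simp
  have h1 : QuadraticAlgebra.basis (k : ℚ) (t : ℚ) 1 = ⟨0, 1⟩ := by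
    apply (QuadraticAlgebra.basis (k : ℚ) (t : ℚ)).repr.injective
    ext i
    rw [Module.Basis.repr_self, QuadraticAlgebra.basis_repr_apply]
    fin_cases i <;> simp
  rw [h0, h1, QuadraticAlgebra.basis_repr_apply, QuadraticAlgebra.basis_repr_apply]
  simp
  ring

lemma norm_eq (z : QuadraticAlgebra ℚ (k : ℚ) (t : ℚ)) :
    Algebra.norm ℚ z = z.re ^ 2 + t * z.re * z.im - k * z.im ^ 2 := by
  rw [Algebra.norm_apply]
  have h : LinearMap.mul ℚ (QuadraticAlgebra ℚ (k : ℚ) (t : ℚ)) z =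
      DistribSMul.toLinearMap ℚ (QuadraticAlgebra ℚ (k : ℚ) (t : ℚ)) z := by
    ext w <;> simp
  have h2 : (Algebra.lmul ℚ (QuadraticAlgebra ℚ (k : ℚ) (t : ℚ))) z =
      DistribSMul.toLinearMap ℚ (QuadraticAlgebra ℚ (k : ℚ) (t : ℚ)) z := by
    rw [← h]; rfl
  rw [h2, QuadraticAlgebra.det_toLinearMap_eq_norm, QuadraticAlgebra.norm_def]
  ring

/-- integers of the field have integral coordinates -/
lemma coords {D : ℤ} (hD : IsFund D) (ht : t ^ 2 = t) (hk : D = t + 4 * k)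
    (z : QuadraticAlgebra ℚ (k : ℚ) (t : ℚ)) (hz : IsIntegral ℤ z) :
    ∃ x y : ℤ, z = (x : QuadraticAlgebra ℚ (k : ℚ) (t : ℚ)) +
      (y : QuadraticAlgebra ℚ (k : ℚ) (t : ℚ)) * QuadraticAlgebra.omega := by
  have h1 : (t : ℚ) ^ 2 = t := by exact_mod_cast ht
  have ht01 : t = 0 ∨ t = 1 := by
    have : t * (t - 1) = 0 := by linear_combination ht
    rcases mul_eq_zero.1 this with h | h
    · left; exact h
    · right; linarith
  obtain ⟨T, hT⟩ := (IsIntegrallyClosed.isIntegral_iff (R := ℤ) (K := ℚ)).1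
    (Algebra.isIntegral_trace (L := ℚ) hz)
  obtain ⟨N, hN⟩ := (IsIntegrallyClosed.isIntegral_iff (R := ℤ) (K := ℚ)).1
    (Algebra.isIntegral_norm ℚ hz)
  rw [trace_eq] at hT
  rw [norm_eq] at hN
  have hT' : (T : ℚ) = 2 * z.re + t * z.im := by simpa using hT
  have hN' : (N : ℚ) = z.re ^ 2 + t * z.re * z.im - k * z.im ^ 2 := by simpa using hN
  have hDy : (D : ℚ) * z.im ^ 2 = ((T ^ 2 - 4 * N : ℤ) : ℚ) := by
    push_cast
    rw [hT', hN', hk]
    push_cast
    linear_combination (-z.im ^ 2) * h1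
  -- the imaginary part is an integer
  obtain ⟨y, hy⟩ : ∃ y : ℤ, z.im = y := by
    have hnd := z.im.num_div_den
    have hden : (z.im.den : ℚ) ≠ 0 := by exact_mod_cast z.im.den_nz
    have h2 : (D : ℤ) * z.im.num ^ 2 = (T ^ 2 - 4 * N) * (z.im.den : ℤ) ^ 2 := by
      have : (D : ℚ) * (z.im.num : ℚ) ^ 2 = ((T ^ 2 - 4 * N : ℤ) : ℚ) * (z.im.den : ℚ) ^ 2 := by
        rw [← hDy]
        nth_rewrite 2 [← hnd]
        field_simp
      exact_mod_cast this
    have hcop : IsCoprime ((z.im.den : ℤ) ^ 2) (z.im.num ^ 2) := by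
      refine IsCoprime.pow ?_
      rw [Int.isCoprime_iff_gcd_eq_one, Int.gcd_comm]
      exact z.im.reduced
    have h3 : (z.im.den : ℤ) ^ 2 ∣ D :=
      hcop.dvd_of_dvd_mul_right ⟨T ^ 2 - 4 * N, by rw [h2]; ring⟩
    rcases hD.sq_dvd h3 with h4 | ⟨m, hm, hm4, h4⟩
    · rw [Int.isUnit_iff] at h4
      have h5 : z.im.den = 1 := by
        rcases h4 with h4 | h4
        · exact_mod_cast h4
        · have : (0 : ℤ) ≤ z.im.den := by positivity
          omega
      exact ⟨z.im.num, by rw [← hnd, h5]; simp⟩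
    · exfalso
      have h5 : (z.im.den : ℤ) = 2 := by
        rcases h4 with h4 | h4
        · exact h4
        · have : (0 : ℤ) ≤ z.im.den := by positivity
          omega
      rw [h5, hm] at h2
      have h6 : m * z.im.num ^ 2 = T ^ 2 - 4 * N := by linarith
      have h7 : z.im.num % 2 = 1 := by
        have h8 : IsCoprime ((z.im.den : ℤ)) (z.im.num) := by
          rw [Int.isCoprime_iff_gcd_eq_one, Int.gcd_comm]
          exact z.im.reduced
        rw [h5] at h8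
        rcases Int.emod_two_eq_zero_or_one z.im.num with h9 | h9
        · exfalso
          have h10 : (2 : ℤ) ∣ z.im.num := Int.dvd_of_emod_eq_zero h9
          have := h8.isUnit_of_dvd' dvd_rfl h10
          rw [Int.isUnit_iff] at this
          omega
        · exact h9
      have h8 : z.im.num ^ 2 % 4 = 1 := by
        rw [sq, Int.mul_emod]
        have : z.im.num % 4 = 1 ∨ z.im.num % 4 = 3 := by omega
        rcases this with h | h <;> rw [h] <;> norm_num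
      have h9 : (m * z.im.num ^ 2) % 4 = m % 4 := by
        rw [Int.mul_emod, h8]; simp
      have h10 : T ^ 2 % 4 = 0 ∨ T ^ 2 % 4 = 1 := by
        rw [sq, Int.mul_emod]
        have : T % 4 = 0 ∨ T % 4 = 1 ∨ T % 4 = 2 ∨ T % 4 = 3 := by omega
        rcases this with h | h | h | h <;> rw [h] <;> norm_num
      rw [h6] at h9
      omega
  -- the real part
  have h4 : (2 : ℤ) ∣ T - t * y := by
    have h5 : D * y ^ 2 = T ^ 2 - 4 * N := by
      rw [hy] at hDy
      exact_mod_cast hDy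
    have h6 : (2 : ℤ) ∣ (T - t * y) ^ 2 := by
      refine ⟨t * y ^ 2 + 2 * (k * y ^ 2 + N) - T * t * y, ?_⟩
      have : T ^ 2 = t * y ^ 2 + 4 * k * y ^ 2 + 4 * N := by rw [hk] at h5; linarith
      linear_combination this + y ^ 2 * ht
    exact Int.prime_two.dvd_of_dvd_pow h6
  obtain ⟨x, hx⟩ := h4
  refine ⟨x, y, ?_⟩
  have hx' : z.re = x := by
    have : (T : ℚ) - t * y = 2 * x := by exact_mod_cast hx
    rw [hy] at hT'
    linarith
  apply QuadraticAlgebra.ext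
  · simp [hx']
  · simp [hy]

lemma omega_int : IsIntegral ℤ (QuadraticAlgebra.omega : QuadraticAlgebra ℚ (k : ℚ) (t : ℚ)) := by
  refine ⟨Polynomial.X ^ 2 - (Polynomial.C t * Polynomial.X + Polynomial.C k), ?_, ?_⟩
  · exact Polynomial.monic_X_pow_sub Polynomial.degree_linear_lt
  · have h := QuadraticAlgebra.omega_mul_omega_eq_add (R := ℚ) (a := (k : ℚ)) (b := (t : ℚ))
    simp only [Polynomial.eval₂_sub, Polynomial.eval₂_pow, Polynomial.eval₂_X,
      Polynomial.eval₂_add, Polynomial.eval₂_mul, Polynomial.eval₂_C]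
    rw [sq, h]
    apply QuadraticAlgebra.ext <;> simp

/-- the second basis element -/
noncomputable def om : 𝓞 (QuadraticAlgebra ℚ (k : ℚ) (t : ℚ)) := ⟨QuadraticAlgebra.omega, omega_int⟩

lemma om_coe : ((om (k := k) (t := t) : 𝓞 _) : QuadraticAlgebra ℚ (k : ℚ) (t : ℚ)) =
    QuadraticAlgebra.omega := rfl

lemma coords_int {D : ℤ} (hD : IsFund D) (ht : t ^ 2 = t) (hk : D = t + 4 * k)
    (z : 𝓞 (QuadraticAlgebra ℚ (k : ℚ) (t : ℚ))) :
    ∃ x y : ℤ, z = (x : 𝓞 (QuadraticAlgebra ℚ (k : ℚ) (t : ℚ))) +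
      (y : 𝓞 (QuadraticAlgebra ℚ (k : ℚ) (t : ℚ))) * om := by
  obtain ⟨x, y, h⟩ := coords hD ht hk (z : QuadraticAlgebra ℚ (k : ℚ) (t : ℚ)) z.2
  refine ⟨x, y, ?_⟩
  apply RingOfIntegers.ext
  rw [h]
  simp [om_coe]

lemma linInd : LinearIndependent ℤ ![(1 : 𝓞 (QuadraticAlgebra ℚ (k : ℚ) (t : ℚ))), om] := by
  rw [LinearIndependent.pair_iff]
  intro x y h
  have h1 := congrArg (fun z : 𝓞 (QuadraticAlgebra ℚ (k : ℚ) (t : ℚ)) =>
    (z : QuadraticAlgebra ℚ (k : ℚ) (t : ℚ))) h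
  simp only [zsmul_eq_mul, mul_one, map_add, map_intCast, map_mul, om_coe, map_zero] at h1
  have h2 := congrArg QuadraticAlgebra.re h1
  have h3 := congrArg QuadraticAlgebra.im h1
  simp at h2 h3
  exact ⟨h2, h3⟩

lemma span_top {D : ℤ} (hD : IsFund D) (ht : t ^ 2 = t) (hk : D = t + 4 * k) :
    ⊤ ≤ Submodule.span ℤ (Set.range ![(1 : 𝓞 (QuadraticAlgebra ℚ (k : ℚ) (t : ℚ))), om]) := by
  intro z _
  obtain ⟨x, y, rfl⟩ := coords_int hD ht hk z
  refine Submodule.add_mem _ ?_ ?_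
  · have : (x : 𝓞 (QuadraticAlgebra ℚ (k : ℚ) (t : ℚ))) = x • (1 : 𝓞 _) := by simp
    rw [this]
    exact Submodule.smul_mem _ _ (Submodule.subset_span ⟨0, rfl⟩)
  · have : (y : 𝓞 (QuadraticAlgebra ℚ (k : ℚ) (t : ℚ))) * om = y • om := by simp
    rw [this]
    exact Submodule.smul_mem _ _ (Submodule.subset_span ⟨1, rfl⟩)

/-- the discriminant -/
lemma discr_eq {D : ℤ} (hD : IsFund D) (ht : t ^ 2 = t) (hk : D = t + 4 * k) :
    NumberField.discr (QuadraticAlgebra ℚ (k : ℚ) (t : ℚ)) = D := by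
  let b : Module.Basis (Fin 2) ℤ (𝓞 (QuadraticAlgebra ℚ (k : ℚ) (t : ℚ))) :=
    Module.Basis.mk linInd (span_top hD ht hk)
  rw [← NumberField.discr_eq_discr _ b, Algebra.discr_def, Matrix.det_fin_two]
  simp only [Algebra.traceMatrix_apply, Algebra.traceForm_apply]
  have hb0 : b 0 = 1 := by simp [b]
  have hb1 : b 1 = om := by simp [b]
  rw [hb0, hb1]
  have htr : ∀ z : 𝓞 (QuadraticAlgebra ℚ (k : ℚ) (t : ℚ)),
      ((Algebra.trace ℤ _ z : ℤ) : ℚ) = 2 * (z : QuadraticAlgebra ℚ (k : ℚ) (t : ℚ)).re +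
        t * (z : QuadraticAlgebra ℚ (k : ℚ) (t : ℚ)).im := by
    intro z
    rw [Algebra.coe_trace_int, trace_eq]
  have h1 : Algebra.trace ℤ (𝓞 (QuadraticAlgebra ℚ (k : ℚ) (t : ℚ))) (1 * 1) = 2 := by
    have := htr (1 * 1)
    simp at this
    exact_mod_cast this
  have h2 : Algebra.trace ℤ (𝓞 (QuadraticAlgebra ℚ (k : ℚ) (t : ℚ))) (1 * om) = t := by
    rw [one_mul]
    have := htr om
    simp [om_coe] at this
    exact_mod_cast this
  have h3 : Algebra.trace ℤ (𝓞 (QuadraticAlgebra ℚ (k : ℚ) (t : ℚ))) (om * om) =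
      2 * k + t * t := by
    have := htr (om * om)
    simp [om_coe] at this
    exact_mod_cast this
  rw [h1, h2, h3, mul_comm om 1, h2, hk]
  linear_combination ht

/-- the two real embeddings, for `s² = D` -/
noncomputable def emb (s : ℝ) (hs : s ^ 2 = (t : ℝ) + 4 * k) (ht : t ^ 2 = t) :
    QuadraticAlgebra ℚ (k : ℚ) (t : ℚ) →ₐ[ℚ] ℝ :=
  QuadraticAlgebra.lift ⟨((t : ℝ) + s) / 2, by
    have h1 : (t : ℝ) ^ 2 = t := by exact_mod_cast ht
    rw [Rat.smul_def, Rat.smul_def]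
    push_cast
    linear_combination (1 / 4) * hs + (-1 / 4) * h1⟩

lemma emb_apply (s : ℝ) (hs : s ^ 2 = (t : ℝ) + 4 * k) (ht : t ^ 2 = t)
    (z : QuadraticAlgebra ℚ (k : ℚ) (t : ℚ)) :
    emb s hs ht z = z.re + z.im * (((t : ℝ) + s) / 2) := by
  simp [emb, QuadraticAlgebra.lift, Algebra.smul_def]
  rfl

end Alg

/-- Everything we need about the real quadratic field of a positive fundamental discriminant -/
theorem exists_model (D : ℤ) (hD : IsFund D) (hpos : 0 < D) :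
    ∃ (K : Type) (_ : Field K) (_ : NumberField K), Module.finrank ℚ K = 2 ∧
      NumberField.discr K = D ∧ ∃ (ω : 𝓞 K) (t k : ℤ) (σ₁ σ₂ : K →+* ℝ),
        (t = 0 ∨ t = 1) ∧ D = t + 4 * k ∧ ω * ω = k + t * ω ∧
        (∀ a : 𝓞 K, ∃ x y : ℤ, a = x + y * ω) ∧
        σ₁ ω = ((t : ℝ) + √D) / 2 ∧ σ₂ ω = ((t : ℝ) - √D) / 2 ∧
        (∀ a : 𝓞 K, ((Algebra.norm ℤ a : ℤ) : ℝ) = σ₁ a * σ₂ a) := by
  obtain ⟨t, k, ht, hk⟩ : ∃ t k : ℤ, (t = 0 ∨ t = 1) ∧ D = t + 4 * k := by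
    rcases hD with ⟨h, _, _⟩ | ⟨m, h, _⟩
    · exact ⟨1, D / 4, Or.inr rfl, by omega⟩
    · exact ⟨0, m, Or.inl rfl, by omega⟩
  have ht2 : t ^ 2 = t := by rcases ht with rfl | rfl <;> norm_num
  have := fact_of hD ht2 hk
  have hDR : (0 : ℝ) ≤ D := by exact_mod_cast hpos.le
  have hs1 : (√(D : ℝ)) ^ 2 = (t : ℝ) + 4 * k := by
    rw [Real.sq_sqrt hDR, hk]; push_cast; ring
  have hs2 : (-√(D : ℝ)) ^ 2 = (t : ℝ) + 4 * k := by
    rw [neg_sq, hs1]
  refine ⟨QuadraticAlgebra ℚ (k : ℚ) (t : ℚ), inferInstance, inferInstance,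
    QuadraticAlgebra.finrank_eq_two _ _, discr_eq hD ht2 hk, om, t, k,
    (emb _ hs1 ht2).toRingHom, (emb _ hs2 ht2).toRingHom, ht, hk, ?_, coords_int hD ht2 hk, ?_, ?_, ?_⟩
  · apply RingOfIntegers.ext
    simp only [map_mul, map_add, map_intCast, om_coe]
    rw [QuadraticAlgebra.omega_mul_omega_eq_add]
    apply QuadraticAlgebra.ext <;> simp
  · show emb _ hs1 ht2 _ = _
    rw [emb_apply, om_coe]
    simp
  · show emb _ hs2 ht2 _ = _
    rw [emb_apply, om_coe]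
    simp
    ring
  · intro a
    show _ = emb _ hs1 ht2 _ * emb _ hs2 ht2 _
    rw [emb_apply, emb_apply]
    have h1 : ((Algebra.norm ℤ a : ℤ) : ℚ) = _ := Algebra.coe_norm_int a
    rw [norm_eq] at h1
    have h2 : ((Algebra.norm ℤ a : ℤ) : ℝ) = (((Algebra.norm ℤ a : ℤ) : ℚ) : ℝ) := by simp
    rw [h2, h1]
    push_cast
    have h3 : (t : ℝ) ^ 2 = t := by exact_mod_cast ht2
    linear_combination ((a : QuadraticAlgebra ℚ (k : ℚ) (t : ℚ)).im : ℝ) ^ 2 * (1 / 4) * (hs1 - h3)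

end Pool.Agent.helper47.RA
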