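import Pool.Agent.helper47.RA.Num
import Pool.Agent.helper47.RA.Model

set_option autoImplicit false

/-!
# Counting ideals of small norm in a quadratic field
-/

namespace Pool.Agent.helper47.RA

open NumberField

section

variable {K : Type} [Field K] [NumberField K] {ω : 𝓞 K} {t k D : ℤ}

/-- `1` and `ω` are independent -/
lemma lin_indep (hD : IsFund D) (ht : t = 0 ∨ t = 1) (hk : D = t + 4 * k)
    (hω : ω * ω = k + t * ω) {x y : ℤ} (h : (x : 𝓞 K) + y * ω = 0) : x = 0 ∧ y = 0 := by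
  have ht2 : t ^ 2 = t := by rcases ht with rfl | rfl <;> norm_num
  have h1 : (((2 * x + t * y) ^ 2 : ℤ) : 𝓞 K) = ((D * y ^ 2 : ℤ) : 𝓞 K) := by
    have h2 : ((t ^ 2 : ℤ) : 𝓞 K) = (t : 𝓞 K) := by rw [ht2]
    push_cast at h2 ⊢
    rw [hk]
    push_cast
    have h3 : (y : 𝓞 K) * ω = -x := by linear_combination h
    have h4 : (y : 𝓞 K) ^ 2 * (ω * ω) = (x : 𝓞 K) ^ 2 := by
      calc (y : 𝓞 K) ^ 2 * (ω * ω) = (y * ω) ^ 2 := by ring
        _ = (x : 𝓞 K) ^ 2 := by rw [h3]; ring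
    rw [hω] at h4
    linear_combination 4 * y * t * h3 - 4 * h4 + y ^ 2 * h2
  have h2 : (2 * x + t * y) ^ 2 = D * y ^ 2 := by exact_mod_cast h1
  have hy : y = 0 := by
    by_contra hy
    have hyQ : (y : ℚ) ≠ 0 := by exact_mod_cast hy
    refine hD.not_sq ((2 * x + t * y : ℤ) / (y : ℚ)) ?_
    rw [div_pow, div_eq_iff (pow_ne_zero 2 hyQ)]
    exact_mod_cast h2
  subst hy
  simp at h2
  exact ⟨h2, rfl⟩

/-- Hermite normal form of an ideal -/
lemma exists_hnf (ht : t = 0 ∨ t = 1) (hk : D = t + 4 * k)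
    (hω : ω * ω = k + t * ω) (I : Ideal (𝓞 K)) (hI : 0 < Ideal.absNorm I) :
    ∃ (a b : ℕ) (c : ℤ), 0 < a ∧ 0 < b ∧ 0 ≤ c ∧ c < b ∧
      ((4 * b : ℕ) : ℤ) ∣ (2 * c + t) ^ 2 - D ∧ a ^ 2 * b ≤ Ideal.absNorm I ∧
      ∀ x y : ℤ, (x : 𝓞 K) + y * ω ∈ I ↔ ∃ u v : ℤ, y = a * v ∧ x = a * b * u + a * c * v := by
  classical
  have ht2 : t ^ 2 = t := by rcases ht with rfl | rfl <;> norm_num
  have hbex : ∃ n : ℕ, 0 < n ∧ ((n : ℕ) : 𝓞 K) ∈ I := ⟨_, hI, Ideal.absNorm_mem I⟩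
  obtain ⟨hb0, hbI⟩ := Nat.find_spec hbex
  set b := Nat.find hbex with hb
  have hbmin : ∀ z : ℤ, (z : 𝓞 K) ∈ I → (b : ℤ) ∣ z := by
    intro z hz
    have hbz : (0 : ℤ) < b := by exact_mod_cast hb0
    have h1 : ((z % b : ℤ) : 𝓞 K) ∈ I := by
      have h2 : z % b = z - b * (z / b) := by rw [Int.emod_def]
      rw [h2]
      push_cast
      refine I.sub_mem hz (I.mul_mem_right _ ?_)
      exact_mod_cast hbI
    have h3 : 0 ≤ z % (b : ℤ) := Int.emod_nonneg _ hbz.ne'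
    have h4 : z % (b : ℤ) < b := Int.emod_lt_of_pos _ hbz
    by_contra hnd
    have h5 : z % (b : ℤ) ≠ 0 := fun h => hnd (Int.dvd_of_emod_eq_zero h)
    have h6 : 0 < (z % (b : ℤ)).toNat := by omega
    have h7 : (((z % (b : ℤ)).toNat : ℕ) : 𝓞 K) ∈ I := by
      have h8 : (((z % (b : ℤ)).toNat : ℕ) : ℤ) = z % b := Int.toNat_of_nonneg h3
      have h9 : (((z % (b : ℤ)).toNat : ℕ) : 𝓞 K) = (((z % (b : ℤ)).toNat : ℤ) : 𝓞 K) := by
        push_cast; rfl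
      rw [h9, h8]
      exact h1
    have := Nat.find_min' hbex ⟨h6, h7⟩
    rw [← hb] at this
    omega
  have haex : ∃ n : ℕ, 0 < n ∧ ∃ x : ℤ, (x : 𝓞 K) + ((n : ℕ) : 𝓞 K) * ω ∈ I :=
    ⟨b, hb0, 0, by push_cast; rw [zero_add]; exact I.mul_mem_right _ hbI⟩
  obtain ⟨ha0, c0, hc0⟩ := Nat.find_spec haex
  set a := Nat.find haex with ha
  have haz : (0 : ℤ) < a := by exact_mod_cast ha0
  have hbz : (0 : ℤ) < b := by exact_mod_cast hb0
  have hamin : ∀ x y : ℤ, (x : 𝓞 K) + y * ω ∈ I → (a : ℤ) ∣ y := by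
    intro x y hxy
    have h1 : ((x - c0 * (y / a) : ℤ) : 𝓞 K) + ((y % a : ℤ) : 𝓞 K) * ω ∈ I := by
      have h2 : y % a = y - a * (y / a) := by rw [Int.emod_def]
      have h3 : ((x - c0 * (y / a) : ℤ) : 𝓞 K) + ((y % a : ℤ) : 𝓞 K) * ω =
          ((x : 𝓞 K) + y * ω) - ((y / a : ℤ) : 𝓞 K) * ((c0 : 𝓞 K) + ((a : ℕ) : 𝓞 K) * ω) := by
        rw [h2]; push_cast; ring
      rw [h3]
      exact I.sub_mem hxy (I.mul_mem_left _ hc0)
    have h3 : 0 ≤ y % (a : ℤ) := Int.emod_nonneg _ haz.ne'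
    have h4 : y % (a : ℤ) < a := Int.emod_lt_of_pos _ haz
    by_contra hnd
    have h5 : y % (a : ℤ) ≠ 0 := fun h => hnd (Int.dvd_of_emod_eq_zero h)
    have h6 : 0 < (y % (a : ℤ)).toNat := by omega
    have h9 : (((y % (a : ℤ)).toNat : ℕ) : 𝓞 K) = ((y % a : ℤ) : 𝓞 K) := by
      have h8 : (((y % (a : ℤ)).toNat : ℕ) : ℤ) = y % a := Int.toNat_of_nonneg h3
      have : (((y % (a : ℤ)).toNat : ℕ) : 𝓞 K) = (((y % (a : ℤ)).toNat : ℤ) : 𝓞 K) := by
        push_cast; rfl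
      rw [this, h8]
    have := Nat.find_min' haex ⟨h6, _, by rw [h9]; exact h1⟩
    rw [← ha] at this
    omega
  -- a ∣ b, a ∣ c0
  have hab : (a : ℤ) ∣ b := hamin 0 b (by push_cast; rw [zero_add]; exact I.mul_mem_right _ hbI)
  have hac : (a : ℤ) ∣ c0 := by
    have h1 : ((a * k : ℤ) : 𝓞 K) + ((c0 + a * t : ℤ) : 𝓞 K) * ω ∈ I := by
      have h2 : ((a * k : ℤ) : 𝓞 K) + ((c0 + a * t : ℤ) : 𝓞 K) * ω =
          ((c0 : 𝓞 K) + ((a : ℕ) : 𝓞 K) * ω) * ω := by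
        push_cast
        linear_combination -(a : 𝓞 K) * hω
      rw [h2]
      exact I.mul_mem_right _ hc0
    have h3 := hamin _ _ h1
    have h4 := dvd_sub h3 (dvd_mul_right (a : ℤ) t)
    simpa using h4
  obtain ⟨b1, hb1⟩ := hab
  obtain ⟨c1, hc1⟩ := hac
  have hb1pos : 0 < b1 := by
    by_contra h
    push Not at h
    nlinarith
  -- the reduced c
  set c := c1 % b1 with hc
  have hcnn : 0 ≤ c := Int.emod_nonneg _ hb1pos.ne'
  have hclt : c < b1 := Int.emod_lt_of_pos _ hb1pos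
  obtain ⟨e, he⟩ : ∃ e, c1 = c + b1 * e := ⟨c1 / b1, by rw [hc, Int.emod_def]; ring⟩
  have hcI : ((a * c : ℤ) : 𝓞 K) + ((a : ℤ) : 𝓞 K) * ω ∈ I := by
    have h2 : ((a * c : ℤ) : 𝓞 K) + ((a : ℤ) : 𝓞 K) * ω =
        ((c0 : 𝓞 K) + ((a : ℕ) : 𝓞 K) * ω) - ((b : ℕ) : 𝓞 K) * (e : 𝓞 K) := by
      have h3 : (a * c : ℤ) = c0 - b * e := by rw [hc1, hb1, he]; ring
      rw [h3]; push_cast; ring
    rw [h2]
    exact I.sub_mem hc0 (I.mul_mem_right _ hbI)
  have hiff : ∀ x y : ℤ, (x : 𝓞 K) + y * ω ∈ I ↔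
      ∃ u v : ℤ, y = a * v ∧ x = a * b1 * u + a * c * v := by
    intro x y
    constructor
    · intro h
      obtain ⟨v, hv⟩ := hamin x y h
      have h1 : ((x - a * c * v : ℤ) : 𝓞 K) ∈ I := by
        have h2 : ((x - a * c * v : ℤ) : 𝓞 K) = ((x : 𝓞 K) + y * ω) -
            (v : 𝓞 K) * (((a * c : ℤ) : 𝓞 K) + ((a : ℤ) : 𝓞 K) * ω) := by
          rw [hv]; push_cast; ring
        rw [h2]
        exact I.sub_mem h (I.mul_mem_left _ hcI)
      obtain ⟨u, hu⟩ := hbmin _ h1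
      exact ⟨u, v, hv, by rw [hb1] at hu; linarith⟩
    · rintro ⟨u, v, rfl, rfl⟩
      have h2 : ((a * b1 * u + a * c * v : ℤ) : 𝓞 K) + ((a * v : ℤ) : 𝓞 K) * ω =
          ((b : ℕ) : 𝓞 K) * (u : 𝓞 K) +
            (v : 𝓞 K) * (((a * c : ℤ) : 𝓞 K) + ((a : ℤ) : 𝓞 K) * ω) := by
        have h3 : ((b : ℕ) : 𝓞 K) = ((a * b1 : ℤ) : 𝓞 K) := by
          rw [← hb1]; push_cast; rfl
        rw [h3]; push_cast; ring
      rw [h2]
      exact I.add_mem (I.mul_mem_right _ hbI) (I.mul_mem_left _ hcI)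
  refine ⟨a, b1.toNat, c, ha0, by omega, hcnn, by omega, ?_, ?_, ?_⟩
  · -- the congruence
    have h1 : ((a * (c ^ 2 + t * c - k) : ℤ) : 𝓞 K) ∈ I := by
      have h2 : ((a * (c ^ 2 + t * c - k) : ℤ) : 𝓞 K) =
          (((a * c : ℤ) : 𝓞 K) + ((a : ℤ) : 𝓞 K) * ω) * ((c : 𝓞 K) + t - ω) := by
        push_cast
        linear_combination (a : 𝓞 K) * hω
      rw [h2]
      exact I.mul_mem_right _ hcI
    obtain ⟨w, hw⟩ := hbmin _ h1
    have h3 : c ^ 2 + t * c - k = b1 * w := by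
      have h4 : (a : ℤ) * (c ^ 2 + t * c - k) = a * (b1 * w) := by
        rw [hw, hb1]; ring
      exact mul_left_cancel₀ haz.ne' h4
    refine ⟨w, ?_⟩
    have h5 : ((4 * b1.toNat : ℕ) : ℤ) = 4 * b1 := by
      push_cast; rw [Int.toNat_of_nonneg hb1pos.le]
    rw [h5]
    linear_combination 4 * h3 + ht2 - hk
  · -- the norm
    have h1 : a * b ≤ Ideal.absNorm I := by
      have hfin : Finite (𝓞 K ⧸ I) := by
        by_contra hinf
        rw [not_finite_iff_infinite] at hinf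
        have : Ideal.absNorm I = 0 := by
          rw [Ideal.absNorm_apply, Submodule.cardQuot_apply]
          exact Nat.card_eq_zero_of_infinite
        omega
      have h2 : Nat.card (Fin b × Fin a) ≤ Nat.card (𝓞 K ⧸ I) := by
        refine Nat.card_le_card_of_injective
          (fun p : Fin b × Fin a => Ideal.Quotient.mk I
            ((((p.1 : ℕ) : ℤ) : 𝓞 K) + (((p.2 : ℕ) : ℤ) : 𝓞 K) * ω)) ?_
        rintro ⟨i, j⟩ ⟨i', j'⟩ h
        simp only at h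
        rw [Ideal.Quotient.eq] at h
        have h3 : ((((i : ℕ) : ℤ) - ((i' : ℕ) : ℤ) : ℤ) : 𝓞 K) +
            ((((j : ℕ) : ℤ) - ((j' : ℕ) : ℤ) : ℤ) : 𝓞 K) * ω ∈ I := by
          convert h using 1
          push_cast; ring
        obtain ⟨u, v, hv, hu⟩ := (hiff _ _).1 h3
        have hj := j.2
        have hj' := j'.2
        have hi := i.2
        have hi' := i'.2
        have hv0 : v = 0 := by
          by_contra hv0
          rcases lt_or_gt_of_ne hv0 with h4 | h4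
          · have : (a : ℤ) * v ≤ -a := by nlinarith
            omega
          · have : (a : ℤ) ≤ a * v := by nlinarith
            omega
        rw [hv0, mul_zero] at hv hu
        rw [add_zero, ← hb1] at hu
        have hu0 : u = 0 := by
          by_contra hu0
          rcases lt_or_gt_of_ne hu0 with h4 | h4
          · have : (b : ℤ) * u ≤ -b := by nlinarith
            omega
          · have : (b : ℤ) ≤ b * u := by nlinarith
            omega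
        rw [hu0, mul_zero] at hu
        have e1 : i = i' := Fin.ext (by omega)
        have e2 : j = j' := Fin.ext (by omega)
        rw [e1, e2]
      rw [Nat.card_prod, Nat.card_eq_fintype_card, Nat.card_eq_fintype_card, Fintype.card_fin,
        Fintype.card_fin] at h2
      rw [Ideal.absNorm_apply, Submodule.cardQuot_apply, mul_comm]
      exact h2
    have h2 : b = a * b1.toNat := by
      have : (b : ℤ) = ((a * b1.toNat : ℕ) : ℤ) := by
        push_cast; rw [Int.toNat_of_nonneg hb1pos.le]; exact hb1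
      exact_mod_cast this
    calc a ^ 2 * b1.toNat = a * b := by rw [h2]; ring
      _ ≤ _ := h1
  · intro x y
    rw [hiff]
    have h5 : ((b1.toNat : ℕ) : ℤ) = b1 := Int.toNat_of_nonneg hb1pos.le
    rw [h5]

lemma h_le_four (hD : IsFund D) {h : ℕ} (h1 : ((h : ℤ)) ^ 2 ∣ 4 * D) : h ≤ 4 := by
  have key : ∀ g : ℕ, ((g : ℤ)) ^ 2 ∣ D → g ≤ 2 := by
    intro g hg
    rcases hD.sq_dvd hg with h2 | ⟨m, _, _, h2⟩
    · rw [Int.isUnit_iff] at h2
      omega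
    · omega
  rcases Nat.even_or_odd h with ⟨g, hg⟩ | hodd
  · have : ((g : ℤ)) ^ 2 ∣ D := by
      have h2 : ((h : ℤ)) ^ 2 = 4 * (g : ℤ) ^ 2 := by rw [hg]; push_cast; ring
      rw [h2] at h1
      exact (mul_dvd_mul_iff_left (by norm_num)).1 h1
    have := key g this
    omega
  · have h3 : IsCoprime ((h : ℤ) ^ 2) 4 := by
      have : IsCoprime (h : ℤ) 2 := by
        rw [isCoprime_comm, Prime.coprime_iff_not_dvd Int.prime_two]
        intro h4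
        have h5 : 2 ∣ h := by exact_mod_cast h4
        rw [Nat.odd_iff] at hodd
        omega
      have h4 := (this.pow_left (m := 2)).pow_right (n := 2)
      norm_num at h4
      exact h4
    have := key h (h3.dvd_of_dvd_mul_left h1)
    omega

end

/-- pairs `(a, b)` with `a² b ≤ B` -/
lemma card_pairs_le (B : ℕ) :
    (((((Finset.range (B + 1)) ×ˢ (Finset.range (B + 1))).filter
      (fun ab : ℕ × ℕ => 0 < ab.1 ∧ 0 < ab.2 ∧ ab.1 ^ 2 * ab.2 ≤ B)).card : ℕ) : ℝ) ≤ 2 * B := by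
  classical
  have h1 : (((Finset.range (B + 1)) ×ˢ (Finset.range (B + 1))).filter
      (fun ab : ℕ × ℕ => 0 < ab.1 ∧ 0 < ab.2 ∧ ab.1 ^ 2 * ab.2 ≤ B)) ⊆
      ((Finset.Ioo 0 (B + 1)).sigma (fun a => Finset.Ioc 0 (B / a ^ 2))).image
        (fun s : (Σ _ : ℕ, ℕ) => (s.1, s.2)) := by
    intro ab hab
    rw [Finset.mem_filter, Finset.mem_product, Finset.mem_range, Finset.mem_range] at hab
    rw [Finset.mem_image]
    refine ⟨⟨ab.1, ab.2⟩, ?_, rfl⟩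
    rw [Finset.mem_sigma, Finset.mem_Ioo, Finset.mem_Ioc]
    refine ⟨⟨hab.2.1, hab.1.1⟩, hab.2.2.1, ?_⟩
    rw [Nat.le_div_iff_mul_le (pow_pos hab.2.1 2), mul_comm]
    exact hab.2.2.2
  have h2 := (Finset.card_le_card h1).trans Finset.card_image_le
  rw [Finset.card_sigma] at h2
  have h3 : ((∑ a ∈ Finset.Ioo 0 (B + 1), (Finset.Ioc 0 (B / a ^ 2)).card : ℕ) : ℝ) ≤
      ∑ a ∈ Finset.Ioo 0 (B + 1), (B : ℝ) * ((a : ℝ) ^ 2)⁻¹ := by
    push_cast
    refine Finset.sum_le_sum fun a _ => ?_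
    rw [Nat.card_Ioc, Nat.sub_zero]
    refine (Nat.cast_div_le).trans ?_
    push_cast
    rw [div_eq_mul_inv]
  have h4 : ∑ a ∈ Finset.Ioo 0 (B + 1), ((a : ℝ) ^ 2)⁻¹ ≤ 2 := by
    have := sum_Ioo_inv_sq_le (α := ℝ) 0 (B + 1)
    norm_num at this
    simpa using this
  have h5 : ((((Finset.range (B + 1)) ×ˢ (Finset.range (B + 1))).filter
      (fun ab : ℕ × ℕ => 0 < ab.1 ∧ 0 < ab.2 ∧ ab.1 ^ 2 * ab.2 ≤ B)).card : ℝ) ≤
      ((∑ a ∈ Finset.Ioo 0 (B + 1), (Finset.Ioc 0 (B / a ^ 2)).card : ℕ) : ℝ) := by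
    exact_mod_cast h2
  refine h5.trans (h3.trans ?_)
  rw [← Finset.mul_sum]
  nlinarith [(Nat.cast_nonneg B : (0 : ℝ) ≤ B)]

/-- number of ideals of norm at most `B` -/
theorem card_ideals_le (ε : ℝ) (hε : 0 < ε) :
    ∃ C : ℝ, 1 ≤ C ∧ ∀ (K : Type) [Field K] [NumberField K] (ω : 𝓞 K) (t k D : ℤ), IsFund D →
      (t = 0 ∨ t = 1) → D = t + 4 * k → ω * ω = k + t * ω →
      (∀ a : 𝓞 K, ∃ x y : ℤ, a = x + y * ω) → ∀ B : ℕ, 1 ≤ B →
      {I : Ideal (𝓞 K) | 0 < Ideal.absNorm I ∧ Ideal.absNorm I ≤ B}.Finite ∧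
      (({I : Ideal (𝓞 K) | 0 < Ideal.absNorm I ∧ Ideal.absNorm I ≤ B}.ncard : ℕ) : ℝ) ≤
        C * (B : ℝ) ^ (1 + ε) := by
  classical
  obtain ⟨C₁, hC₁, hdiv⟩ := card_divisors_le ε hε
  refine ⟨6 * C₁ * 4 ^ ε, ?_, ?_⟩
  · have : (1 : ℝ) ≤ 4 ^ ε := Real.one_le_rpow (by norm_num) hε.le
    nlinarith
  intro K _ _ ω t k D hD ht hk hω hspan B hB
  set S := {I : Ideal (𝓞 K) | 0 < Ideal.absNorm I ∧ Ideal.absNorm I ≤ B} with hS
  have hex : ∀ I : Ideal (𝓞 K), 0 < Ideal.absNorm I →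
    ∃ (a b : ℕ) (c : ℤ), 0 < a ∧ 0 < b ∧ 0 ≤ c ∧ c < b ∧
      ((4 * b : ℕ) : ℤ) ∣ (2 * c + t) ^ 2 - D ∧ a ^ 2 * b ≤ Ideal.absNorm I ∧
      ∀ x y : ℤ, (x : 𝓞 K) + y * ω ∈ I ↔ ∃ u v : ℤ, y = a * v ∧ x = a * b * u + a * c * v :=
    fun I hI => exists_hnf ht hk hω I hI
  choose! fa fb fc h1 h2 h3 h4 h5 h6 h7 using hex
  let T : Finset (ℕ × ℕ) := ((Finset.range (B + 1)) ×ˢ (Finset.range (B + 1))).filter
      (fun ab : ℕ × ℕ => 0 < ab.1 ∧ 0 < ab.2 ∧ ab.1 ^ 2 * ab.2 ≤ B)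
  let Z : ℕ → Finset ℤ := fun b => (Finset.Ioc (-1) (-1 + ((2 * b : ℕ) : ℤ))).filter
    (fun z => ((4 * b : ℕ) : ℤ) ∣ z ^ 2 - D)
  let U : Finset (Σ _ : ℕ × ℕ, ℤ) := T.sigma (fun ab => Z ab.2)
  let Φ : Ideal (𝓞 K) → (Σ _ : ℕ × ℕ, ℤ) := fun I => ⟨(fa I, fb I), 2 * fc I + t⟩
  have hmaps : ∀ I ∈ S, Φ I ∈ (U : Set (Σ _ : ℕ × ℕ, ℤ)) := by
    intro I hI
    obtain ⟨hI0, hIB⟩ := hI
    rw [Finset.mem_coe, Finset.mem_sigma, Finset.mem_filter, Finset.mem_product,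
      Finset.mem_range, Finset.mem_range, Finset.mem_filter, Finset.mem_Ioc]
    have e1 := h1 I hI0
    have e2 := h2 I hI0
    have e3 := h3 I hI0
    have e4 := h4 I hI0
    have e5 := h5 I hI0
    have e6 := (h6 I hI0).trans hIB
    have e7 : fa I ≤ B := by
      calc fa I ≤ fa I ^ 2 * fb I := by nlinarith [Nat.mul_pos e1 e2]
        _ ≤ B := e6
    have e8 : fb I ≤ B := by
      calc fb I ≤ fa I ^ 2 * fb I := by nlinarith [pow_pos e1 2]
        _ ≤ B := e6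
    refine ⟨⟨⟨?_, ?_⟩, e1, e2, e6⟩, ⟨?_, ?_⟩, e5⟩
    · show fa I < B + 1
      omega
    · show fb I < B + 1
      omega
    · show -1 < 2 * fc I + t
      omega
    · show 2 * fc I + t ≤ -1 + ((2 * fb I : ℕ) : ℤ)
      push_cast
      omega
  have hinj : Set.InjOn Φ S := by
    intro I hI J hJ hIJ
    have e1 : fa I = fa J := by
      have := congrArg (fun s : (Σ _ : ℕ × ℕ, ℤ) => s.1.1) hIJ
      exact this
    have e2 : fb I = fb J := by
      have := congrArg (fun s : (Σ _ : ℕ × ℕ, ℤ) => s.1.2) hIJ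
      exact this
    have e3 : fc I = fc J := by
      have := congrArg (fun s : (Σ _ : ℕ × ℕ, ℤ) => s.2) hIJ
      have h8 : 2 * fc I + t = 2 * fc J + t := this
      omega
    ext w
    obtain ⟨x, y, rfl⟩ := hspan w
    rw [h7 I hI.1, h7 J hJ.1, e1, e2, e3]
  have hcard : S.ncard ≤ U.card := by
    have := Set.ncard_le_ncard_of_injOn Φ hmaps hinj (Finset.finite_toSet U)
    rwa [Set.ncard_coe_finset] at this
  have hfin : S.Finite :=
    Set.Finite.of_injOn hmaps hinj (Finset.finite_toSet U)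
  refine ⟨hfin, ?_⟩
  have hBR : (1 : ℝ) ≤ B := by exact_mod_cast hB
  have hZ : ∀ ab ∈ T, (((Z ab.2).card : ℕ) : ℝ) ≤ 3 * C₁ * (4 * B : ℝ) ^ ε := by
    intro ab hab
    rw [Finset.mem_filter, Finset.mem_product, Finset.mem_range, Finset.mem_range] at hab
    obtain ⟨⟨_, hb⟩, _, hb0, _⟩ := hab
    have e1 := card_roots_le (4 * ab.2) (by omega) 4 D (-1) (2 * ab.2) (Z ab.2)
      (fun z hz => Finset.mem_Ioc.1 (Finset.mem_filter.1 hz).1)
      (fun z hz => (Finset.mem_filter.1 hz).2)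
      (fun z hz h hh hz2 => by
        refine h_le_four hD ?_
        have e1 : ((h : ℤ)) ^ 2 ∣ z ^ 2 - D := by
          refine dvd_trans ?_ (Finset.mem_filter.1 hz).2
          exact_mod_cast hh
        have e2 : ((h : ℤ)) ^ 2 ∣ (2 * z) ^ 2 := pow_dvd_pow_of_dvd hz2 2
        have e3 : 4 * D = (2 * z) ^ 2 - 4 * (z ^ 2 - D) := by ring
        rw [e3]
        exact dvd_sub e2 (e1.mul_left 4))
    have hbR : (0 : ℝ) < ab.2 := by exact_mod_cast hb0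
    have e2 : ((2 * ab.2 : ℕ) : ℝ) * (4 : ℕ) / ((4 * ab.2 : ℕ) : ℝ) + 1 = 3 := by
      push_cast
      field_simp
      norm_num
    rw [e2] at e1
    have e3 := hdiv (4 * ab.2) (by omega)
    have e4 : ((4 * ab.2 : ℕ) : ℝ) ^ ε ≤ (4 * B : ℝ) ^ ε := by
      refine Real.rpow_le_rpow (by positivity) ?_ hε.le
      push_cast
      have : (ab.2 : ℝ) ≤ B := by
        have : ab.2 ≤ B := by omega
        exact_mod_cast this
      linarith
    calc (((Z ab.2).card : ℕ) : ℝ) ≤ (((4 * ab.2).divisors.card : ℕ) : ℝ) * 3 := e1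
      _ ≤ (C₁ * ((4 * ab.2 : ℕ) : ℝ) ^ ε) * 3 := by
          exact mul_le_mul_of_nonneg_right e3 (by norm_num)
      _ ≤ (C₁ * (4 * B : ℝ) ^ ε) * 3 := by
          refine mul_le_mul_of_nonneg_right ?_ (by norm_num)
          exact mul_le_mul_of_nonneg_left e4 (by linarith)
      _ = _ := by ring
  calc ((S.ncard : ℕ) : ℝ) ≤ ((U.card : ℕ) : ℝ) := by exact_mod_cast hcard
    _ = ∑ ab ∈ T, (((Z ab.2).card : ℕ) : ℝ) := by
        rw [Finset.card_sigma]; push_cast; rfl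
    _ ≤ ∑ _ab ∈ T, 3 * C₁ * (4 * B : ℝ) ^ ε := Finset.sum_le_sum hZ
    _ = (T.card : ℝ) * (3 * C₁ * (4 * B : ℝ) ^ ε) := by
        rw [Finset.sum_const, nsmul_eq_mul]
    _ ≤ (2 * B) * (3 * C₁ * (4 * B : ℝ) ^ ε) := by
        refine mul_le_mul_of_nonneg_right (card_pairs_le B) ?_
        have : (0 : ℝ) ≤ (4 * B : ℝ) ^ ε := by positivity
        nlinarith
    _ = 6 * C₁ * 4 ^ ε * (B : ℝ) ^ (1 + ε) := by
        rw [Real.mul_rpow (by norm_num) (by positivity), Real.rpow_add (by positivity),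
          Real.rpow_one]
        ring

end Pool.Agent.helper47.RA
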