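import Pool.Agent.helper47.RA.Block

set_option autoImplicit false

/-!
# The average of the `p`-torsion over positive fundamental discriminants
-/

namespace Pool.Agent.helper47.RA

open NumberField Finset

open Classical in
/-- the sum over a dyadic block -/
theorem block_bound (p : ℕ) (hp : p.Prime) (hp5 : 5 ≤ p) (ε : ℝ) (hε : 0 < ε) :
    ∃ K : ℝ, 0 < K ∧ ∀ F : ℤ → ℝ, IsTors p F → ∀ X : ℕ, 1 ≤ X →
      ∑ D ∈ (Finset.Ioc (X : ℤ) (2 * X)).filter IsFund, F D ≤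
        K * (X : ℝ) ^ (3 / 2 - 3 / (2 * (p : ℝ) + 2) + 4 * ε) := by
  have hodd : Odd p := hp.odd_of_ne_two (by omega)
  have hpR : (5 : ℝ) ≤ p := by exact_mod_cast hp5
  set a : ℝ := 3 / (2 * (p : ℝ) + 2) with ha
  have ha0 : 0 < a := by positivity
  have ha4 : a ≤ 1 / 4 := by
    rw [ha, div_le_iff₀ (by positivity)]; linarith
  have hap : a * p = 3 / 2 - a := by rw [ha]; field_simp; ring
  obtain ⟨C, hC, hblock⟩ := block_Z ε hε
  obtain ⟨Z₀, hZ₀2, hcheb⟩ := card_primes_ge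
  -- threshold
  obtain ⟨X₀, hX₀⟩ : ∃ X₀ : ℕ, ((max Z₀ (4096 * p ^ 2) + 17 : ℕ) : ℝ) ^ (1 / a) ≤ X₀ :=
    exists_nat_ge _
  set K₁ : ℝ := 80 * 8 ^ ε / ε with hK₁
  set K₃ : ℝ := 16 * C * ((8 : ℝ) ^ (2 * p)) ^ ε * 4 ^ p * (1 + 9 * 2 ^ p) with hK₃
  have hK₁0 : 0 < K₁ := by positivity
  have hK₃0 : 0 < K₃ := by positivity
  set K : ℝ := C * (K₁ + 1024 + K₃) + C * ((X₀ : ℝ) + 1) with hK
  have hK0 : 0 < K := by positivity
  refine ⟨K, hK0, fun F hF X hX => ?_⟩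
  obtain ⟨htriv, hmain⟩ := hblock p hodd F hF X hX
  have hXR : (1 : ℝ) ≤ X := by exact_mod_cast hX
  have hX0 : (0 : ℝ) < X := by linarith
  by_cases hlarge : X ≤ X₀
  · -- small X
    have h1 : (X : ℝ) ≤ ((X₀ : ℝ) + 1) * (X : ℝ) ^ (1 - a + 3 * ε) := by
      have h2 : (X : ℝ) = (X : ℝ) ^ (a - 3 * ε) * (X : ℝ) ^ (1 - a + 3 * ε) := by
        rw [← Real.rpow_add hX0, show a - 3 * ε + (1 - a + 3 * ε) = 1 by ring, Real.rpow_one]
      have h3 : (X : ℝ) ^ (a - 3 * ε) ≤ (X₀ : ℝ) + 1 := by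
        calc (X : ℝ) ^ (a - 3 * ε) ≤ (X : ℝ) ^ (1 : ℝ) :=
              Real.rpow_le_rpow_of_exponent_le hXR (by linarith)
          _ = X := Real.rpow_one _
          _ ≤ X₀ := by exact_mod_cast hlarge
          _ ≤ _ := by linarith
      calc (X : ℝ) = (X : ℝ) ^ (a - 3 * ε) * (X : ℝ) ^ (1 - a + 3 * ε) := h2
        _ ≤ _ := mul_le_mul_of_nonneg_right h3 (by positivity)
    calc ∑ D ∈ (Finset.Ioc (X : ℤ) (2 * X)).filter IsFund, F D
        ≤ C * (X : ℝ) ^ (1 / 2 + ε) * X := htriv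
      _ ≤ C * (X : ℝ) ^ (1 / 2 + ε) * (((X₀ : ℝ) + 1) * (X : ℝ) ^ (1 - a + 3 * ε)) :=
          mul_le_mul_of_nonneg_left h1 (by positivity)
      _ = C * ((X₀ : ℝ) + 1) * ((X : ℝ) ^ (1 / 2 + ε) * (X : ℝ) ^ (1 - a + 3 * ε)) := by ring
      _ = C * ((X₀ : ℝ) + 1) * (X : ℝ) ^ (3 / 2 - a + 4 * ε) := by
          rw [← Real.rpow_add hX0]
          congr 2
          ring
      _ ≤ K * (X : ℝ) ^ (3 / 2 - a + 4 * ε) := by
          refine mul_le_mul_of_nonneg_right ?_ (by positivity)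
          rw [hK]
          have : 0 ≤ C * (K₁ + 1024 + K₃) := by positivity
          linarith
  · push Not at hlarge
    have hX₀R : (X₀ : ℝ) < X := by exact_mod_cast hlarge
    -- X^a is large
    have hXa : ((max Z₀ (4096 * p ^ 2) + 17 : ℕ) : ℝ) ≤ (X : ℝ) ^ a := by
      have h1 : (((max Z₀ (4096 * p ^ 2) + 17 : ℕ) : ℝ) ^ (1 / a)) ^ a ≤ (X : ℝ) ^ a :=
        Real.rpow_le_rpow (by positivity) (by linarith) ha0.le
      rwa [← Real.rpow_mul (by positivity), one_div_mul_cancel ha0.ne', Real.rpow_one] at h1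
    set Z : ℕ := ⌈(X : ℝ) ^ a⌉₊ with hZ
    have hZge : (X : ℝ) ^ a ≤ Z := Nat.le_ceil _
    have hXa1 : 1 ≤ (X : ℝ) ^ a := Real.one_le_rpow hXR ha0.le
    have hZle : (Z : ℝ) ≤ 2 * (X : ℝ) ^ a := by
      have : (Z : ℝ) < (X : ℝ) ^ a + 1 := Nat.ceil_lt_add_one (by positivity)
      linarith
    have hZbig : max Z₀ (4096 * p ^ 2) + 17 ≤ Z := by
      have := hXa.trans hZge
      exact_mod_cast this
    have hZZ₀ : Z₀ ≤ Z := by
      have := le_max_left Z₀ (4096 * p ^ 2)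
      omega
    have hZp2 : 4096 * p ^ 2 ≤ Z := by
      have := le_max_right Z₀ (4096 * p ^ 2)
      omega
    have hZR : (1 : ℝ) ≤ Z := hXa1.trans hZge
    have hZ0 : (0 : ℝ) < Z := by linarith
    have hXa17 : (17 : ℝ) ≤ (X : ℝ) ^ a := by
      refine le_trans ?_ hXa
      push_cast
      have : (0 : ℝ) ≤ max (Z₀ : ℝ) (4096 * (p : ℝ) ^ 2) := le_max_of_le_left (by positivity)
      linarith
    -- 2 X < Z ^ p
    have hZp : 2 * X < Z ^ p := by
      have h1 : (2 * X : ℝ) < (Z : ℝ) ^ p := by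
        calc (2 * X : ℝ) < 17 * X := by linarith
          _ ≤ (X : ℝ) ^ a * (X : ℝ) ^ (1 : ℝ) := by
              rw [Real.rpow_one]; exact mul_le_mul_of_nonneg_right hXa17 hX0.le
          _ = (X : ℝ) ^ (a + 1) := (Real.rpow_add hX0 _ _).symm
          _ ≤ (X : ℝ) ^ (a * p) := by
              refine Real.rpow_le_rpow_of_exponent_le hXR ?_
              rw [hap]; linarith
          _ = ((X : ℝ) ^ a) ^ p := by rw [Real.rpow_mul hX0.le, Real.rpow_natCast]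
          _ ≤ (Z : ℝ) ^ p := pow_le_pow_left₀ (by positivity) hZge p
      exact_mod_cast h1
    -- many primes
    set π : ℕ := ((Finset.Ioc Z (4 * Z)).filter Nat.Prime).card with hπ
    have hch := hcheb Z hZZ₀
    rw [← hπ] at hch
    have hlog0 : 0 < Real.log (4 * Z) := Real.log_pos (by linarith)
    have hπ4 : 4 * p ≤ π := by
      have h1 : Real.log (4 * Z) ≤ 4 * √(Z : ℝ) := by
        have h2 := Real.log_le_rpow_div (x := 4 * (Z : ℝ)) (by positivity)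
          (show (0 : ℝ) < 1 / 2 by norm_num)
        have h3 : (4 * (Z : ℝ)) ^ (1 / 2 : ℝ) = 2 * √(Z : ℝ) := by
          rw [← Real.sqrt_eq_rpow, Real.sqrt_mul (by norm_num)]
          congr 1
          rw [show (4 : ℝ) = 2 ^ 2 by norm_num, Real.sqrt_sq (by norm_num)]
        rw [h3] at h2
        linarith
      have h2 : √(Z : ℝ) * √(Z : ℝ) = Z := Real.mul_self_sqrt hZ0.le
      have h3 : 64 * (p : ℝ) ≤ √(Z : ℝ) := by
        refine Real.le_sqrt_of_sq_le ?_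
        have : ((4096 * p ^ 2 : ℕ) : ℝ) ≤ Z := by exact_mod_cast hZp2
        push_cast at this
        linarith
      have h4 : (0 : ℝ) < √(Z : ℝ) := Real.sqrt_pos.2 hZ0
      have h5 : √(Z : ℝ) * √(Z : ℝ) ≤ √(Z : ℝ) * (16 * (π : ℝ)) := by
        calc √(Z : ℝ) * √(Z : ℝ) = Z := h2
          _ ≤ 4 * Real.log (4 * Z) * π := hch
          _ ≤ 4 * (4 * √(Z : ℝ)) * π := by
              refine mul_le_mul_of_nonneg_right ?_ (Nat.cast_nonneg _)
              linarith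
          _ = _ := by ring
      have h6 : √(Z : ℝ) ≤ 16 * (π : ℝ) := le_of_mul_le_mul_left h5 h4
      have h7 : (4 * (p : ℝ)) ≤ π := by linarith
      exact_mod_cast h7
    have hπpos : (0 : ℝ) < π := by
      have : 0 < π := by omega
      exact_mod_cast this
    have hm := hmain Z (by omega) hZp hπ4
    rw [← hπ] at hm
    refine hm.trans ?_
    have hexp : 0 ≤ 1 - a := by linarith
    -- first term
    have hT1 : 20 * (X : ℝ) / π ≤ K₁ * (X : ℝ) ^ (1 - a + 3 * ε) := by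
      have h1 : 20 * (X : ℝ) / π ≤ 80 * Real.log (4 * Z) * (X / Z) := by
        rw [div_le_iff₀ hπpos]
        have h2 : 80 * Real.log (4 * Z) * ((X : ℝ) / Z) * π =
            20 * (X / Z) * (4 * Real.log (4 * Z) * π) := by ring
        rw [h2]
        calc 20 * (X : ℝ) = 20 * (X / Z) * Z := by field_simp
          _ ≤ _ := mul_le_mul_of_nonneg_left hch (by positivity)
      have h2 : Real.log (4 * Z) ≤ 8 ^ ε / ε * (X : ℝ) ^ ε := by
        have h3 := Real.log_le_rpow_div (x := 4 * (Z : ℝ)) (by positivity) hε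
        have h4 : 4 * (Z : ℝ) ≤ 8 * X := by
          have : (X : ℝ) ^ a ≤ X := by
            calc (X : ℝ) ^ a ≤ (X : ℝ) ^ (1 : ℝ) :=
                  Real.rpow_le_rpow_of_exponent_le hXR (by linarith)
              _ = X := Real.rpow_one _
          linarith
        have h5 : (4 * (Z : ℝ)) ^ ε ≤ 8 ^ ε * (X : ℝ) ^ ε := by
          rw [← Real.mul_rpow (by norm_num) hX0.le]
          exact Real.rpow_le_rpow (by positivity) h4 hε.le
        calc Real.log (4 * Z) ≤ (4 * (Z : ℝ)) ^ ε / ε := h3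
          _ ≤ (8 ^ ε * (X : ℝ) ^ ε) / ε := div_le_div_of_nonneg_right h5 hε.le
          _ = _ := by ring
      have h3 : (X : ℝ) / Z ≤ (X : ℝ) ^ (1 - a) := by
        rw [Real.rpow_sub hX0, Real.rpow_one]
        exact div_le_div_of_nonneg_left hX0.le (by positivity) hZge
      calc 20 * (X : ℝ) / π ≤ 80 * Real.log (4 * Z) * (X / Z) := h1
        _ ≤ 80 * (8 ^ ε / ε * (X : ℝ) ^ ε) * (X : ℝ) ^ (1 - a) := by
            refine mul_le_mul (mul_le_mul_of_nonneg_left h2 (by norm_num)) h3 (by positivity)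
              (by positivity)
        _ = K₁ * ((X : ℝ) ^ (1 - a) * (X : ℝ) ^ ε) := by rw [hK₁]; ring
        _ = K₁ * (X : ℝ) ^ (1 - a + ε) := by rw [Real.rpow_add hX0]
        _ ≤ K₁ * (X : ℝ) ^ (1 - a + 3 * ε) := by
            refine mul_le_mul_of_nonneg_left ?_ hK₁0.le
            exact Real.rpow_le_rpow_of_exponent_le hXR (by linarith)
    -- second term
    have hT2 : 256 * (Z : ℝ) ^ 2 ≤ 1024 * (X : ℝ) ^ (1 - a + 3 * ε) := by
      have h1 : (Z : ℝ) ^ 2 ≤ (2 * (X : ℝ) ^ a) ^ 2 := pow_le_pow_left₀ hZ0.le hZle 2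
      have h2 : (2 * (X : ℝ) ^ a) ^ 2 = 4 * (X : ℝ) ^ (a + a) := by
        rw [Real.rpow_add hX0]; ring
      have h3 : (X : ℝ) ^ (a + a) ≤ (X : ℝ) ^ (1 - a + 3 * ε) :=
        Real.rpow_le_rpow_of_exponent_le hXR (by linarith)
      rw [h2] at h1
      linarith
    -- third term
    have hT3 : 16 * (C * ((4 * Z : ℝ) ^ (2 * p)) ^ ε * ((4 * Z : ℝ) ^ p / √(X : ℝ)) *
          ((X : ℝ) / (Z : ℝ) ^ p + 9)) ≤ K₃ * (X : ℝ) ^ (1 - a + 3 * ε) := by
      have h1 : ((4 * Z : ℝ) ^ (2 * p)) ^ ε ≤ ((8 : ℝ) ^ (2 * p)) ^ ε * (X : ℝ) ^ (3 * ε) := by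
        have h2 : (4 * Z : ℝ) ^ (2 * p) ≤ (8 : ℝ) ^ (2 * p) * (X : ℝ) ^ (3 : ℝ) := by
          calc (4 * Z : ℝ) ^ (2 * p) ≤ (8 * (X : ℝ) ^ a) ^ (2 * p) :=
                pow_le_pow_left₀ (by positivity) (by linarith) _
            _ = (8 : ℝ) ^ (2 * p) * (X : ℝ) ^ (a * ((2 * p : ℕ) : ℝ)) := by
                rw [mul_pow, Real.rpow_mul hX0.le, Real.rpow_natCast]
            _ ≤ (8 : ℝ) ^ (2 * p) * (X : ℝ) ^ (3 : ℝ) := by
                refine mul_le_mul_of_nonneg_left ?_ (by positivity)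
                refine Real.rpow_le_rpow_of_exponent_le hXR ?_
                push_cast
                have : a * (2 * p) = 2 * (a * p) := by ring
                rw [this, hap]
                linarith
        calc ((4 * Z : ℝ) ^ (2 * p)) ^ ε ≤ ((8 : ℝ) ^ (2 * p) * (X : ℝ) ^ (3 : ℝ)) ^ ε :=
              Real.rpow_le_rpow (by positivity) h2 hε.le
          _ = _ := by
              rw [Real.mul_rpow (by positivity) (by positivity), ← Real.rpow_mul hX0.le]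
      have h2 : (4 * Z : ℝ) ^ p / √(X : ℝ) * ((X : ℝ) / (Z : ℝ) ^ p + 9) ≤
          4 ^ p * (1 + 9 * 2 ^ p) * (X : ℝ) ^ (1 - a) := by
        have hs : √(X : ℝ) = (X : ℝ) ^ (1 / 2 : ℝ) := Real.sqrt_eq_rpow _
        have h3 : (4 * Z : ℝ) ^ p / √(X : ℝ) * ((X : ℝ) / (Z : ℝ) ^ p + 9) =
            4 ^ p * ((X : ℝ) / √(X : ℝ) + 9 * ((Z : ℝ) ^ p / √(X : ℝ))) := by
          have : √(X : ℝ) ≠ 0 := (Real.sqrt_pos.2 hX0).ne'
          rw [mul_pow]
          field_simp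
        rw [h3]
        have h4 : (X : ℝ) / √(X : ℝ) ≤ (X : ℝ) ^ (1 - a) := by
          have h5 : (X : ℝ) / √(X : ℝ) = (X : ℝ) ^ (1 - 1 / 2 : ℝ) := by
            rw [Real.rpow_sub hX0, Real.rpow_one, hs]
          rw [h5]
          exact Real.rpow_le_rpow_of_exponent_le hXR (by linarith)
        have h5 : (Z : ℝ) ^ p / √(X : ℝ) ≤ 2 ^ p * (X : ℝ) ^ (1 - a) := by
          have h6 : (Z : ℝ) ^ p ≤ 2 ^ p * (X : ℝ) ^ (a * p) := by
            calc (Z : ℝ) ^ p ≤ (2 * (X : ℝ) ^ a) ^ p := pow_le_pow_left₀ hZ0.le hZle p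
              _ = 2 ^ p * (X : ℝ) ^ (a * p) := by
                  rw [mul_pow, Real.rpow_mul hX0.le, Real.rpow_natCast]
          calc (Z : ℝ) ^ p / √(X : ℝ) ≤ 2 ^ p * (X : ℝ) ^ (a * p) / √(X : ℝ) :=
                div_le_div_of_nonneg_right h6 (Real.sqrt_nonneg _)
            _ = 2 ^ p * ((X : ℝ) ^ (a * p) / (X : ℝ) ^ (1 / 2 : ℝ)) := by rw [hs]; ring
            _ = 2 ^ p * (X : ℝ) ^ (1 - a) := by
                rw [← Real.rpow_sub hX0, hap]
                congr 2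
                ring
        have h6 : (X : ℝ) / √(X : ℝ) + 9 * ((Z : ℝ) ^ p / √(X : ℝ)) ≤
            (1 + 9 * 2 ^ p) * (X : ℝ) ^ (1 - a) := by
          have h7 : (1 + 9 * 2 ^ p) * (X : ℝ) ^ (1 - a) =
              (X : ℝ) ^ (1 - a) + 9 * (2 ^ p * (X : ℝ) ^ (1 - a)) := by ring
          rw [h7]
          linarith
        calc 4 ^ p * ((X : ℝ) / √(X : ℝ) + 9 * ((Z : ℝ) ^ p / √(X : ℝ))) ≤
              4 ^ p * ((1 + 9 * 2 ^ p) * (X : ℝ) ^ (1 - a)) :=
              mul_le_mul_of_nonneg_left h6 (by positivity)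
          _ = _ := by ring
      calc 16 * (C * ((4 * Z : ℝ) ^ (2 * p)) ^ ε * ((4 * Z : ℝ) ^ p / √(X : ℝ)) *
          ((X : ℝ) / (Z : ℝ) ^ p + 9))
          = 16 * C * ((4 * Z : ℝ) ^ (2 * p)) ^ ε *
            ((4 * Z : ℝ) ^ p / √(X : ℝ) * ((X : ℝ) / (Z : ℝ) ^ p + 9)) := by ring
        _ ≤ 16 * C * (((8 : ℝ) ^ (2 * p)) ^ ε * (X : ℝ) ^ (3 * ε)) *
            (4 ^ p * (1 + 9 * 2 ^ p) * (X : ℝ) ^ (1 - a)) := by
            refine mul_le_mul (mul_le_mul_of_nonneg_left h1 (by positivity)) h2 (by positivity)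
              (by positivity)
        _ = K₃ * ((X : ℝ) ^ (1 - a) * (X : ℝ) ^ (3 * ε)) := by rw [hK₃]; ring
        _ = _ := by rw [← Real.rpow_add hX0]
    calc C * (X : ℝ) ^ (1 / 2 + ε) * (20 * X / π + 256 * (Z : ℝ) ^ 2 +
            16 * (C * ((4 * Z : ℝ) ^ (2 * p)) ^ ε * ((4 * Z : ℝ) ^ p / √(X : ℝ)) *
          ((X : ℝ) / (Z : ℝ) ^ p + 9)))
        ≤ C * (X : ℝ) ^ (1 / 2 + ε) * (K₁ * (X : ℝ) ^ (1 - a + 3 * ε) +
          1024 * (X : ℝ) ^ (1 - a + 3 * ε) + K₃ * (X : ℝ) ^ (1 - a + 3 * ε)) := by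
          refine mul_le_mul_of_nonneg_left ?_ (by positivity)
          linarith
      _ = C * (K₁ + 1024 + K₃) * ((X : ℝ) ^ (1 / 2 + ε) * (X : ℝ) ^ (1 - a + 3 * ε)) := by ring
      _ = C * (K₁ + 1024 + K₃) * (X : ℝ) ^ (3 / 2 - a + 4 * ε) := by
          rw [← Real.rpow_add hX0]
          congr 2
          ring
      _ ≤ K * (X : ℝ) ^ (3 / 2 - a + 4 * ε) := by
          refine mul_le_mul_of_nonneg_right ?_ (by positivity)
          rw [hK]
          have : 0 ≤ C * ((X₀ : ℝ) + 1) := by positivity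
          linarith

open Classical in
/-- **The average of the `p`-torsion over real quadratic fields.** -/
theorem main_bound (p : ℕ) (hp : p.Prime) (hp5 : 5 ≤ p) (ε : ℝ) (hε : 0 < ε) :
    ∃ C : ℝ, 0 < C ∧ ∀ F : ℤ → ℝ, (∀ D, 0 ≤ F D) → IsTors p F → ∀ N : ℕ,
      ∑ D ∈ (Finset.Ioo (0 : ℤ) N).filter IsFund, F D ≤
        C * (N : ℝ) ^ (3 / 2 - 3 / (2 * (p : ℝ) + 2) + ε) := by
  obtain ⟨K, hK, hb⟩ := block_bound p hp hp5 (ε / 4) (by positivity)
  have hpR : (5 : ℝ) ≤ p := by exact_mod_cast hp5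
  set s : ℝ := 3 / 2 - 3 / (2 * (p : ℝ) + 2) + ε with hs
  have hs' : 3 / 2 - 3 / (2 * (p : ℝ) + 2) + 4 * (ε / 4) = s := by rw [hs]; ring
  have hs1 : 1 ≤ s := by
    have : 3 / (2 * (p : ℝ) + 2) ≤ 1 / 4 := by
      rw [div_le_iff₀ (by positivity)]; linarith
    rw [hs]; linarith
  refine ⟨K * 2 ^ s, by positivity, fun F hF0 hF N => ?_⟩
  -- dyadic induction
  have hind : ∀ n : ℕ, ∑ D ∈ (Finset.Ioc (1 : ℤ) (2 ^ n)).filter IsFund, F D ≤
      K * ((2 : ℝ) ^ n) ^ s := by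
    intro n
    induction n with
    | zero => simp; positivity
    | succ n ih =>
      have hsplit : Finset.Ioc (1 : ℤ) (2 ^ (n + 1)) =
          Finset.Ioc (1 : ℤ) (2 ^ n) ∪ Finset.Ioc ((2 : ℤ) ^ n) (2 ^ (n + 1)) := by
        rw [Finset.Ioc_union_Ioc_eq_Ioc]
        · exact one_le_pow₀ (by norm_num)
        · exact pow_le_pow_right₀ (by norm_num) (by omega)
      have hdisj : Disjoint (Finset.Ioc (1 : ℤ) (2 ^ n))
          (Finset.Ioc ((2 : ℤ) ^ n) (2 ^ (n + 1))) := by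
        rw [Finset.disjoint_left]
        intro x hx hx'
        rw [Finset.mem_Ioc] at hx hx'
        omega
      rw [hsplit, Finset.filter_union, Finset.sum_union
        (Finset.disjoint_filter_filter hdisj)]
      have h1 := hb F hF (2 ^ n) Nat.one_le_two_pow
      push_cast at h1
      rw [hs'] at h1
      have h2 : (2 : ℤ) ^ (n + 1) = 2 * 2 ^ n := by rw [pow_succ]; ring
      rw [h2]
      have h3 : ((2 : ℝ) ^ (n + 1)) ^ s = 2 ^ s * ((2 : ℝ) ^ n) ^ s := by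
        rw [pow_succ', Real.mul_rpow (by norm_num) (by positivity)]
      rw [h3]
      have h4 : (2 : ℝ) ≤ 2 ^ s := by
        calc (2 : ℝ) = 2 ^ (1 : ℝ) := (Real.rpow_one _).symm
          _ ≤ 2 ^ s := Real.rpow_le_rpow_of_exponent_le (by norm_num) hs1
      have h5 : (0 : ℝ) ≤ K * ((2 : ℝ) ^ n) ^ s := by positivity
      nlinarith
  rcases Nat.eq_zero_or_pos N with hN | hN
  · subst hN
    simp
    positivity
  have hNR : (1 : ℝ) ≤ N := by exact_mod_cast hN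
  set n := Nat.clog 2 N with hn
  have hn1 : N ≤ 2 ^ n := Nat.le_pow_clog (by norm_num) N
  have hn2 : 2 ^ n ≤ 2 * N := by
    rcases Nat.eq_zero_or_pos n with h0 | h0
    · rw [h0, pow_zero]; omega
    · have h3 : 1 < N := by
        by_contra hcon
        have : N = 1 := by omega
        rw [hn, this, Nat.clog_one_right] at h0
        omega
      have h4 := Nat.pow_pred_clog_lt_self (b := 2) (by norm_num) h3
      rw [← hn, Nat.pred_eq_sub_one] at h4
      have : 2 ^ n = 2 * 2 ^ (n - 1) := by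
        rw [← pow_succ']; congr 1; omega
      omega
  have hsub : (Finset.Ioo (0 : ℤ) N).filter IsFund ⊆
      (Finset.Ioc (1 : ℤ) (2 ^ n)).filter IsFund := by
    intro D hD
    rw [Finset.mem_filter, Finset.mem_Ioo] at hD
    rw [Finset.mem_filter, Finset.mem_Ioc]
    have h1 : (N : ℤ) ≤ 2 ^ n := by exact_mod_cast hn1
    have h2 : D ≠ 1 := by
      rintro rfl
      rcases hD.2 with ⟨_, h3, _⟩ | ⟨m, h3, _⟩
      · exact h3 rfl
      · omega
    exact ⟨⟨by omega, by omega⟩, hD.2⟩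
  calc ∑ D ∈ (Finset.Ioo (0 : ℤ) N).filter IsFund, F D
      ≤ ∑ D ∈ (Finset.Ioc (1 : ℤ) (2 ^ n)).filter IsFund, F D :=
        Finset.sum_le_sum_of_subset_of_nonneg hsub fun D _ _ => hF0 D
    _ ≤ K * ((2 : ℝ) ^ n) ^ s := hind n
    _ ≤ K * (2 * N) ^ s := by
        refine mul_le_mul_of_nonneg_left ?_ hK.le
        refine Real.rpow_le_rpow (by positivity) ?_ (by linarith)
        exact_mod_cast hn2
    _ = K * 2 ^ s * (N : ℝ) ^ s := by
        rw [Real.mul_rpow (by norm_num) (by positivity)]; ring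

end Pool.Agent.helper47.RA
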