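import Pool.Agent.helper47.RA.Ideals

set_option autoImplicit false

/-!
# Short elements of ideals in a real quadratic field
-/

namespace Pool.Agent.helper47.RA

open NumberField

/-- data on a real quadratic field -/
structure RQ (K : Type) [Field K] [NumberField K] where
  D : ℤ
  hD : IsFund D
  hpos : 0 < D
  ω : 𝓞 K
  t : ℤ
  k : ℤ
  ht : t = 0 ∨ t = 1
  hk : D = t + 4 * k
  hω : ω * ω = k + t * ω
  hspan : ∀ a : 𝓞 K, ∃ x y : ℤ, a = x + y * ω
  σ₁ : K →+* ℝ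
  σ₂ : K →+* ℝ
  h₁ : σ₁ ω = ((t : ℝ) + √D) / 2
  h₂ : σ₂ ω = ((t : ℝ) - √D) / 2
  hnorm : ∀ a : 𝓞 K, ((Algebra.norm ℤ a : ℤ) : ℝ) = σ₁ a * σ₂ a

/-- every positive fundamental discriminant has such a field -/
theorem exists_RQ (D : ℤ) (hD : IsFund D) (hpos : 0 < D) :
    ∃ (K : Type) (_ : Field K) (_ : NumberField K) (R : RQ K), Module.finrank ℚ K = 2 ∧
      NumberField.discr K = D ∧ R.D = D := by
  obtain ⟨K, i1, i2, h1, h2, ω, t, k, σ₁, σ₂, ht, hk, hω, hs, h3, h4, h5⟩ :=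
    exists_model D hD hpos
  exact ⟨K, i1, i2, ⟨D, hD, hpos, ω, t, k, ht, hk, hω, hs, σ₁, σ₂, h3, h4, h5⟩, h1, h2, rfl⟩

variable {K : Type} [Field K] [NumberField K]

namespace RQ

variable (R : RQ K)

lemma one_le_sqrt : 1 ≤ √(R.D : ℝ) := by
  rw [Real.one_le_sqrt]
  exact_mod_cast R.hpos

lemma sqrt_pos : 0 < √(R.D : ℝ) := lt_of_lt_of_le one_pos R.one_le_sqrt

/-- short elements -/
theorem exists_short (I : Ideal (𝓞 K)) (hI : 0 < Ideal.absNorm I) :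
    ∃ β : 𝓞 K, β ∈ I ∧ β ≠ 0 ∧ |R.σ₁ β| ≤ 2 * √(√(R.D : ℝ) * Ideal.absNorm I) ∧
      |R.σ₂ β| ≤ 2 * √(√(R.D : ℝ) * Ideal.absNorm I) := by
  obtain ⟨a, b, c, ha, hb, hc0, hcb, _, hN, hiff⟩ := exists_hnf R.ht R.hk R.hω I hI
  set s := √(R.D : ℝ) with hs
  have hs1 : 1 ≤ s := R.one_le_sqrt
  have hs0 : 0 < s := by linarith
  have haR : (0 : ℝ) < a := by exact_mod_cast ha
  have hbR : (0 : ℝ) < b := by exact_mod_cast hb
  have hNR : (a : ℝ) ^ 2 * b ≤ Ideal.absNorm I := by exact_mod_cast hN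
  have hW : (a : ℝ) * √(b * s) ≤ √(s * Ideal.absNorm I) := by
    have h1 : (a : ℝ) * √(b * s) = √(s * (a ^ 2 * b)) := by
      rw [show s * ((a : ℝ) ^ 2 * b) = a ^ 2 * (b * s) by ring,
        Real.sqrt_mul (sq_nonneg (a : ℝ)) (b * s), Real.sqrt_sq haR.le]
    rw [h1]
    exact Real.sqrt_le_sqrt (mul_le_mul_of_nonneg_left hNR hs0.le)
  set Q := ⌊√(b / s)⌋₊ with hQ
  rcases Nat.eq_zero_or_pos Q with hQ0 | hQ0
  · -- the small ideal
    have h1 : √((b : ℝ) / s) < 1 := by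
      rw [hQ, Nat.floor_eq_zero] at hQ0
      exact hQ0
    have h2 : (b : ℝ) < s := by
      rw [Real.sqrt_lt' one_pos, div_lt_iff₀ hs0] at h1
      linarith
    refine ⟨((a * b : ℤ) : 𝓞 K), ?_, ?_, ?_, ?_⟩
    · have := (hiff (a * b) 0).2 ⟨1, 0, by ring, by ring⟩
      simpa using this
    · have : ((a * b : ℤ)) ≠ 0 := by positivity
      exact_mod_cast this
    all_goals
      simp only [map_intCast]
      push_cast
      rw [abs_of_pos (by positivity)]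
      have h3 : (a : ℝ) * b ≤ a * √(b * s) := by
        refine mul_le_mul_of_nonneg_left ?_ haR.le
        refine Real.le_sqrt_of_sq_le ?_
        nlinarith
      have h4 : 0 ≤ √(s * (Ideal.absNorm I : ℝ)) := Real.sqrt_nonneg _
      linarith
  · obtain ⟨j, v, hv0, hvQ, hap⟩ := Real.exists_int_int_abs_mul_sub_le
      (((c : ℝ) + R.σ₁ R.ω) / b) hQ0
    have hbs : √((b : ℝ) / s) * s = √(b * s) := by
      have h1 : (b : ℝ) * s = (b / s) * s ^ 2 := by field_simp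
      rw [h1, Real.sqrt_mul (by positivity), Real.sqrt_sq hs0.le]
    have hbs2 : √((b : ℝ) / s) * √(b * s) = b := by
      rw [← Real.sqrt_mul (by positivity)]
      have : (b : ℝ) / s * (b * s) = b ^ 2 := by field_simp
      rw [this, Real.sqrt_sq hbR.le]
    have hrpos : 0 < √((b : ℝ) / s) := Real.sqrt_pos.2 (by positivity)
    have hQ1 : √((b : ℝ) / s) < Q + 1 := Nat.lt_floor_add_one _
    have hQ2 : (Q : ℝ) ≤ √((b : ℝ) / s) := Nat.floor_le (Real.sqrt_nonneg _)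
    set β : 𝓞 K := ((-(a * b * j) + a * c * v : ℤ) : 𝓞 K) + ((a * v : ℤ) : 𝓞 K) * R.ω with hβ
    have e1 : R.σ₁ β = a * (b * (v * (((c : ℝ) + R.σ₁ R.ω) / b) - j)) := by
      simp only [hβ, map_add, map_mul, map_intCast]
      push_cast
      field_simp
      ring
    have e2 : R.σ₂ β = R.σ₁ β - a * (v * s) := by
      simp only [hβ, map_add, map_mul, map_intCast]
      rw [R.h₁, R.h₂]
      push_cast
      ring
    have hb1 : |R.σ₁ β| ≤ a * √(b * s) := by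
      rw [e1, abs_mul, abs_of_pos haR, abs_mul, abs_of_pos hbR]
      refine mul_le_mul_of_nonneg_left ?_ haR.le
      calc (b : ℝ) * |v * (((c : ℝ) + R.σ₁ R.ω) / b) - j| ≤ b * (1 / (Q + 1)) :=
            mul_le_mul_of_nonneg_left hap hbR.le
        _ = (√((b : ℝ) / s) * √(b * s)) * (1 / (Q + 1)) := by rw [hbs2]
        _ ≤ ((Q + 1) * √(b * s)) * (1 / (Q + 1)) := by
            refine mul_le_mul_of_nonneg_right ?_ (by positivity)
            exact mul_le_mul_of_nonneg_right hQ1.le (Real.sqrt_nonneg _)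
        _ = √(b * s) := by field_simp
    have hv : (v : ℝ) * s ≤ √(b * s) := by
      rw [← hbs]
      refine mul_le_mul_of_nonneg_right ?_ hs0.le
      have : (v : ℝ) ≤ Q := by exact_mod_cast hvQ
      linarith
    have hvR : (0 : ℝ) < v := by exact_mod_cast hv0
    refine ⟨β, ?_, ?_, ?_, ?_⟩
    · exact (hiff _ _).2 ⟨-j, v, rfl, by ring⟩
    · intro h0
      have := (lin_indep R.hD R.ht R.hk R.hω h0).2
      have h1 : (a : ℤ) * v ≠ 0 := by
        have : (0 : ℤ) < a := by exact_mod_cast ha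
        positivity
      exact h1 this
    · have := Real.sqrt_nonneg (s * (Ideal.absNorm I : ℝ))
      linarith
    · rw [e2]
      refine (abs_sub _ _).trans ?_
      rw [abs_of_pos (a := (a : ℝ) * (v * s)) (by positivity)]
      have h1 : (a : ℝ) * (v * s) ≤ a * √(b * s) := mul_le_mul_of_nonneg_left hv haR.le
      linarith

lemma absNorm_span (β : 𝓞 K) :
    ((Ideal.absNorm (Ideal.span {β}) : ℕ) : ℝ) = |R.σ₁ β| * |R.σ₂ β| := by
  rw [Ideal.absNorm_span_singleton, ← abs_mul, ← R.hnorm]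
  rw [Nat.cast_natAbs]
  push_cast
  rfl

/-- the cofactor ideal and the size of the ratio of the conjugates -/
theorem exists_short' (I : Ideal (𝓞 K)) (hI : 0 < Ideal.absNorm I) :
    ∃ (β : 𝓞 K) (J : Ideal (𝓞 K)), β ≠ 0 ∧ Ideal.span {β} = I * J ∧ 0 < Ideal.absNorm J ∧
      ((Ideal.absNorm J : ℕ) : ℝ) ≤ 4 * √(R.D : ℝ) ∧
      R.σ₁ β ≠ 0 ∧ R.σ₂ β ≠ 0 ∧
      |R.σ₁ β| / |R.σ₂ β| ≤ 4 * √(R.D : ℝ) ∧ (4 * √(R.D : ℝ))⁻¹ ≤ |R.σ₁ β| / |R.σ₂ β| := by
  obtain ⟨β, hβI, hβ0, h1, h2⟩ := R.exists_short I hI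
  set s := √(R.D : ℝ) with hs
  have hs1 : 1 ≤ s := R.one_le_sqrt
  have hs0 : 0 < s := by linarith
  obtain ⟨J, hJ⟩ := Ideal.dvd_span_singleton.2 hβI
  have hIR : (0 : ℝ) < Ideal.absNorm I := by exact_mod_cast hI
  set W := √(s * (Ideal.absNorm I : ℝ)) with hW
  have hWsq : W * W = s * Ideal.absNorm I := Real.mul_self_sqrt (by positivity)
  have hWpos : 0 < W := Real.sqrt_pos.2 (by positivity)
  have hn := R.absNorm_span β
  have hspan0 : Ideal.span {β} ≠ ⊥ := by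
    rw [Ne, Ideal.span_singleton_eq_bot]
    exact hβ0
  have hJ0 : Ideal.absNorm J ≠ 0 := by
    intro h
    rw [Ideal.absNorm_eq_zero_iff] at h
    rw [h, Ideal.mul_bot] at hJ
    exact hspan0 hJ
  have hJpos : 0 < Ideal.absNorm J := Nat.pos_of_ne_zero hJ0
  have hJ1 : (1 : ℝ) ≤ Ideal.absNorm J := by exact_mod_cast hJpos
  rw [hJ, map_mul] at hn
  push_cast at hn
  have hk0 : (β : K) ≠ 0 := by
    intro h
    exact hβ0 (RingOfIntegers.ext h)
  have hσ1 : R.σ₁ β ≠ 0 := by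
    rw [Ne, map_eq_zero]; exact hk0
  have hσ2 : R.σ₂ β ≠ 0 := by
    rw [Ne, map_eq_zero]; exact hk0
  have p1 : 0 < |R.σ₁ β| := abs_pos.2 hσ1
  have p2 : 0 < |R.σ₂ β| := abs_pos.2 hσ2
  have hlow : (Ideal.absNorm I : ℝ) ≤ |R.σ₁ β| * |R.σ₂ β| := by
    rw [← hn]
    nlinarith
  refine ⟨β, J, hβ0, hJ, hJpos, ?_, hσ1, hσ2, ?_, ?_⟩
  · have h3 : (Ideal.absNorm I : ℝ) * Ideal.absNorm J ≤ (2 * W) * (2 * W) := by
      rw [hn]
      exact mul_le_mul h1 h2 p2.le (by positivity)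
    have h4 : (2 * W) * (2 * W) = Ideal.absNorm I * (4 * s) := by linear_combination 4 * hWsq
    rw [h4] at h3
    exact le_of_mul_le_mul_left h3 hIR
  · rw [div_le_iff₀ p2]
    -- |σ₁| ≤ 4 s |σ₂|
    have h3 : |R.σ₁ β| * |R.σ₁ β| ≤ (2 * W) * (2 * W) :=
      mul_le_mul h1 h1 p1.le (by positivity)
    have h4 : (2 * W) * (2 * W) = 4 * s * Ideal.absNorm I := by linear_combination 4 * hWsq
    rw [h4] at h3
    have h5 : |R.σ₁ β| * |R.σ₁ β| ≤ |R.σ₁ β| * (4 * s * |R.σ₂ β|) := by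
      calc |R.σ₁ β| * |R.σ₁ β| ≤ 4 * s * Ideal.absNorm I := h3
        _ ≤ 4 * s * (|R.σ₁ β| * |R.σ₂ β|) := mul_le_mul_of_nonneg_left hlow (by positivity)
        _ = _ := by ring
    exact le_of_mul_le_mul_left h5 p1
  · rw [inv_le_comm₀ (by positivity) (by positivity), inv_div, div_le_iff₀ p1]
    have h3 : |R.σ₂ β| * |R.σ₂ β| ≤ (2 * W) * (2 * W) :=
      mul_le_mul h2 h2 p2.le (by positivity)
    have h4 : (2 * W) * (2 * W) = 4 * s * Ideal.absNorm I := by linear_combination 4 * hWsq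
    rw [h4] at h3
    have h5 : |R.σ₂ β| * |R.σ₂ β| ≤ |R.σ₂ β| * (4 * s * |R.σ₁ β|) := by
      calc |R.σ₂ β| * |R.σ₂ β| ≤ 4 * s * Ideal.absNorm I := h3
        _ ≤ 4 * s * (|R.σ₁ β| * |R.σ₂ β|) := mul_le_mul_of_nonneg_left hlow (by positivity)
        _ = _ := by ring
    exact le_of_mul_le_mul_left h5 p2

end RQ

end Pool.Agent.helper47.RA
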